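import Pool.Agent.SwR.ExitAll

/-!
# The end of the proof with a general slab exponent `θ`, `2 / 3 ≤ θ < 1`:
`c_n ≤ μ ^ n exp (C n ^ f)` for every `f > θ / (1 + (dd - 1) θ)`
-/

namespace Pool.Agent.SwR

variable [Pool.Agent.SwP.Dim]

open Finset Filter
open scoped Classical
open Pool.Agent.SwP Pool.Agent.SwX

/-- **Main bound**, for words, with a general slab exponent -/
theorem main_of_slab_theta {μ : ℝ} (hμ : 1 ≤ μ) (hb : ∀ n, ((brs n).card : ℝ) ≤ μ ^ n) {θ : ℝ}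
    (hθ : 2 / 3 ≤ θ) (hθ' : θ < 1) (hS : Slab μ θ) {f : ℝ}
    (hf : θ / (1 + ((Dim.k : ℝ) + 1) * θ) < f) :
    ∃ C : ℝ, ∀ n : ℕ, 1 ≤ n → ((walks n).card : ℝ) ≤ μ ^ n * Real.exp (C * (n : ℝ) ^ f) := by
  have hμ0 : 0 < μ := by linarith
  have hk0 : (0 : ℝ) ≤ (Dim.k : ℝ) := Nat.cast_nonneg _
  have hdd : (dd : ℝ) = (Dim.k : ℝ) + 2 := by simp only [dd]; push_cast; ring
  have hθ0 : 0 < θ := by linarith
  have hkθ : 0 ≤ (Dim.k : ℝ) * θ := by positivity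
  have hden : 0 < 1 + ((Dim.k : ℝ) + 1) * θ := by linarith
  obtain ⟨r, hr⟩ : ∃ r : ℝ, r = θ / (1 + ((Dim.k : ℝ) + 1) * θ) := ⟨_, rfl⟩
  rw [← hr] at hf
  have hr1 : r * (1 + ((Dim.k : ℝ) + 1) * θ) = θ := by
    rw [hr]
    field_simp
  have hr2 : r < 1 / 2 := by
    rw [hr, div_lt_iff₀ hden]
    linarith
  have hr3 : r < 1 / ((Dim.k : ℝ) + 1) := by
    rw [hr, div_lt_div_iff₀ hden (by positivity)]
    linarith
  obtain ⟨f0, g1, g2⟩ := exists_between (lt_min hr2 hr3)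
  have g3 : f0 < 1 / 2 := lt_of_lt_of_le g2 (min_le_left _ _)
  have g4 : ((Dim.k : ℝ) + 1) * f0 < 1 := by
    have := lt_of_lt_of_le g2 (min_le_right _ _)
    rw [lt_div_iff₀ (by positivity)] at this
    linarith
  have hv : r < min f f0 := lt_min hf g1
  have hv' : min f f0 ≤ f0 := min_le_right _ _
  have hv2 : θ < min f f0 * (1 + ((Dim.k : ℝ) + 1) * θ) := by
    have := mul_lt_mul_of_pos_right hv hden
    linarith
  have hv3 : ((Dim.k : ℝ) + 1) * min f f0 ≤ ((Dim.k : ℝ) + 1) * f0 :=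
    mul_le_mul_of_nonneg_left hv' (by positivity)
  have hv4 : 2 < (2 * ((Dim.k : ℝ) + 2) + 1) * min f f0 := by
    have h1 : 2 ≤ (2 * ((Dim.k : ℝ) + 2) + 1) * r := by
      have h2 : 2 * (1 + ((Dim.k : ℝ) + 1) * θ) ≤ (2 * ((Dim.k : ℝ) + 2) + 1) * θ := by linarith
      have h3 : 2 * (1 + ((Dim.k : ℝ) + 1) * θ) ≤
          ((2 * ((Dim.k : ℝ) + 2) + 1) * r) * (1 + ((Dim.k : ℝ) + 1) * θ) := by
        rw [mul_assoc, hr1]
        exact h2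
      exact le_of_mul_le_mul_right h3 hden
    have h4 : (2 * ((Dim.k : ℝ) + 2) + 1) * r < (2 * ((Dim.k : ℝ) + 2) + 1) * min f f0 :=
      mul_lt_mul_of_pos_left hv (by positivity)
    linarith
  obtain ⟨C, hC, h1⟩ := FF_bound9 hμ hb hθ0.le hS 5 (exit9 hμ hb) (f := min f f0)
    (by rw [hdd]; exact hv4) (by linarith) (by linarith) (by linarith)
  refine ⟨C, fun n hn => ?_⟩
  have hn' : (1 : ℝ) ≤ n := by exact_mod_cast hn
  have h5 := term_le_exp hμ (le_refl n)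
  have h6 : ((walks n).card : ℝ) * μ⁻¹ ^ n ≤ Real.exp (C * (n : ℝ) ^ f) := by
    refine h5.trans (Real.exp_le_exp.2 ((h1 n hn).trans ?_))
    exact mul_le_mul_of_nonneg_left (Real.rpow_le_rpow_of_exponent_le hn' (min_le_left _ _)) hC
  rw [inv_pow, ← div_eq_mul_inv, div_le_iff₀ (by positivity)] at h6
  linarith

/-- the case `θ = 5 / 7`: every exponent `f > 5 / (5 dd + 2)` -/
theorem main_of_slab57 {μ : ℝ} (hμ : 1 ≤ μ) (hb : ∀ n, ((brs n).card : ℝ) ≤ μ ^ n)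
    (hS : Slab μ (5 / 7)) {f : ℝ} (hf : 5 / (5 * (dd : ℝ) + 2) < f) :
    ∃ C : ℝ, ∀ n : ℕ, 1 ≤ n → ((walks n).card : ℝ) ≤ μ ^ n * Real.exp (C * (n : ℝ) ^ f) := by
  refine main_of_slab_theta hμ hb (by norm_num) (by norm_num) hS ?_
  refine lt_of_le_of_lt (le_of_eq ?_) hf
  have hk0 : (0 : ℝ) ≤ (Dim.k : ℝ) := Nat.cast_nonneg _
  have hdd : (dd : ℝ) = (Dim.k : ℝ) + 2 := by simp only [dd]; push_cast; ring
  rw [hdd, div_eq_div_iff (by positivity) (by positivity)]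
  ring

/-- the case `θ = 2 / 3`: every exponent `f > 2 / (2 dd + 1)` -/
theorem main_of_slab23 {μ : ℝ} (hμ : 1 ≤ μ) (hb : ∀ n, ((brs n).card : ℝ) ≤ μ ^ n)
    (hS : Slab μ (2 / 3)) {f : ℝ} (hf : 2 / (2 * (dd : ℝ) + 1) < f) :
    ∃ C : ℝ, ∀ n : ℕ, 1 ≤ n → ((walks n).card : ℝ) ≤ μ ^ n * Real.exp (C * (n : ℝ) ^ f) := by
  refine main_of_slab_theta hμ hb (by norm_num) (by norm_num) hS ?_
  refine lt_of_le_of_lt (le_of_eq ?_) hf
  have hk0 : (0 : ℝ) ≤ (Dim.k : ℝ) := Nat.cast_nonneg _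
  have hdd : (dd : ℝ) = (Dim.k : ℝ) + 2 := by simp only [dd]; push_cast; ring
  rw [hdd, div_eq_div_iff (by positivity) (by positivity)]
  ring

end Pool.Agent.SwR
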