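import Pool.Agent.SwR.Defs

/-! The triples of legs whose last leg can be prolonged (case (ext)). -/

set_option autoImplicit false

namespace Pool.Agent.SwR

variable [Pool.Agent.SwP.Dim]

open Finset
open scoped Classical
open Pool.Agent.SwP

/-! ### uniqueness of decompositions -/

theorem ex_cut_unique {p q p' q' : Word} (h : p ++ q = p' ++ q') (hh : D p 0 = D p' 0)
    (hq : Hi q) (hq' : Hi q') : p = p' := by
  rcases List.append_eq_append_iff.1 h with ⟨r, h1, h2⟩ | ⟨r, h1, h2⟩
  · by_contra hne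
    have hr : r ≠ [] := fun h0 => hne (by rw [h1, h0, List.append_nil])
    have h3 := hq r q' h2 hr
    rw [h1, D_append, Pi.add_apply] at hh
    omega
  · by_contra hne
    have hr : r ≠ [] := fun h0 => hne (by rw [h1, h0, List.append_nil])
    have h3 := hq' r q h2 hr
    rw [h1, D_append, Pi.add_apply] at hh
    omega

theorem ex_max_unique {a q a' q' : Word} (h : a ++ q = a' ++ q') (ha : Lo a) (ha' : Lo a')
    (hq : ∀ u e : Word, q = u ++ e → u ≠ [] → D u 0 < 0)
    (hq' : ∀ u e : Word, q' = u ++ e → u ≠ [] → D u 0 < 0) : a = a' := by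
  rcases List.append_eq_append_iff.1 h with ⟨r, h1, h2⟩ | ⟨r, h1, h2⟩
  · by_contra hne
    have hr : r ≠ [] := fun h0 => hne (by rw [h1, h0, List.append_nil])
    have h3 := hq r q' h2 hr
    have h4 := ha' a r h1
    omega
  · by_contra hne
    have hr : r ≠ [] := fun h0 => hne (by rw [h1, h0, List.append_nil])
    have h3 := hq' r q h2 hr
    have h4 := ha a' r h1
    omega

theorem ex_min_unique {b c b' c' : Word} (h : b ++ c = b' ++ c')
    (hb : ∀ d u : Word, b = d ++ u → D u 0 ≤ 0) (hb' : ∀ d u : Word, b' = d ++ u → D u 0 ≤ 0)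
    (hc : Hi c) (hc' : Hi c') : b = b' := by
  rcases List.append_eq_append_iff.1 h with ⟨r, h1, h2⟩ | ⟨r, h1, h2⟩
  · by_contra hne
    have hr : r ≠ [] := fun h0 => hne (by rw [h1, h0, List.append_nil])
    have h3 := hc r c' h2 hr
    have h4 := hb' b r h1
    omega
  · by_contra hne
    have hr : r ≠ [] := fun h0 => hne (by rw [h1, h0, List.append_nil])
    have h3 := hc' r c h2 hr
    have h4 := hb b' r h1
    omega

/-! ### reflected words -/

theorem ex_D_fl (w : Word) : D (fl w) 0 = - D w 0 := by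
  unfold fl
  rw [D_refl, if_pos rfl]

theorem ex_fl_injective : Function.Injective fl := by
  intro u v h
  have h1 := congrArg (fun w : Word => w.map (refl 0).g) h
  simp only [fl, refl_refl] at h1
  exact h1

theorem ex_fl_pre {b u e : Word} (h : fl b = u ++ e) : ∃ u' e' : Word, b = u' ++ e' ∧ fl u' = u ∧
    fl e' = e := by
  obtain ⟨u', e', h1, h2, h3⟩ := List.map_eq_append_iff.1 h
  exact ⟨u', e', h1, h2, h3⟩

theorem ex_fl_ne {u : Word} (h : fl u ≠ []) : u ≠ [] := by
  intro h0
  apply h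
  rw [h0]
  rfl

/-- nonempty initial pieces of `fl b` go down -/
theorem ex_fl_neg {b : Word} (hb : Br b) : ∀ u e : Word, fl b = u ++ e → u ≠ [] → D u 0 < 0 := by
  intro u e h hu
  obtain ⟨u', e', h1, h2, h3⟩ := ex_fl_pre h
  have h4 : u' ≠ [] := ex_fl_ne (by rw [h2]; exact hu)
  have h5 := hb.hi u' e' h1 h4
  rw [← h2, ex_D_fl]
  omega

/-- initial pieces of `fl b` are above its end -/
theorem ex_fl_ge {b : Word} (hb : Br b) : ∀ u e : Word, fl b = u ++ e → - D b 0 ≤ D u 0 := by
  intro u e h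
  obtain ⟨u', e', h1, h2, h3⟩ := ex_fl_pre h
  have h5 := hb.lo u' e' h1
  have h6 : D b 0 = D u' 0 + D e' 0 := by rw [h1, D_append, Pi.add_apply]
  rw [← h2, ex_D_fl]
  omega

theorem ex_fl_end {b : Word} (hb : Br b) : ∀ d u : Word, fl b = d ++ u → D u 0 ≤ 0 := by
  intro d u h
  obtain ⟨u', e', h1, h2, h3⟩ := ex_fl_pre h
  have h5 := hb.lo u' e' h1
  rw [← h3, ex_D_fl]
  omega

/-! ### bridges -/

theorem ex_br_mid {u r v : Word} (h1 : Lo (u ++ r)) (h2 : saw (r ++ v)) (h3 : Hi (r ++ v)) :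
    Br r := ⟨h2.left, h1.right, h3.left⟩

theorem ex_pre_le {w u e : Word} (hw : Lo w) (h : w = u ++ e) : D u 0 ≤ D w 0 := by
  have h1 := hw u e h
  rw [h, D_append, Pi.add_apply]
  omega

theorem ex_pre_nonneg {w u e : Word} (hw : Hi w) (h : w = u ++ e) : 0 ≤ D u 0 := by
  by_cases h0 : u = []
  · subst h0; simp
  · exact (hw u e h h0).le

/-- the last irreducible piece -/
theorem ex_exists_last : ∀ (n : ℕ) (W : Word), W.length = n → Br W → W ≠ [] →
    ∃ u v : Word, W = u ++ v ∧ Br u ∧ Ir v := by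
  intro n
  induction n using Nat.strong_induction_on with
  | _ n ih =>
    intro W hn hW hne
    by_cases hI : Ir W
    · exact ⟨[], W, rfl, Br_nil, hI⟩
    · have h1 : ∃ a b : Word, W = a ++ b ∧ Br a ∧ Br b ∧ a ≠ [] ∧ b ≠ [] := by
        by_contra hcon
        apply hI
        refine ⟨hW, hne, ?_⟩
        intro a b hab ha hb
        by_contra h0
        push Not at h0
        exact hcon ⟨a, b, hab, ha, hb, h0.1, h0.2⟩
      obtain ⟨a, b, hab, ha, hb, ha0, hb0⟩ := h1
      have hlen : b.length < n := by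
        rw [← hn, hab, List.length_append]
        have := List.length_pos_of_ne_nil ha0
        omega
      obtain ⟨u, v, h2, h3, h4⟩ := ih b.length hlen b rfl hb hb0
      exact ⟨a ++ u, v, by rw [hab, h2, List.append_assoc], ha.append h3, h4⟩

/-! ### prefixes of sequences of pieces -/

theorem ex_pre_zero (E : ℕ → Word) : pre E 0 = [] := rfl

theorem ex_pre_succ (E : ℕ → Word) (j : ℕ) : pre E (j + 1) = pre E j ++ E j := by
  unfold pre
  rw [List.range_succ, List.map_append, List.flatten_append]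
  simp

theorem ex_pre_add (E : ℕ → Word) (j k : ℕ) : pre E (j + k) = pre E j ++ pre (shf j E) k := by
  induction k with
  | zero => simp [ex_pre_zero]
  | succ k ih =>
    rw [← Nat.add_assoc, ex_pre_succ, ih, ex_pre_succ, List.append_assoc]
    rfl

theorem ex_pre_congr {E E' : ℕ → Word} {j : ℕ} (h : ∀ i < j, E i = E' i) : pre E j = pre E' j := by
  induction j with
  | zero => rfl
  | succ j ih =>
    rw [ex_pre_succ, ex_pre_succ, ih (fun i hi => h i (by omega)), h j (by omega)]

theorem ex_pre_br {E : ℕ → Word} {j : ℕ} (h : ∀ i < j, Br (E i)) : Br (pre E j) := by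
  induction j with
  | zero => exact Br_nil
  | succ j ih =>
    rw [ex_pre_succ]
    exact (ih (fun i hi => h i (by omega))).append (h j (by omega))

theorem ex_pre_length_le {E : ℕ → Word} {M j : ℕ} (h : ∀ i < j, (E i).length ≤ M) :
    (pre E j).length ≤ j * M := by
  induction j with
  | zero => simp [ex_pre_zero]
  | succ j ih =>
    rw [ex_pre_succ, List.length_append]
    have h1 := ih (fun i hi => h i (by omega))
    have h2 := h j (by omega)
    rw [Nat.succ_mul]
    omega

theorem ex_pow_pre (x : ℝ) (E : ℕ → Word) (j : ℕ) :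
    x ^ (pre E j).length = ∏ i ∈ range j, x ^ (E i).length := by
  induction j with
  | zero => simp [ex_pre_zero]
  | succ j ih =>
    rw [ex_pre_succ, List.length_append, pow_add, ih, prod_range_succ]

/-- each piece has height at least one -/
theorem ex_pre_height {E : ℕ → Word} {j : ℕ} (h : ∀ i < j, Ir (E i)) : (j : ℤ) ≤ D (pre E j) 0 := by
  induction j with
  | zero => simp [ex_pre_zero]
  | succ j ih =>
    rw [ex_pre_succ, D_append, Pi.add_apply]
    have h1 := ih (fun i hi => h i (by omega))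
    have h2 := (h j (by omega)).1.pos (h j (by omega)).2.1
    push_cast
    omega

theorem ex_split_eq {u v u' v' : Word} (hu : Br u) (hv : Ir v) (hu' : Br u') (hv' : Ir v')
    (h : u ++ v = u' ++ v') : u = u' ∧ v = v' := by
  rcases List.append_eq_append_iff.1 h with ⟨r, h1, h2⟩ | ⟨r, h1, h2⟩
  · -- u' = u ++ r, v = r ++ v'
    have hr : Br r := ex_br_mid (u := u) (v := v') (by rw [← h1]; exact hu'.lo)
      (by rw [← h2]; exact hv.1.saw) (by rw [← h2]; exact hv.1.hi)
    rcases hv.2.2 r v' h2 hr hv'.1 with h3 | h3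
    · subst h3
      exact ⟨by rw [h1, List.append_nil], by rw [h2]; rfl⟩
    · exact absurd h3 hv'.2.1
  · have hr : Br r := ex_br_mid (u := u') (v := v) (by rw [← h1]; exact hu.lo)
      (by rw [← h2]; exact hv'.1.saw) (by rw [← h2]; exact hv'.1.hi)
    rcases hv'.2.2 r v h2 hr hv.1 with h3 | h3
    · subst h3
      exact ⟨by rw [h1, List.append_nil], by rw [h2]; rfl⟩
    · exact absurd h3 hv.2.1

/-- the pieces of a word are unique -/
theorem ex_pre_unique {E E' : ℕ → Word} : ∀ {j j' : ℕ}, (∀ i < j, Ir (E i)) →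
    (∀ i < j', Ir (E' i)) → pre E j = pre E' j' → j = j' ∧ ∀ i < j, E i = E' i := by
  intro j
  induction j with
  | zero =>
    intro j' _ hE' h
    cases j' with
    | zero => exact ⟨rfl, fun i hi => by omega⟩
    | succ j' =>
      exfalso
      rw [ex_pre_zero, ex_pre_succ] at h
      exact (hE' j' (by omega)).2.1 (List.append_eq_nil_iff.1 h.symm).2
  | succ j ih =>
    intro j' hE hE' h
    cases j' with
    | zero =>
      exfalso
      rw [ex_pre_zero, ex_pre_succ] at h
      exact (hE j (by omega)).2.1 (List.append_eq_nil_iff.1 h).2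
    | succ j' =>
      rw [ex_pre_succ, ex_pre_succ] at h
      obtain ⟨h1, h2⟩ := ex_split_eq (ex_pre_br fun i hi => (hE i (by omega)).1)
        (hE j (by omega)) (ex_pre_br fun i hi => (hE' i (by omega)).1) (hE' j' (by omega)) h
      obtain ⟨h3, h4⟩ := ih (fun i hi => hE i (by omega)) (fun i hi => hE' i (by omega)) h1
      subst h3
      refine ⟨rfl, fun i hi => ?_⟩
      by_cases h5 : i < j
      · exact h4 i h5
      · have : i = j := by omega
        subst this
        exact h2

/-! ### geometry of an extended triple -/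

theorem ex_geom {a b c e0 v0 : Word} {s g : ℤ} (ha : Br a) (hb : Br b) (hc : Br c)
    (has : D a 0 = s) (hbs : D b 0 < s) (hcb : D c 0 < D b 0) (hn : s - g ≤ D c 0)
    (he : Br e0) (hv : Ir v0)
    (hlt : D (a ++ (fl b ++ c)) 0 + D e0 0 < s)
    (hge : s ≤ D (a ++ (fl b ++ c)) 0 + D e0 0 + D v0 0)
    (hs : saw ((a ++ (fl b ++ c)) ++ (e0 ++ v0))) :
    ∃ u v : Word, (a ++ (fl b ++ c)) ++ (e0 ++ v0) = u ++ v ∧ Br u ∧ Ir v ∧ D u 0 < g := by
  set p : Word := a ++ (fl b ++ c) with hp
  set e : Word := e0 ++ v0 with hedef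
  have hDp : D p 0 = s - D b 0 + D c 0 := by
    rw [hp, D_append, D_append, Pi.add_apply, Pi.add_apply, ex_D_fl, has]
    ring
  have heB : Br e := he.append hv.1
  have hc0 : 0 ≤ D c 0 := ex_pre_nonneg hc.hi (w := c) (u := c) (e := []) (by simp)
  have hDe : D e 0 = D e0 0 + D v0 0 := by rw [hedef, D_append, Pi.add_apply]
  -- heights of the initial pieces of `p`
  have hple : ∀ u r : Word, p = u ++ r → D u 0 ≤ s := by
    intro u r hur
    rcases List.append_eq_append_iff.1 hur with ⟨y, h1, h2⟩ | ⟨y, h1, h2⟩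
    · rw [h1, D_append, Pi.add_apply, has]
      rcases List.append_eq_append_iff.1 h2 with ⟨z, h3, h4⟩ | ⟨z, h3, h4⟩
      · have h5 := ex_pre_le hc.lo h4
        rw [h3, D_append, Pi.add_apply, ex_D_fl]
        omega
      · by_cases h0 : y = []
        · subst h0; simp
        · have := ex_fl_neg hb y z h3 h0
          omega
    · have h5 := ex_pre_le ha.lo h1
      omega
  have hppos : ∀ u r : Word, p = u ++ r → u ≠ [] → 0 < D u 0 := by
    intro u r hur hu
    rcases List.append_eq_append_iff.1 hur with ⟨y, h1, h2⟩ | ⟨y, h1, h2⟩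
    · rw [h1, D_append, Pi.add_apply, has]
      rcases List.append_eq_append_iff.1 h2 with ⟨z, h3, h4⟩ | ⟨z, h3, h4⟩
      · have h5 := ex_pre_nonneg hc.hi h4
        rw [h3, D_append, Pi.add_apply, ex_D_fl]
        omega
      · have := ex_fl_ge hb y z h3
        omega
    · exact ha.hi u y h1 hu
  have hW : Br (p ++ e) := by
    refine ⟨hs, ?_, ?_⟩
    · -- Lo
      intro u r hur
      have hDW : D (p ++ e) 0 = D u 0 + D r 0 := by rw [hur, D_append, Pi.add_apply]
      rw [D_append, Pi.add_apply] at hDW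
      rcases List.append_eq_append_iff.1 hur with ⟨y, h1, h2⟩ | ⟨y, h1, h2⟩
      · -- u = p ++ y, e = y ++ r
        exact heB.lo y r h2
      · have h3 := hple u y h1
        omega
    · intro u r hur hu
      rcases List.append_eq_append_iff.1 hur with ⟨y, h1, h2⟩ | ⟨y, h1, h2⟩
      · rw [h1, D_append, Pi.add_apply]
        have h3 := ex_pre_nonneg heB.hi h2
        omega
      · exact hppos u y h1 hu
  have hne : p ++ e ≠ [] := by
    intro h0
    have h1 := (List.append_eq_nil_iff.1 h0).2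
    rw [hedef] at h1
    exact hv.2.1 (List.append_eq_nil_iff.1 h1).2
  obtain ⟨u, v, huv, hu, hvI⟩ := ex_exists_last _ (p ++ e) rfl hW hne
  refine ⟨u, v, huv, hu, hvI, ?_⟩
  by_contra hcon
  push Not at hcon
  -- the bottom corner
  have hq : D (a ++ fl b) 0 < g := by
    rw [D_append, Pi.add_apply, ex_D_fl, has]
    omega
  have hWq : (a ++ fl b) ++ (c ++ e) = u ++ v := by
    rw [← huv, hp]
    simp only [List.append_assoc]
  have hbne : b ≠ [] := by
    intro h0
    subst h0
    have := ex_pre_nonneg hc.hi (w := c) (u := c) (e := []) (by simp)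
    rw [show D ([] : Word) 0 = 0 from rfl] at hcb
    omega
  -- `u` is longer than `a`
  have h1 : ∃ r : Word, u = a ++ r := by
    rcases List.append_eq_append_iff.1 hWq with ⟨y, h2, h3⟩ | ⟨y, h2, h3⟩
    · exact ⟨fl b ++ y, by rw [h2, List.append_assoc]⟩
    · -- a ++ fl b = u ++ y, v = y ++ (c ++ e)
      exfalso
      have h4 : D (a ++ fl b) 0 = D u 0 + D y 0 := by rw [h2, D_append, Pi.add_apply]
      have h5 := ex_pre_nonneg hvI.1.hi h3
      omega
  obtain ⟨r1, hr1⟩ := h1
  have hus : s ≤ D u 0 := by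
    have := ex_pre_le hu.lo hr1
    omega
  -- `p` is a proper initial piece of `u`
  have h2 : ∃ r : Word, r ≠ [] ∧ u = p ++ r ∧ e = r ++ v := by
    rcases List.append_eq_append_iff.1 huv with ⟨y, h3, h4⟩ | ⟨y, h3, h4⟩
    · refine ⟨y, ?_, h3, h4⟩
      intro h0
      rw [h0, List.append_nil] at h3
      rw [h3] at hus
      omega
    · exfalso
      have h5 : D p 0 = D u 0 + D y 0 := by rw [h3, D_append, Pi.add_apply]
      have h6 := ex_pre_nonneg hvI.1.hi h4
      omega
  obtain ⟨r, hr0, hur, her⟩ := h2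
  have hDr : D u 0 = D p 0 + D r 0 := by rw [hur, D_append, Pi.add_apply]
  -- compare `r` with `e0`
  have h3 : e0 ++ v0 = r ++ v := by rw [← hedef]; exact her
  rcases List.append_eq_append_iff.1 h3 with ⟨y, h4, h5⟩ | ⟨y, h4, h5⟩
  · -- r = e0 ++ y, v0 = y ++ v
    have hy0 : y ≠ [] := by
      intro h0
      rw [h0, List.append_nil] at h4
      rw [h4] at hDr
      omega
    have hyB : Br y := by
      refine ex_br_mid (u := p ++ e0) (v := v) ?_ ?_ ?_
      · have : u = (p ++ e0) ++ y := by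
          rw [hur, h4]
          simp only [List.append_assoc]
        rw [← this]
        exact hu.lo
      · rw [← h5]; exact hv.1.saw
      · rw [← h5]; exact hv.1.hi
    rcases hv.2.2 y v h5 hyB hvI.1 with h6 | h6
    · exact hy0 h6
    · exact hvI.2.1 h6
  · -- e0 = r ++ y
    have h6 := ex_pre_le he.lo h4
    omega

theorem ex_p_le {a b c : Word} {s : ℤ} (ha : Br a) (hb : Br b) (hc : Br c)
    (has : D a 0 = s) (hcb : D c 0 < D b 0) {u r : Word} (hur : a ++ (fl b ++ c) = u ++ r) :
    D u 0 ≤ s := by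
  rcases List.append_eq_append_iff.1 hur with ⟨y, h1, h2⟩ | ⟨y, h1, h2⟩
  · rw [h1, D_append, Pi.add_apply, has]
    rcases List.append_eq_append_iff.1 h2 with ⟨z, h3, h4⟩ | ⟨z, h3, h4⟩
    · have h5 := ex_pre_le hc.lo h4
      rw [h3, D_append, Pi.add_apply, ex_D_fl]
      omega
    · by_cases h0 : y = []
      · subst h0; simp
      · have := ex_fl_neg hb y z h3 h0
        omega
  · have h5 := ex_pre_le ha.lo h1
    omega

theorem ex_D_p (a b c : Word) : D (a ++ (fl b ++ c)) 0 = D a 0 - D b 0 + D c 0 := by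
  rw [D_append, D_append, Pi.add_apply, Pi.add_apply, ex_D_fl]
  ring

/-- the height of the top corner is determined by the extended word -/
theorem ex_top_le {a b c e a' b' c' e' : Word} {s s' g : ℤ} (ha : Br a) (hb : Br b) (hc : Br c)
    (he : Hi e) (has : D a 0 = s) (hcb : D c 0 < D b 0)
    (has' : D a' 0 = s') (hcb' : D c' 0 < D b' 0) (hn' : s' - g ≤ D c' 0)
    (hR : g ≤ D (a ++ (fl b ++ c)) 0)
    (h : (a ++ (fl b ++ c)) ++ e = (a' ++ (fl b' ++ c')) ++ e') : s' ≤ s := by
  by_contra hcon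
  push Not at hcon
  have h1 : (a ++ (fl b ++ c)) ++ e = a' ++ (fl b' ++ (c' ++ e')) := by
    rw [h]
    simp only [List.append_assoc]
  rcases List.append_eq_append_iff.1 h1 with ⟨y, h2, h3⟩ | ⟨y, h2, h3⟩
  · -- a' = p ++ y, e = y ++ (fl b' ++ (c' ++ e'))
    have h4 : e = (y ++ fl b') ++ (c' ++ e') := by
      rw [h3]
      simp only [List.append_assoc]
    have h5 := ex_pre_nonneg he h4
    rw [D_append, Pi.add_apply, ex_D_fl] at h5
    have h6 : D a' 0 = D (a ++ (fl b ++ c)) 0 + D y 0 := by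
      rw [h2, D_append, Pi.add_apply]
    omega
  · have h4 := ex_p_le ha hb hc has hcb h2
    omega

/-! ### sets of sequences -/

theorem ex_mem_irs {L : ℕ} {w : Word} : w ∈ irs L ↔ w.length ≤ L ∧ Ir w := by
  unfold irs
  rw [mem_filter, mem_wle]

theorem ex_mem_Sd {L K : ℕ} {E : ℕ → Word} : E ∈ Sd L K ↔
    (∀ i < K, E i ∈ irs L) ∧ ∀ i, K ≤ i → E i = [] := by
  unfold Sd
  rw [mem_image]
  constructor
  · rintro ⟨v, hv, rfl⟩
    rw [Fintype.mem_piFinset] at hv
    refine ⟨fun i hi => ?_, fun i hi => ?_⟩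
    · simp only [dif_pos hi]
      exact hv _
    · simp only [dif_neg (by omega : ¬ i < K)]
  · rintro ⟨h1, h2⟩
    refine ⟨fun i => E i, ?_, ?_⟩
    · rw [Fintype.mem_piFinset]
      exact fun i => h1 i i.2
    · funext i
      by_cases hi : i < K
      · simp only [dif_pos hi]
      · simp only [dif_neg hi]
        exact (h2 i (by omega)).symm

theorem ex_sum_Sd (x : ℝ) (L K : ℕ) : ∑ E ∈ Sd L K, wt x K E = Ph x L ^ K := by
  unfold Sd
  rw [sum_image]
  · have h1 : ∀ v : Fin K → Word, wt x K (fun i => if h : i < K then v ⟨i, h⟩ else []) =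
        ∏ i : Fin K, x ^ (v i).length := by
      intro v
      unfold wt
      rw [Finset.prod_range]
      refine prod_congr rfl fun i _ => ?_
      simp only [dif_pos i.2]
    rw [sum_congr rfl (fun v _ => h1 v)]
    have h2 := Finset.prod_univ_sum (fun _ : Fin K => irs L) (fun _ (w : Word) => x ^ w.length)
    rw [← h2, prod_const, Finset.card_univ, Fintype.card_fin]
    rfl
  · intro v _ v' _ h
    funext i
    have h1 := congrFun h (i : ℕ)
    simp only [dif_pos i.2] at h1
    exact h1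

theorem ex_wt_pre (x : ℝ) (K : ℕ) (E : ℕ → Word) : wt x K E = x ^ (pre E K).length :=
  (ex_pow_pre x E K).symm

theorem ex_wt_nonneg {x : ℝ} (hx : 0 ≤ x) (K : ℕ) (E : ℕ → Word) : 0 ≤ wt x K E :=
  prod_nonneg fun _ _ => pow_nonneg hx _

theorem ex_Ph_nonneg {x : ℝ} (hx : 0 ≤ x) (L : ℕ) : 0 ≤ Ph x L :=
  sum_nonneg fun _ _ => pow_nonneg hx _

/-- the sequences which pass the height `s` with the piece `j` -/
def ExC (p : Word) (s : ℤ) (j : ℕ) (E : ℕ → Word) : Prop :=
  saw (p ++ pre E (j + 1)) ∧ D p 0 + D (pre E j) 0 < s ∧ s ≤ D p 0 + D (pre E (j + 1)) 0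

theorem ex_em_le {x : ℝ} (hx : 0 ≤ x) (hPh : ∀ L, Ph x L ≤ 1) (M k : ℕ) (p : Word) (s : ℤ)
    (hp : D p 0 < s) (hk : s ≤ D p 0 + k) :
    em x M k (fun e => saw (p ++ e)) ≤
      ∑ j ∈ range k, ∑ E ∈ (Sd M (j + 1)).filter (ExC p s j), wt x (j + 1) E := by
  have key : em x M k (fun e => saw (p ++ e)) ≤
      ∑ y ∈ (range k).sigma (fun j => ((Sd M (j + 1)).filter (ExC p s j)) ×ˢ Sd M (k - (j + 1))),
        wt x (y.1 + 1) y.2.1 * wt x (k - (y.1 + 1)) y.2.2 := by
    unfold em
    have hex : ∀ E : ℕ → Word, E ∈ Sd M k → ∃ j, s ≤ D p 0 + D (pre E j) 0 := by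
      intro E hE
      rw [ex_mem_Sd] at hE
      refine ⟨k, ?_⟩
      have := ex_pre_height (E := E) (j := k) (fun i hi => (ex_mem_irs.1 (hE.1 i hi)).2)
      omega
    have hex' : ∀ E : ℕ → Word, ∃ j, E ∈ Sd M k → (j + 1 ≤ k ∧
        D p 0 + D (pre E j) 0 < s ∧ s ≤ D p 0 + D (pre E (j + 1)) 0) := by
      intro E
      by_cases hE : E ∈ Sd M k
      · have h1 := hex E hE
        have h2 := Nat.find_spec h1
        have h3 : Nat.find h1 ≠ 0 := by
          intro h0
          rw [h0, ex_pre_zero] at h2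
          simp at h2
          omega
        obtain ⟨j, hj⟩ := Nat.exists_eq_succ_of_ne_zero h3
        refine ⟨j, fun _ => ⟨?_, ?_, ?_⟩⟩
        · have h4 : Nat.find h1 ≤ k := by
            apply Nat.find_min' h1
            rw [ex_mem_Sd] at hE
            have := ex_pre_height (E := E) (j := k) (fun i hi => (ex_mem_irs.1 (hE.1 i hi)).2)
            omega
          omega
        · have h4 := Nat.find_min h1 (m := j) (by omega)
          omega
        · rw [hj] at h2
          exact h2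
      · exact ⟨0, fun h => absurd h hE⟩
    choose J hJ using hex'
    refine sum_le_of_inj (fun E => (⟨J E, (ini (J E + 1) E, shf (J E + 1) E)⟩ :
      (_ : ℕ) × ((ℕ → Word) × (ℕ → Word)))) ?_ ?_ ?_ ?_
    · intro E hE
      rw [mem_filter] at hE
      obtain ⟨h1, h2⟩ := hE
      obtain ⟨h3, h4, h5⟩ := hJ E h1
      rw [ex_mem_Sd] at h1
      rw [mem_sigma, mem_product, mem_filter, mem_range]
      have hpi : ∀ j ≤ J E + 1, pre (ini (J E + 1) E) j = pre E j := by
        intro j hj
        refine ex_pre_congr fun i hi => ?_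
        unfold ini
        rw [if_pos (by omega)]
      refine ⟨by simpa using h3, ⟨?_, ?_⟩, ?_⟩
      · rw [ex_mem_Sd]
        refine ⟨fun i hi => ?_, fun i hi => ?_⟩
        · simp only [ini]
          rw [if_pos hi]
          exact h1.1 i (by simp only at hi; omega)
        · simp only [ini]
          rw [if_neg (by simp only at hi; omega)]
      · refine ⟨?_, ?_, ?_⟩
        · simp only
          rw [hpi _ le_rfl]
          have h6 : pre E k = pre E (J E + 1) ++ pre (shf (J E + 1) E) (k - (J E + 1)) := by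
            rw [← ex_pre_add]
            congr 1
            omega
          rw [h6, ← List.append_assoc] at h2
          exact h2.left
        · simp only
          rw [hpi _ (by omega)]
          exact h4
        · simp only
          rw [hpi _ le_rfl]
          exact h5
      · rw [ex_mem_Sd]
        refine ⟨fun i hi => ?_, fun i hi => ?_⟩
        · exact h1.1 _ (by simp only at hi; omega)
        · exact h1.2 _ (by simp only at hi; omega)
    · intro E hE E' hE' h
      simp only [Sigma.mk.injEq] at h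
      obtain ⟨h1, h2⟩ := h
      have h2 := eq_of_heq h2
      simp only [Prod.mk.injEq] at h2
      obtain ⟨h3, h4⟩ := h2
      funext i
      by_cases hi : i < J E + 1
      · have h5 := congrFun h3 i
        unfold ini at h5
        rw [if_pos hi, if_pos (by omega)] at h5
        exact h5
      · have h5 := congrFun h4 (i - (J E + 1))
        unfold shf at h5
        rw [show J E + 1 + (i - (J E + 1)) = i by omega,
          show J E' + 1 + (i - (J E + 1)) = i by omega] at h5
        exact h5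
    · intro E hE
      rw [mem_filter] at hE
      obtain ⟨h3, h4, h5⟩ := hJ E hE.1
      simp only
      rw [ex_wt_pre, ex_wt_pre, ex_wt_pre, ← pow_add, ← List.length_append]
      have h6 : pre (ini (J E + 1) E) (J E + 1) = pre E (J E + 1) := by
        refine ex_pre_congr fun i hi => ?_
        unfold ini
        rw [if_pos hi]
      rw [h6, ← ex_pre_add, show J E + 1 + (k - (J E + 1)) = k by omega]
    · intro y _
      exact mul_nonneg (ex_wt_nonneg hx _ _) (ex_wt_nonneg hx _ _)
  refine key.trans ?_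
  rw [sum_sigma]
  refine sum_le_sum fun j _ => ?_
  rw [sum_product]
  refine sum_le_sum fun E _ => ?_
  simp only
  rw [← mul_sum, ex_sum_Sd]
  have h1 : Ph x M ^ (k - (j + 1)) ≤ 1 := pow_le_one₀ (ex_Ph_nonneg hx M) (hPh M)
  have h2 := ex_wt_nonneg hx (j + 1) E
  calc wt x (j + 1) E * Ph x M ^ (k - (j + 1)) ≤ wt x (j + 1) E * 1 :=
        mul_le_mul_of_nonneg_left h1 h2
    _ = wt x (j + 1) E := mul_one _

/-! ### the sum over the extended words -/

/-- low bridge followed by one piece -/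
noncomputable def ExW (L g : ℕ) : Finset Word :=
  (wle L).filter fun W => ∃ u v : Word, W = u ++ v ∧ Br u ∧ Ir v ∧ D u 0 < (g : ℤ)

theorem ex_sum_low {x : ℝ} (hx : 0 ≤ x) (hB : ∀ L s, Bs x L s ≤ 1) (L g : ℕ) :
    ∑ u ∈ (wle L).filter (fun u => Br u ∧ D u 0 < (g : ℤ)), x ^ u.length ≤ g := by
  have h1 : ∑ u ∈ (wle L).filter (fun u => Br u ∧ D u 0 < (g : ℤ)), x ^ u.length ≤
      ∑ y ∈ (range g).sigma (fun h => (wle L).filter (fun w => Br w ∧ D w 0 = (h : ℤ))),
        x ^ y.2.length := by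
    refine sum_le_of_inj (fun u => (⟨(D u 0).toNat, u⟩ : (_ : ℕ) × Word)) ?_ ?_ ?_ ?_
    · intro u hu
      rw [mem_filter] at hu
      have h0 : 0 ≤ D u 0 := ex_pre_nonneg hu.2.1.hi (w := u) (u := u) (e := []) (by simp)
      rw [mem_sigma, mem_range, mem_filter]
      simp only
      refine ⟨by omega, hu.1, hu.2.1, by omega⟩
    · intro u _ u' _ h
      simp only [Sigma.mk.injEq] at h
      exact eq_of_heq h.2
    · intro u _
      exact le_rfl
    · intro y _
      exact pow_nonneg hx _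
  refine h1.trans ?_
  rw [sum_sigma]
  calc ∑ h ∈ range g, ∑ w ∈ (wle L).filter (fun w => Br w ∧ D w 0 = (h : ℤ)), x ^ w.length
      = ∑ h ∈ range g, Bs x L h := rfl
    _ ≤ ∑ h ∈ range g, (1 : ℝ) := sum_le_sum fun h _ => hB L h
    _ = g := by simp

theorem ex_sum_W {x : ℝ} (hx : 0 ≤ x) (hB : ∀ L s, Bs x L s ≤ 1) (hPh : ∀ L, Ph x L ≤ 1)
    (L g : ℕ) : ∑ W ∈ ExW L g, x ^ W.length ≤ g := by
  have hex : ∀ W : Word, ∃ u v : Word, W ∈ ExW L g → (W = u ++ v ∧ Br u ∧ Ir v ∧
      D u 0 < (g : ℤ)) := by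
    intro W
    by_cases h : W ∈ ExW L g
    · have h1 := (mem_filter.1 h).2
      obtain ⟨u, v, h2⟩ := h1
      exact ⟨u, v, fun _ => h2⟩
    · exact ⟨[], [], fun h' => absurd h' h⟩
  choose A B hAB using hex
  have h1 : ∑ W ∈ ExW L g, x ^ W.length ≤
      ∑ y ∈ ((wle L).filter (fun u => Br u ∧ D u 0 < (g : ℤ))) ×ˢ irs L,
        x ^ y.1.length * x ^ y.2.length := by
    refine sum_le_of_inj (fun W => (A W, B W)) ?_ ?_ ?_ ?_
    · intro W hW
      obtain ⟨h2, h3, h4, h5⟩ := hAB W hW
      have h6 := mem_wle.1 (mem_filter.1 hW).1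
      have h7 := congrArg List.length h2
      rw [List.length_append] at h7
      rw [mem_product, mem_filter, mem_wle, ex_mem_irs]
      simp only
      refine ⟨⟨by omega, h3, h5⟩, by omega, h4⟩
    · intro W hW W' hW' h
      simp only [Prod.mk.injEq] at h
      obtain ⟨h2, _⟩ := hAB W hW
      obtain ⟨h3, _⟩ := hAB W' hW'
      rw [h2, h3, h.1, h.2]
    · intro W hW
      obtain ⟨h2, _⟩ := hAB W hW
      have h7 := congrArg List.length h2
      rw [List.length_append] at h7
      rw [h7, pow_add]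
    · intro y _
      exact mul_nonneg (pow_nonneg hx _) (pow_nonneg hx _)
  refine h1.trans ?_
  rw [sum_product]
  have h2 : ∀ u ∈ (wle L).filter (fun u => Br u ∧ D u 0 < (g : ℤ)),
      ∑ v ∈ irs L, x ^ u.length * x ^ v.length ≤ x ^ u.length := by
    intro u _
    rw [← mul_sum]
    have h3 : ∑ v ∈ irs L, x ^ v.length ≤ 1 := hPh L
    calc x ^ u.length * ∑ v ∈ irs L, x ^ v.length ≤ x ^ u.length * 1 :=
          mul_le_mul_of_nonneg_left h3 (pow_nonneg hx _)
      _ = x ^ u.length := mul_one _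
  exact (sum_le_sum h2).trans (ex_sum_low hx hB L g)

/-- the data of a narrow triple -/
theorem ex_mem_TN {L s g : ℕ} {t : Word × Word × Word} (h : t ∈ TN L s g) :
    t.1.length ≤ L ∧ t.2.1.length ≤ L ∧ t.2.2.length ≤ L ∧ Br t.1 ∧ Br t.2.1 ∧ Br t.2.2 ∧
      D t.1 0 = (s : ℤ) ∧ D t.2.1 0 < (s : ℤ) ∧ D t.2.2 0 < D t.2.1 0 ∧ (s : ℤ) - g ≤ D t.2.2 0 := by
  unfold TN TA at h
  rw [mem_filter, mem_filter, mem_product, mem_product, mem_wle, mem_wle, mem_wle] at h
  obtain ⟨⟨⟨h1, h2, h3⟩, h4, h5, h6, h7, h8, h9, -, -⟩, h10⟩ := h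
  exact ⟨h1, h2, h3, h4, h5, h6, h7, h8, h9, h10⟩

theorem ex_ext_sum {x : ℝ} (hx : 0 ≤ x) (hB : ∀ L s, Bs x L s ≤ 1) (hPh : ∀ L, Ph x L ≤ 1)
    {L M S g k : ℕ} (hS : 2 * g ≤ S) (hk : g ≤ k) :
    ∑ i ∈ range S, ∑ t ∈ TN L (S + i + 1) g, w3 x t *
      em x M k (fun e => saw ((t.1 ++ (fl t.2.1 ++ t.2.2)) ++ e)) ≤ (g : ℝ) ^ 2 := by
  -- first passage
  have h1 : ∀ i ∈ range S, ∀ t ∈ TN L (S + i + 1) g, w3 x t *
      em x M k (fun e => saw ((t.1 ++ (fl t.2.1 ++ t.2.2)) ++ e)) ≤
      ∑ j ∈ range k, ∑ E ∈ (Sd M (j + 1)).filter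
        (ExC (t.1 ++ (fl t.2.1 ++ t.2.2)) ((S + i + 1 : ℕ) : ℤ) j),
          w3 x t * wt x (j + 1) E := by
    intro i _ t ht
    obtain ⟨-, -, -, ha, hb, hc, h7, h8, h9, h10⟩ := ex_mem_TN ht
    have h2 := ex_em_le hx hPh M k (t.1 ++ (fl t.2.1 ++ t.2.2)) ((S + i + 1 : ℕ) : ℤ)
      (by rw [ex_D_p]; omega) (by rw [ex_D_p]; omega)
    have h3 : 0 ≤ w3 x t := pow_nonneg hx _
    refine (mul_le_mul_of_nonneg_left h2 h3).trans (le_of_eq ?_)
    rw [mul_sum]
    refine sum_congr rfl fun j _ => ?_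
    rw [mul_sum]
  refine (sum_le_sum fun i hi => sum_le_sum fun t ht => h1 i hi t ht).trans ?_
  -- one sum
  have h2 : ∑ i ∈ range S, ∑ t ∈ TN L (S + i + 1) g, ∑ j ∈ range k,
      ∑ E ∈ (Sd M (j + 1)).filter (ExC (t.1 ++ (fl t.2.1 ++ t.2.2)) ((S + i + 1 : ℕ) : ℤ) j),
          w3 x t * wt x (j + 1) E =
      ∑ y ∈ (range S).sigma (fun i => (TN L (S + i + 1) g).sigma (fun t => (range k).sigma
        (fun j => (Sd M (j + 1)).filter (ExC (t.1 ++ (fl t.2.1 ++ t.2.2))
          ((S + i + 1 : ℕ) : ℤ) j)))), w3 x y.2.1 * wt x (y.2.2.1 + 1) y.2.2.2 := by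
    rw [sum_sigma]
    refine sum_congr rfl fun i _ => ?_
    rw [sum_sigma]
    refine sum_congr rfl fun t _ => ?_
    rw [sum_sigma]
  rw [h2]
  set L' : ℕ := 3 * L + (k + 1) * M with hL'
  have h3 : ∑ y ∈ (range S).sigma (fun i => (TN L (S + i + 1) g).sigma (fun t => (range k).sigma
        (fun j => (Sd M (j + 1)).filter (ExC (t.1 ++ (fl t.2.1 ++ t.2.2))
          ((S + i + 1 : ℕ) : ℤ) j)))), w3 x y.2.1 * wt x (y.2.2.1 + 1) y.2.2.2 ≤
      ∑ z ∈ ExW L' g ×ˢ range g, x ^ z.1.length := by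
    refine sum_le_of_inj (fun y => ((y.2.1.1 ++ (fl y.2.1.2.1 ++ y.2.1.2.2)) ++
      pre y.2.2.2 (y.2.2.1 + 1), (D y.2.1.2.1 0 - D y.2.1.2.2 0).toNat)) ?_ ?_ ?_ ?_
    · rintro ⟨i, t, j, E⟩ hy
      simp only [mem_sigma, mem_range, mem_filter] at hy
      obtain ⟨hi, ht, hj, hE, hC⟩ := hy
      obtain ⟨l1, l2, l3, ha, hb, hc, h7, h8, h9, h10⟩ := ex_mem_TN ht
      obtain ⟨c1, c2, c3⟩ := hC
      rw [ex_mem_Sd] at hE
      have hI : ∀ i < j + 1, Ir (E i) := fun i hi => (ex_mem_irs.1 (hE.1 i hi)).2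
      have hM : ∀ i < j + 1, (E i).length ≤ M := fun i hi => (ex_mem_irs.1 (hE.1 i hi)).1
      simp only [mem_product, mem_range]
      constructor
      · unfold ExW
        rw [mem_filter, mem_wle]
        constructor
        · have h11 := ex_pre_length_le hM
          have h12 : (fl t.2.1).length = t.2.1.length := by unfold fl; simp
          have h13 : (j + 1) * M ≤ (k + 1) * M := Nat.mul_le_mul_right _ (by omega)
          simp only [List.length_append, h12]
          omega
        · have h14 : pre E (j + 1) = pre E j ++ E j := ex_pre_succ E j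
          have h15 : D (pre E j ++ E j) 0 = D (pre E j) 0 + D (E j) 0 := by
            rw [D_append, Pi.add_apply]
          rw [h14] at c1 c3 ⊢
          exact ex_geom ha hb hc h7 h8 h9 h10 (ex_pre_br fun i hi => (hI i (by omega)).1)
            (hI j (by omega)) c2 (by omega) c1
      · omega
    · rintro ⟨i, t, j, E⟩ hy ⟨i', t', j', E'⟩ hy' heq
      simp only [coe_sigma, Set.mem_sigma_iff, mem_coe, mem_range, mem_filter] at hy hy'
      obtain ⟨hi, ht, hj, hE, hC⟩ := hy
      obtain ⟨hi', ht', hj', hE', hC'⟩ := hy'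
      obtain ⟨-, -, -, ha, hb, hc, h7, h8, h9, h10⟩ := ex_mem_TN ht
      obtain ⟨-, -, -, ha', hb', hc', h7', h8', h9', h10'⟩ := ex_mem_TN ht'
      obtain ⟨c1, c2, c3⟩ := hC
      obtain ⟨c1', c2', c3'⟩ := hC'
      rw [ex_mem_Sd] at hE hE'
      have hI : ∀ i < j + 1, Ir (E i) := fun i hi => (ex_mem_irs.1 (hE.1 i hi)).2
      have hI' : ∀ i < j' + 1, Ir (E' i) := fun i hi => (ex_mem_irs.1 (hE'.1 i hi)).2
      have hBe : Br (pre E (j + 1)) := ex_pre_br fun i hi => (hI i hi).1
      have hBe' : Br (pre E' (j' + 1)) := ex_pre_br fun i hi => (hI' i hi).1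
      obtain ⟨a, b, c⟩ := t
      obtain ⟨a', b', c'⟩ := t'
      simp only [Prod.mk.injEq] at heq ha hb hc h7 h8 h9 h10 ha' hb' hc' h7' h8' h9' h10'
      obtain ⟨q1, q2⟩ := heq
      have hs1 : ((S + i' + 1 : ℕ) : ℤ) ≤ ((S + i + 1 : ℕ) : ℤ) :=
        ex_top_le ha hb hc hBe.hi h7 h9 h7' h9' h10' (by rw [ex_D_p]; omega) q1
      have hs2 : ((S + i + 1 : ℕ) : ℤ) ≤ ((S + i' + 1 : ℕ) : ℤ) :=
        ex_top_le ha' hb' hc' hBe'.hi h7' h9' h7 h9 h10 (by rw [ex_D_p]; omega) q1.symm
      have hii : i = i' := by omega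
      subst hii
      have hp : a ++ (fl b ++ c) = a' ++ (fl b' ++ c') := by
        refine ex_cut_unique q1 ?_ hBe.hi hBe'.hi
        rw [ex_D_p, ex_D_p]
        omega
      have haa : a = a' := by
        refine ex_max_unique hp ha.lo ha'.lo ?_ ?_
        · intro u e hue hu
          rcases List.append_eq_append_iff.1 hue with ⟨z, h3, h4⟩ | ⟨z, h3, h4⟩
          · have h5 := ex_pre_le hc.lo h4
            rw [h3, D_append, Pi.add_apply, ex_D_fl]
            omega
          · exact ex_fl_neg hb u z h3 hu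
        · intro u e hue hu
          rcases List.append_eq_append_iff.1 hue with ⟨z, h3, h4⟩ | ⟨z, h3, h4⟩
          · have h5 := ex_pre_le hc'.lo h4
            rw [h3, D_append, Pi.add_apply, ex_D_fl]
            omega
          · exact ex_fl_neg hb' u z h3 hu
      subst haa
      have hbc : fl b ++ c = fl b' ++ c' := List.append_cancel_left hp
      have hbb : fl b = fl b' :=
        ex_min_unique hbc (ex_fl_end hb) (ex_fl_end hb') hc.hi hc'.hi
      rw [hbb] at hbc
      have hcc : c = c' := List.append_cancel_left hbc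
      have hbb' : b = b' := ex_fl_injective hbb
      subst hcc
      subst hbb'
      have hee : pre E (j + 1) = pre E' (j' + 1) := List.append_cancel_left q1
      obtain ⟨r1, r2⟩ := ex_pre_unique hI hI' hee
      have hjj : j = j' := by omega
      subst hjj
      have hEE : E = E' := by
        funext i
        by_cases h : i < j + 1
        · exact r2 i h
        · rw [hE.2 i (by omega), hE'.2 i (by omega)]
      subst hEE
      rfl
    · rintro ⟨i, t, j, E⟩ hy
      simp only
      rw [ex_wt_pre]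
      unfold w3
      rw [← pow_add]
      have h12 : (fl t.2.1).length = t.2.1.length := by unfold fl; simp
      refine le_of_eq ?_
      congr 1
      simp only [List.length_append, h12]
    · intro z _
      exact pow_nonneg hx _
  refine h3.trans ?_
  rw [sum_product]
  simp only [sum_const, card_range, nsmul_eq_mul]
  rw [← mul_sum, pow_two]
  exact mul_le_mul_of_nonneg_left (ex_sum_W hx hB hPh L' g) (Nat.cast_nonneg g)

/-- **(ext)** the total mass, over all heights, of the narrow triples whose last leg can be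
prolonged without intersections with probability at least `1 / 4` -/
theorem ext_bound {x : ℝ} (hx : 0 ≤ x) (hB : ∀ L s, Bs x L s ≤ 1) (hPh : ∀ L, Ph x L ≤ 1)
    {L M S g k : ℕ} (hS : 2 * g ≤ S) (hk : g ≤ k) :
    ∑ i ∈ range S, ∑ t ∈ (TN L (S + i + 1) g).filter
      (fun t => 1 / 4 ≤ em x M k (fun e => saw (t.1 ++ (fl t.2.1 ++ (t.2.2 ++ e))))), w3 x t ≤
      4 * (g : ℝ) ^ 2 := by
  have h0 : ∀ t : Word × Word × Word, (fun e => saw (t.1 ++ (fl t.2.1 ++ (t.2.2 ++ e)))) =
      (fun e => saw ((t.1 ++ (fl t.2.1 ++ t.2.2)) ++ e)) := by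
    intro t
    funext e
    simp only [List.append_assoc]
  have h1 := ex_ext_sum (L := L) (M := M) hx hB hPh hS hk
  have h3 : ∀ t : Word × Word × Word, 0 ≤ w3 x t := fun t => pow_nonneg hx _
  have h4 : ∀ t : Word × Word × Word,
      0 ≤ em x M k (fun e => saw ((t.1 ++ (fl t.2.1 ++ t.2.2)) ++ e)) := by
    intro t
    unfold em
    exact sum_nonneg fun E _ => ex_wt_nonneg hx k E
  have h2 : ∀ i ∈ range S, ∑ t ∈ (TN L (S + i + 1) g).filter
      (fun t => 1 / 4 ≤ em x M k (fun e => saw (t.1 ++ (fl t.2.1 ++ (t.2.2 ++ e))))), w3 x t ≤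
      ∑ t ∈ TN L (S + i + 1) g, 4 * (w3 x t *
      em x M k (fun e => saw ((t.1 ++ (fl t.2.1 ++ t.2.2)) ++ e))) := by
    intro i _
    refine le_trans (sum_le_sum (g := fun t => 4 * (w3 x t *
      em x M k (fun e => saw ((t.1 ++ (fl t.2.1 ++ t.2.2)) ++ e)))) fun t ht => ?_)
      (sum_le_sum_of_subset_of_nonneg (filter_subset _ _) fun t _ _ =>
        mul_nonneg (by norm_num) (mul_nonneg (h3 t) (h4 t)))
    have h5 := (mem_filter.1 ht).2
    rw [h0 t] at h5
    have h6 := mul_le_mul_of_nonneg_left h5 (h3 t)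
    show w3 x t ≤ 4 * (w3 x t * em x M k (fun e => saw ((t.1 ++ (fl t.2.1 ++ t.2.2)) ++ e)))
    linarith
  refine (sum_le_sum h2).trans ?_
  simp only [← mul_sum]
  linarith

end Pool.Agent.SwR
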