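import Pool.Agent.SwP.Unfold
import Pool.Agent.SwP.HW

/-! Triples of legs of half-space walks (room R19, helper98). -/

namespace Pool.Agent.SwR.Tr

variable [Pool.Agent.SwP.Dim]

open Finset Pool.Agent.SwR Pool.Agent.SwP
open scoped Classical

/-- the first leg of a half-space walk -/
noncomputable def leg (w : Word) : Word := (exists_last_max (ev 0) w).choose

/-- the rest of a half-space walk, upside down -/
noncomputable def rst (w : Word) : Word :=
  ((exists_last_max (ev 0) w).choose_spec.choose).map (refl 0).g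

theorem leg_rst (w : Word) : w = leg w ++ (rst w).map (refl 0).g := by
  unfold leg rst
  rw [refl_refl]
  exact (exists_last_max (ev 0) w).choose_spec.choose_spec.1

theorem leg_lo (w : Word) : ∀ c e : Word, leg w = c ++ e → 0 ≤ D e 0 :=
  fun c e h => (exists_last_max (ev 0) w).choose_spec.choose_spec.2.1 c e h

theorem rst_hi (w : Word) : ∀ u e : Word, rst w = u ++ e → u ≠ [] → 0 < D u 0 := by
  intro u e h hne
  unfold rst at h
  obtain ⟨u', e', h6, h7, _⟩ := List.map_eq_append_iff.1 h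
  have hne' : u' ≠ [] := by
    intro h0; apply hne; rw [← h7, h0]; rfl
  have := (exists_last_max (ev 0) w).choose_spec.choose_spec.2.2 u' e' h6 hne'
  rw [ev_apply] at this
  rw [← h7, D_refl, if_pos rfl]
  linarith

theorem length_leg_rst (w : Word) : (leg w).length + (rst w).length = w.length := by
  have := congrArg List.length (leg_rst w)
  rw [List.length_append, List.length_map] at this
  exact this.symm

/-- the height of the first leg is the maximal height -/
theorem leg_max (w : Word) : ∀ c e : Word, w = c ++ e → D c 0 ≤ D (leg w) 0 := by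
  intro c e hce
  have h0 := leg_rst w
  rw [h0] at hce
  rcases List.append_eq_append_iff.1 hce with ⟨g, hg1, hg2⟩ | ⟨g, hg1, hg2⟩
  · rw [hg1, D_append, Pi.add_apply]
    by_cases hg : g = []
    · subst hg; simp
    · obtain ⟨u', e', h6, h7, h8⟩ := List.map_eq_append_iff.1 hg2
      have hne' : u' ≠ [] := by
        intro h0; apply hg; rw [← h7, h0]; rfl
      have := rst_hi w u' e' h6 hne'
      rw [← h7, D_refl, if_pos rfl]
      linarith
  · have := leg_lo w c g hg1
    rw [hg1, D_append, Pi.add_apply]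
    linarith

theorem mem_hs_iff {L S T : ℕ} {w : Word} (hw : w ∈ hs L S) :
    w ∈ hs L T ↔ D (leg w) 0 ≤ T := by
  rw [mem_hs] at hw
  rw [mem_hs]
  constructor
  · intro h
    exact h.2.2.2 _ _ (leg_rst w)
  · intro h
    exact ⟨hw.1, hw.2.1, hw.2.2.1, fun a b hab => (leg_max w a b hab).trans h⟩

theorem leg_le {L S : ℕ} {w : Word} (hw : w ∈ hs L S) : D (leg w) 0 ≤ S :=
  (mem_hs_iff hw).1 hw

theorem leg_br {L S : ℕ} {w : Word} (hw : w ∈ hs L S) : Br (leg w) := by
  rw [mem_hs] at hw
  obtain ⟨h1, h2, h3, h4⟩ := hw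
  have h0 := leg_rst w
  rw [h0] at h2 h3
  exact ⟨h2.left, fun c e h => leg_lo w c e h, h3.left⟩

theorem leg_length {L S : ℕ} {w : Word} (hw : w ∈ hs L S) : (leg w).length ≤ L := by
  have := length_leg_rst w
  have h1 := (mem_hs.1 hw).1
  omega

theorem rst_mem {L S T : ℕ} {w : Word} (hw : w ∈ hs L S) (hT : D (leg w) 0 ≤ T + 1) :
    rst w ∈ hs L T := by
  rw [mem_hs] at hw
  obtain ⟨h1, h2, h3, h4⟩ := hw
  have h0 := leg_rst w
  have hlen := length_leg_rst w
  rw [mem_hs]
  refine ⟨by omega, ?_, fun u b h hne => rst_hi w u b h hne, ?_⟩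
  · rw [h0] at h2
    have := h2.right.map (refl 0)
    rwa [refl_refl] at this
  · intro u e hue
    by_cases hne' : leg w ++ u.map (refl 0).g = []
    · have h9 := List.append_eq_nil_iff.1 hne'
      have h10 : u = [] := by simpa using h9.2
      rw [h10]; simp
    · have h10 : w = (leg w ++ u.map (refl 0).g) ++ e.map (refl 0).g := by
        rw [List.append_assoc, ← List.map_append, ← hue]; exact h0
      have h11 := h3 _ _ h10 hne'
      rw [D_append, Pi.add_apply, D_refl, if_pos rfl] at h11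
      linarith

/-- bridges of height `s` -/
noncomputable def BR (L s : ℕ) : Finset Word :=
  (wle L).filter (fun w => Br w ∧ D w 0 = (s : ℤ))

/-- bridges of height in `(S, s]` -/
noncomputable def BW (L S s : ℕ) : Finset Word :=
  (wle L).filter (fun w => Br w ∧ (S : ℤ) < D w 0 ∧ D w 0 ≤ s)

theorem sum_BW {x : ℝ} (L S : ℕ) (hB : ∀ s, Bs x L s ≤ 1) (k : ℕ) :
    ∑ w ∈ BW L S (S + k), x ^ w.length ≤ k := by
  induction k with
  | zero =>
    have : BW L S (S + 0) = ∅ := by
      unfold BW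
      apply Finset.filter_false_of_mem
      rintro w _ ⟨_, h1, h2⟩
      push_cast at h2
      linarith
    rw [this]; simp
  | succ k ih =>
    have h1 : BW L S (S + (k + 1)) = BW L S (S + k) ∪ BR L (S + (k + 1)) := by
      unfold BW BR
      ext w
      simp only [Finset.mem_union, Finset.mem_filter]
      push_cast
      constructor
      · rintro ⟨h1, h2, h3, h4⟩
        by_cases h5 : D w 0 ≤ (S : ℤ) + k
        · left; exact ⟨h1, h2, h3, h5⟩
        · right; exact ⟨h1, h2, by omega⟩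
      · rintro (⟨h1, h2, h3, h4⟩ | ⟨h1, h2, h3⟩)
        · exact ⟨h1, h2, h3, by omega⟩
        · exact ⟨h1, h2, by omega, by omega⟩
    have h2 : Disjoint (BW L S (S + k)) (BR L (S + (k + 1))) := by
      rw [Finset.disjoint_left]
      intro w h3 h4
      unfold BW at h3
      unfold BR at h4
      rw [Finset.mem_filter] at h3 h4
      have h5 := h3.2.2.2
      have h6 := h4.2.2
      push_cast at h5 h6
      omega
    rw [h1, Finset.sum_union h2]
    have h3 := hB (S + (k + 1))
    unfold Bs at h3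
    have h4 : ∑ w ∈ BR L (S + (k + 1)), x ^ w.length ≤ 1 := by
      unfold BR; exact h3
    push_cast
    linarith

/-- narrow triples of legs with first span `s` -/
noncomputable def TR (L g s : ℕ) : Finset (Word × Word × Word) :=
  ((wle L) ×ˢ ((wle L) ×ˢ (wle L))).filter (fun t =>
    Br t.1 ∧ Br t.2.1 ∧ Br t.2.2 ∧ saw (t.1 ++ (t.2.1.map (refl 0).g ++ t.2.2)) ∧
    D t.1 0 = (s : ℤ) ∧ D t.2.1 0 < (s : ℤ) ∧ D t.2.2 0 < D t.2.1 0 ∧ 0 < D t.2.2 0 ∧
    (s : ℤ) - g ≤ D t.2.2 0 ∧ t.1.length + (t.2.1.length + t.2.2.length) ≤ L)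

/-- mass of the narrow triples with first span `s` -/
noncomputable def XX (x : ℝ) (L g s : ℕ) : ℝ :=
  ∑ t ∈ TR L g s, x ^ (t.1.length + (t.2.1.length + t.2.2.length))

theorem XX_nonneg {x : ℝ} (hx : 0 ≤ x) (L g s : ℕ) : 0 ≤ XX x L g s :=
  Finset.sum_nonneg (fun _ _ => pow_nonneg hx _)

section Step

variable {x : ℝ} {L s : ℕ}

theorem top_eq {w : Word} (hw : w ∈ hs L (s + 1) \ hs L s) : D (leg w) 0 = ((s + 1 : ℕ) : ℤ) := by
  rw [mem_sdiff] at hw
  have h1 := leg_le hw.1
  have h2 : ¬ D (leg w) 0 ≤ (s : ℤ) := fun h => hw.2 ((mem_hs_iff hw.1).2 h)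
  push_cast at h1 ⊢
  omega

theorem leg_mem_BR {w : Word} (hw : w ∈ hs L (s + 1) \ hs L s) : leg w ∈ BR L (s + 1) := by
  have h1 := (mem_sdiff.1 hw).1
  unfold BR
  rw [mem_filter, mem_wle]
  exact ⟨leg_length h1, leg_br h1, top_eq hw⟩

theorem rst_mem_hs {w : Word} (hw : w ∈ hs L (s + 1) \ hs L s) : rst w ∈ hs L s := by
  have h1 := (mem_sdiff.1 hw).1
  apply rst_mem h1
  have := top_eq hw
  rw [this]; push_cast; exact le_refl _

theorem leg_mem_BW {S : ℕ} {w : Word} (hw : w ∈ hs L s) (hw2 : w ∉ hs L S) : leg w ∈ BW L S s := by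
  unfold BW
  rw [mem_filter, mem_wle]
  refine ⟨leg_length hw, leg_br hw, ?_, leg_le hw⟩
  by_contra h
  push Not at h
  exact hw2 ((mem_hs_iff hw).2 h)

theorem rst_mem_hs' {w : Word} (hw : w ∈ hs L s) : rst w ∈ hs L s := by
  apply rst_mem hw
  have := leg_le hw
  omega

theorem leg_rst_lt {S : ℕ} {w : Word} (hw : w ∈ hs L s) (hw2 : w ∉ hs L S) :
    D (leg (rst w)) 0 < D (leg w) 0 := by
  have h1 : (S : ℤ) < D (leg w) 0 := by
    by_contra h
    push Not at h
    exact hw2 ((mem_hs_iff hw).2 h)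
  obtain ⟨T, hT⟩ : ∃ T : ℕ, D (leg w) 0 = (T : ℤ) + 1 := by
    refine ⟨(D (leg w) 0 - 1).toNat, ?_⟩
    rw [Int.toNat_of_nonneg (by omega)]; ring
  have h2 := leg_le (rst_mem (T := T) hw (le_of_eq hT))
  omega

theorem sum_prod_two {α β : Type*} (A : Finset α) (B : Finset β) (f : α → ℕ) (g : β → ℕ) (x : ℝ) :
    ∑ p ∈ A ×ˢ B, x ^ (f p.1 + g p.2) = (∑ a ∈ A, x ^ f a) * ∑ b ∈ B, x ^ g b := by
  rw [sum_product, sum_mul_sum]
  refine sum_congr rfl fun a _ => sum_congr rfl fun b _ => ?_
  rw [pow_add]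

/-- class (i) -/
theorem cls_one (hx : 0 ≤ x) (S : ℕ) (hB : ∀ s, Bs x L s ≤ 1) :
    ∑ w ∈ (hs L (s + 1) \ hs L s).filter (fun w => rst w ∈ hs L S), x ^ w.length
      ≤ Hs x L S := by
  have h0 : ∑ w ∈ (hs L (s + 1) \ hs L s).filter (fun w => rst w ∈ hs L S), x ^ w.length ≤
      ∑ p ∈ BR L (s + 1) ×ˢ hs L S, x ^ (p.1.length + p.2.length) := by
    refine sum_le_of_inj (fun w => (leg w, rst w)) ?_ ?_ ?_ ?_
    · intro w hw
      rw [mem_filter] at hw
      exact mem_product.2 ⟨leg_mem_BR hw.1, hw.2⟩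
    · intro w _ w' _ h
      simp only [Prod.mk.injEq] at h
      rw [leg_rst w, leg_rst w', h.1, h.2]
    · intro w _
      simp only
      rw [length_leg_rst]
    · intro p _
      positivity
  refine h0.trans ?_
  rw [sum_prod_two]
  have h1 : ∑ a ∈ BR L (s + 1), x ^ a.length ≤ 1 := hB (s + 1)
  exact mul_le_of_le_one_left (Hs_nonneg hx L S) h1

/-- class (ii) -/
theorem cls_two (hx : 0 ≤ x) (S k : ℕ) (hs' : s = S + k) (hB : ∀ s, Bs x L s ≤ 1) :
    ∑ w ∈ (hs L (s + 1) \ hs L s).filter (fun w => rst w ∉ hs L S ∧ rst (rst w) ∈ hs L S),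
      x ^ w.length ≤ k * Hs x L S := by
  have h0 : ∑ w ∈ (hs L (s + 1) \ hs L s).filter
      (fun w => rst w ∉ hs L S ∧ rst (rst w) ∈ hs L S), x ^ w.length ≤
      ∑ p ∈ BR L (s + 1) ×ˢ (BW L S s ×ˢ hs L S), x ^ (p.1.length + (p.2.1.length + p.2.2.length)) := by
    refine sum_le_of_inj (fun w => (leg w, leg (rst w), rst (rst w))) ?_ ?_ ?_ ?_
    · intro w hw
      rw [mem_filter] at hw
      exact mem_product.2 ⟨leg_mem_BR hw.1, mem_product.2
        ⟨leg_mem_BW (rst_mem_hs hw.1) hw.2.1, hw.2.2⟩⟩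
    · intro w _ w' _ h
      simp only [Prod.mk.injEq] at h
      have h1 : rst w = rst w' := by
        rw [leg_rst (rst w), leg_rst (rst w'), h.2.1, h.2.2]
      rw [leg_rst w, leg_rst w', h.1, h1]
    · intro w _
      simp only
      rw [length_leg_rst, length_leg_rst]
    · intro p _
      positivity
  refine h0.trans ?_
  have e1 := sum_prod_two (BR L (s + 1)) (BW L S s ×ˢ hs L S) (fun a => a.length)
    (fun p => p.1.length + p.2.length) x
  rw [e1, sum_prod_two]
  have h1 : ∑ a ∈ BR L (s + 1), x ^ a.length ≤ 1 := hB (s + 1)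
  have h2 : ∑ a ∈ BW L S s, x ^ a.length ≤ k := by rw [hs']; exact sum_BW L S hB k
  have h3 : 0 ≤ ∑ a ∈ BW L S s, x ^ a.length := sum_nonneg fun _ _ => pow_nonneg hx _
  refine (mul_le_of_le_one_left (mul_nonneg h3 (Hs_nonneg hx L S)) h1).trans ?_
  exact mul_le_mul_of_nonneg_right h2 (Hs_nonneg hx L S)

/-- class (iii): narrow triples -/
theorem cls_three (hx : 0 ≤ x) (S g : ℕ) :
    ∑ w ∈ (hs L (s + 1) \ hs L s).filter (fun w => rst w ∉ hs L S ∧ rst (rst w) ∉ hs L S ∧
      ((s + 1 : ℕ) : ℤ) - g ≤ D (leg (rst (rst w))) 0), x ^ w.length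
      ≤ XX x L g (s + 1) * Hs x L s := by
  unfold XX Hs
  have e1 := sum_prod_two (TR L g (s + 1)) (hs L s)
    (fun t => t.1.length + (t.2.1.length + t.2.2.length)) (fun w => w.length) x
  rw [← e1]
  refine sum_le_of_inj (fun w => ((leg w, leg (rst w), leg (rst (rst w))), rst (rst (rst w))))
    ?_ ?_ ?_ ?_
  · intro w hw
    rw [mem_filter] at hw
    obtain ⟨hw1, hw2, hw3, hw4⟩ := hw
    have r1 := rst_mem_hs hw1
    have r2 := rst_mem_hs' r1
    have r3 := rst_mem_hs' r2
    have hm := (mem_sdiff.1 hw1).1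
    have l0 := length_leg_rst w
    have l1 := length_leg_rst (rst w)
    have l2 := length_leg_rst (rst (rst w))
    have hL := (mem_hs.1 hm).1
    refine mem_product.2 ⟨?_, r3⟩
    unfold TR
    rw [mem_filter]
    refine ⟨mem_product.2 ⟨mem_wle.2 (leg_length hm), mem_product.2
      ⟨mem_wle.2 (leg_length r1), mem_wle.2 (leg_length r2)⟩⟩, leg_br hm, leg_br r1, leg_br r2,
      ?_, top_eq hw1, ?_, ?_, ?_, hw4, ?_⟩
    · have h1 : w = (leg w ++ ((leg (rst w)).map (refl 0).g ++ leg (rst (rst w)))) ++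
          (rst (rst (rst w))).map (refl 0).g := by
        conv_lhs => rw [leg_rst w, leg_rst (rst w), List.map_append, refl_refl,
          leg_rst (rst (rst w))]
        simp only [List.append_assoc]
      have h2 := (mem_hs.1 hm).2.1
      rw [h1] at h2
      exact h2.left
    · have := leg_le r1
      push_cast
      linarith
    · exact leg_rst_lt r1 hw2
    · by_contra h
      push Not at h
      exact hw3 ((mem_hs_iff r2).2 (h.trans (by positivity)))
    · simp only
      omega
  · intro w _ w' _ h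
    simp only [Prod.mk.injEq] at h
    have h1 : rst (rst w) = rst (rst w') := by
      rw [leg_rst (rst (rst w)), leg_rst (rst (rst w')), h.1.2.2, h.2]
    have h2 : rst w = rst w' := by
      rw [leg_rst (rst w), leg_rst (rst w'), h.1.2.1, h1]
    rw [leg_rst w, leg_rst w', h.1.1, h2]
  · intro w _
    simp only
    have l0 := length_leg_rst w
    have l1 := length_leg_rst (rst w)
    have l2 := length_leg_rst (rst (rst w))
    apply le_of_eq
    congr 1
    omega
  · intro p _
    positivity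

/-- class (iv): wide triples -/
theorem cls_four (hx : 0 ≤ x) (S k g : ℕ) (hs' : s = S + k) (hB : ∀ s, Bs x L s ≤ 1) :
    ∑ w ∈ (hs L (s + 1) \ hs L s).filter (fun w => rst w ∉ hs L S ∧ rst (rst w) ∉ hs L S ∧
      ¬ ((s + 1 : ℕ) : ℤ) - g ≤ D (leg (rst (rst w))) 0), x ^ w.length
      ≤ if S + g ≤ s then (k : ℝ) ^ 2 * Hs x L (s - g) else 0 := by
  split_ifs with hg
  · have h0 : ∑ w ∈ (hs L (s + 1) \ hs L s).filter (fun w => rst w ∉ hs L S ∧
        rst (rst w) ∉ hs L S ∧ ¬ ((s + 1 : ℕ) : ℤ) - g ≤ D (leg (rst (rst w))) 0), x ^ w.length ≤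
        ∑ p ∈ BR L (s + 1) ×ˢ (BW L S s ×ˢ (BW L S s ×ˢ hs L (s - g))),
          x ^ (p.1.length + (p.2.1.length + (p.2.2.1.length + p.2.2.2.length))) := by
      refine sum_le_of_inj (fun w => (leg w, leg (rst w), leg (rst (rst w)), rst (rst (rst w))))
        ?_ ?_ ?_ ?_
      · intro w hw
        rw [mem_filter] at hw
        obtain ⟨hw1, hw2, hw3, hw4⟩ := hw
        have r1 := rst_mem_hs hw1
        have r2 := rst_mem_hs' r1
        refine mem_product.2 ⟨leg_mem_BR hw1, mem_product.2 ⟨leg_mem_BW r1 hw2,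
          mem_product.2 ⟨leg_mem_BW r2 hw3, ?_⟩⟩⟩
        apply rst_mem r2
        push_cast [Nat.cast_sub (show g ≤ s by omega)] at hw4 ⊢
        linarith
      · intro w _ w' _ h
        simp only [Prod.mk.injEq] at h
        have h1 : rst (rst w) = rst (rst w') := by
          rw [leg_rst (rst (rst w)), leg_rst (rst (rst w')), h.2.2.1, h.2.2.2]
        have h2 : rst w = rst w' := by
          rw [leg_rst (rst w), leg_rst (rst w'), h.2.1, h1]
        rw [leg_rst w, leg_rst w', h.1, h2]
      · intro w _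
        simp only
        rw [length_leg_rst, length_leg_rst, length_leg_rst]
      · intro p _
        positivity
    refine h0.trans ?_
    have e1 := sum_prod_two (BR L (s + 1)) (BW L S s ×ˢ (BW L S s ×ˢ hs L (s - g)))
      (fun a => a.length) (fun p => p.1.length + (p.2.1.length + p.2.2.length)) x
    have e2 := sum_prod_two (BW L S s) (BW L S s ×ˢ hs L (s - g))
      (fun a => a.length) (fun p => p.1.length + p.2.length) x
    rw [e1, e2, sum_prod_two]
    have h1 : ∑ a ∈ BR L (s + 1), x ^ a.length ≤ 1 := hB (s + 1)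
    have h2 : ∑ a ∈ BW L S s, x ^ a.length ≤ k := by rw [hs']; exact sum_BW L S hB k
    have h3 : 0 ≤ ∑ a ∈ BW L S s, x ^ a.length := sum_nonneg fun _ _ => pow_nonneg hx _
    have h4 := Hs_nonneg hx L (s - g)
    refine (mul_le_of_le_one_left (mul_nonneg h3 (mul_nonneg h3 h4)) h1).trans ?_
    rw [pow_two, mul_assoc]
    exact mul_le_mul h2 (mul_le_mul_of_nonneg_right h2 h4) (mul_nonneg h3 h4) (Nat.cast_nonneg _)
  · apply le_of_eq
    apply sum_eq_zero
    intro w hw
    exfalso
    rw [mem_filter] at hw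
    obtain ⟨hw1, hw2, hw3, hw4⟩ := hw
    have r1 := rst_mem_hs hw1
    have r2 := rst_mem_hs' r1
    apply hw3
    rw [mem_hs_iff r2]
    push_cast at hw4
    omega

/-- **One step of the recursion**. -/
theorem Hs_step (hx : 0 ≤ x) (S k g : ℕ) (hs' : s = S + k) (hB : ∀ s, Bs x L s ≤ 1) :
    Hs x L (s + 1) ≤ Hs x L s + (Hs x L S + (k * Hs x L S + (XX x L g (s + 1) * Hs x L s +
      if S + g ≤ s then (k : ℝ) ^ 2 * Hs x L (s - g) else 0))) := by
  have h2 : Hs x L (s + 1) = ∑ w ∈ hs L (s + 1) \ hs L s, x ^ w.length + Hs x L s := by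
    unfold Hs
    rw [sum_sdiff (hs_mono (Nat.le_succ s))]
  rw [h2, add_comm]
  refine add_le_add (le_refl _) ?_
  set W := hs L (s + 1) \ hs L s with hW
  have h3 := cls_one (s := s) hx S hB
  have h4 := cls_two (s := s) hx S k hs' hB
  have h5 := cls_three (L := L) (s := s) hx S g
  have h6 := cls_four (s := s) hx S k g hs' hB
  rw [← hW] at h3 h4 h5 h6
  have h7 : ∑ w ∈ W, x ^ w.length =
      ∑ w ∈ W.filter (fun w => rst w ∈ hs L S), x ^ w.length +
      (∑ w ∈ W.filter (fun w => rst w ∉ hs L S ∧ rst (rst w) ∈ hs L S), x ^ w.length +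
      (∑ w ∈ W.filter (fun w => rst w ∉ hs L S ∧ rst (rst w) ∉ hs L S ∧
        ((s + 1 : ℕ) : ℤ) - g ≤ D (leg (rst (rst w))) 0), x ^ w.length +
      ∑ w ∈ W.filter (fun w => rst w ∉ hs L S ∧ rst (rst w) ∉ hs L S ∧
        ¬ ((s + 1 : ℕ) : ℤ) - g ≤ D (leg (rst (rst w))) 0), x ^ w.length)) := by
    simp only [sum_filter]
    rw [← sum_add_distrib, ← sum_add_distrib, ← sum_add_distrib]
    refine sum_congr rfl fun w _ => ?_
    by_cases a1 : rst w ∈ hs L S
    · simp [a1]
    · by_cases a2 : rst (rst w) ∈ hs L S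
      · simp [a1, a2]
      · by_cases a3 : ((s + 1 : ℕ) : ℤ) - g ≤ D (leg (rst (rst w))) 0
        · simp only [a1, a2, a3]; simp
        · simp only [a1, a2, a3]; simp
  rw [h7]
  exact add_le_add h3 (add_le_add h4 (add_le_add h5 h6))

end Step

section Window

variable {x : ℝ} {L : ℕ}

/-- the growth factor -/
noncomputable def EE (x : ℝ) (L S g k : ℕ) : ℝ :=
  Real.exp (∑ i ∈ range k, XX x L g (S + i + 1) + 4 * k / S + (3 * k / g) * Real.log S)

theorem exp_neg_le {u : ℝ} (hu0 : 0 ≤ u) (hu : u ≤ 1 / 2) : Real.exp (-(2 * u)) ≤ 1 - u := by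
  have h1 : 1 + 2 * u ≤ Real.exp (2 * u) := by
    have := Real.add_one_le_exp (2 * u)
    linarith
  rw [Real.exp_neg, inv_le_comm₀ (Real.exp_pos _) (by linarith)]
  refine le_trans ?_ h1
  rw [inv_le_comm₀ (by linarith) (by linarith)]
  rw [inv_eq_one_div, div_le_iff₀ (by linarith)]
  nlinarith

theorem ex_mono (hx : 0 ≤ x) (S g : ℕ) {k l : ℕ} (h : k ≤ l) :
    ∑ i ∈ range k, XX x L g (S + i + 1) + 4 * (k : ℝ) / S + 3 * (l : ℝ) / g * Real.log S ≤
      ∑ i ∈ range l, XX x L g (S + i + 1) + 4 * (l : ℝ) / S + 3 * (l : ℝ) / g * Real.log S := by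
  have h1 : ∑ i ∈ range k, XX x L g (S + i + 1) ≤ ∑ i ∈ range l, XX x L g (S + i + 1) :=
    sum_le_sum_of_subset_of_nonneg (range_mono h) fun _ _ _ => XX_nonneg hx _ _ _
  have h2 : 4 * (k : ℝ) / S ≤ 4 * (l : ℝ) / S := by
    have : (k : ℝ) ≤ l := by exact_mod_cast h
    gcongr
  linarith

theorem Hs_window (hx : 0 ≤ x) (hB : ∀ s, Bs x L s ≤ 1) (S g : ℕ) (hS : 4 ≤ S) (hg : 1 ≤ g)
    (k : ℕ) (hk : k ≤ S) :
    Hs x L (S + k) ≤ Hs x L S * ((S : ℝ) * (S + 1) * EE x L S g k) := by
  have hS0 : (0 : ℝ) < S := by exact_mod_cast (by omega : 0 < S)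
  have hS4 : (4 : ℝ) ≤ S := by exact_mod_cast hS
  have hg0 : (0 : ℝ) < g := by exact_mod_cast hg
  have hlog : 0 ≤ Real.log S := Real.log_nonneg (by linarith)
  have hH0 := Hs_nonneg hx L S
  have hE0 : ∀ k, 0 < EE x L S g k := fun k => Real.exp_pos _
  have hE1 : ∀ k, 1 ≤ EE x L S g k := by
    intro k
    unfold EE
    rw [Real.one_le_exp_iff]
    have h1 : 0 ≤ ∑ i ∈ range k, XX x L g (S + i + 1) :=
      sum_nonneg fun _ _ => XX_nonneg hx _ _ _
    positivity
  induction k using Nat.strong_induction_on with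
  | _ k ih =>
  rcases Nat.eq_zero_or_pos k with rfl | hk0
  · rw [Nat.add_zero]
    have h1 := hE1 0
    have h2 : (1 : ℝ) ≤ (S : ℝ) * (S + 1) := by nlinarith
    have h3 : (1 : ℝ) ≤ (S : ℝ) * (S + 1) * EE x L S g 0 := by nlinarith
    nlinarith
  · obtain ⟨j, rfl⟩ : ∃ j, k = j + 1 := ⟨k - 1, by omega⟩
    have hstep := Hs_step (s := S + j) hx S j g rfl hB
    have ih1 := ih j (by omega) (by omega)
    set H0 := Hs x L S with hH0d
    set P : ℝ := (S : ℝ) * (S + 1) with hP
    have hP0 : 0 < P := by positivity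
    set X := XX x L g (S + j + 1) with hX
    have hX0 : 0 ≤ X := XX_nonneg hx _ _ _
    set E1 := EE x L S g (j + 1) with hE1d
    have hjS : (j : ℝ) + 1 ≤ S := by exact_mod_cast hk
    -- (a) the product
    have ha : EE x L S g j * (1 + X) ≤ E1 * (1 - 2 / S) := by
      have h1 : 1 + X ≤ Real.exp X := by
        have := Real.add_one_le_exp X
        linarith
      have h2 : Real.exp (-(2 * (2 / (S : ℝ)))) ≤ 1 - 2 / S := by
        apply exp_neg_le (by positivity)
        rw [div_le_div_iff₀ hS0 (by norm_num)]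
        linarith
      calc EE x L S g j * (1 + X) ≤ EE x L S g j * Real.exp X :=
            mul_le_mul_of_nonneg_left h1 (hE0 j).le
        _ ≤ E1 * Real.exp (-(2 * (2 / (S : ℝ)))) := by
            rw [hE1d]
            unfold EE
            rw [← Real.exp_add, ← Real.exp_add]
            apply Real.exp_le_exp.2
            rw [sum_range_succ, ← hX]
            push_cast
            have h3 : 3 * (j : ℝ) / g * Real.log S ≤ 3 * ((j : ℝ) + 1) / g * Real.log S := by
              gcongr
              linarith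
            have h4 : 4 * ((j : ℝ) + 1) / S = 4 * (j : ℝ) / S + 2 * (2 / S) := by
              field_simp
              ring
            rw [h4]
            linarith
        _ ≤ E1 * (1 - 2 / S) := mul_le_mul_of_nonneg_left h2 (hE0 _).le
    -- (b) the wide triples
    have hb : (if S + g ≤ S + j then (j : ℝ) ^ 2 * Hs x L (S + j - g) else 0) ≤
        H0 * (P * (E1 * (1 / S))) := by
      split_ifs with hgj
      · have hgj' : g ≤ j := by omega
        have h1 := ih (j - g) (by omega) (by omega)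
        have h2 : S + j - g = S + (j - g) := by omega
        rw [h2]
        have h3 : (S : ℝ) ^ 3 * EE x L S g (j - g) ≤ E1 := by
          have h4 : (S : ℝ) ^ 3 = Real.exp (3 * Real.log S) := by
            rw [mul_comm, Real.exp_mul, Real.exp_log hS0]
            norm_cast
          rw [h4, hE1d]
          unfold EE
          rw [← Real.exp_add]
          apply Real.exp_le_exp.2
          have h5 := ex_mono (L := L) hx S g (show j - g ≤ j + 1 by omega)
          have h6 : 3 * Real.log S + 3 * ((j - g : ℕ) : ℝ) / g * Real.log S ≤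
              3 * ((j + 1 : ℕ) : ℝ) / g * Real.log S := by
            rw [← add_mul]
            apply mul_le_mul_of_nonneg_right _ hlog
            rw [Nat.cast_sub hgj', ← sub_nonneg]
            have h7 : 3 * ((j + 1 : ℕ) : ℝ) / g - (3 + 3 * ((j : ℝ) - g) / g) = 3 / g := by
              push_cast
              field_simp
              ring
            rw [h7]
            positivity
          linarith
        have h8 : (j : ℝ) ^ 2 ≤ (S : ℝ) ^ 2 := by
          apply pow_le_pow_left₀ (Nat.cast_nonneg _)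
          linarith
        calc (j : ℝ) ^ 2 * Hs x L (S + (j - g))
            ≤ (S : ℝ) ^ 2 * (H0 * (P * EE x L S g (j - g))) :=
              mul_le_mul h8 h1 (Hs_nonneg hx _ _) (by positivity)
          _ = H0 * (P * ((S : ℝ) ^ 3 * EE x L S g (j - g) * (1 / S))) := by
              field_simp
          _ ≤ H0 * (P * (E1 * (1 / S))) := by
              apply mul_le_mul_of_nonneg_left _ hH0
              apply mul_le_mul_of_nonneg_left _ hP0.le
              apply mul_le_mul_of_nonneg_right h3 (by positivity)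
      · have := (hE0 (j + 1)).le
        rw [← hE1d] at this
        positivity
    -- (c) incomplete triples
    have hc : H0 + j * H0 ≤ H0 * (P * (E1 * (1 / S))) := by
      have h1 : P * (E1 * (1 / S)) = (S + 1) * E1 := by
        rw [hP]; field_simp
      rw [h1]
      have h2 := hE1 (j + 1)
      rw [← hE1d] at h2
      have h3 : 1 + (j : ℝ) ≤ (S + 1) * E1 := by nlinarith
      nlinarith
    have hd : Hs x L (S + j) + X * Hs x L (S + j) ≤ H0 * (P * (E1 * (1 - 2 / S))) := by
      calc Hs x L (S + j) + X * Hs x L (S + j) = Hs x L (S + j) * (1 + X) := by ring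
        _ ≤ (H0 * (P * EE x L S g j)) * (1 + X) :=
            mul_le_mul_of_nonneg_right ih1 (by linarith)
        _ = H0 * (P * (EE x L S g j * (1 + X))) := by ring
        _ ≤ H0 * (P * (E1 * (1 - 2 / S))) := by
            apply mul_le_mul_of_nonneg_left _ hH0
            apply mul_le_mul_of_nonneg_left ha hP0.le
    have he : H0 * (P * (E1 * (1 - 2 / S))) + (H0 * (P * (E1 * (1 / S))) +
        H0 * (P * (E1 * (1 / S)))) = H0 * (P * E1) := by
      field_simp
      ring
    rw [show S + (j + 1) = S + j + 1 by ring]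
    linarith

/-- **TRIP**: the legs with spans in `(S, 2S]`. -/
theorem Hs_double (hx : 0 ≤ x) (hB : ∀ s, Bs x L s ≤ 1) (S g : ℕ) (hS : 4 ≤ S) (hg : 1 ≤ g) :
    Hs x L (S + S) ≤ Hs x L S * Real.exp (∑ i ∈ range S, XX x L g (S + i + 1) +
      (3 * S / g + 6) * Real.log S) := by
  have hS0 : (0 : ℝ) < S := by exact_mod_cast (by omega : 0 < S)
  have hS4 : (4 : ℝ) ≤ S := by exact_mod_cast hS
  refine (Hs_window hx hB S g hS hg S le_rfl).trans ?_
  apply mul_le_mul_of_nonneg_left _ (Hs_nonneg hx L S)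
  have hlog4 : (4 : ℝ) ≤ 3 * Real.log S := by
    have h1 : Real.log 4 ≤ Real.log S := Real.log_le_log (by norm_num) hS4
    have h2 : Real.log 4 = 2 * Real.log 2 := by
      rw [show (4 : ℝ) = 2 ^ 2 by norm_num, Real.log_pow]; norm_num
    have h3 := Real.log_two_gt_d9
    linarith
  have h1 : (S : ℝ) * (S + 1) ≤ Real.exp (3 * Real.log S) := by
    rw [mul_comm 3, Real.exp_mul, Real.exp_log hS0]
    norm_cast
    have : S * (S + 1) ≤ S ^ 3 := by
      have h2 : S + 1 ≤ S * S := by nlinarith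
      calc S * (S + 1) ≤ S * (S * S) := Nat.mul_le_mul_left _ h2
        _ = S ^ 3 := by ring
    exact this
  calc (S : ℝ) * (S + 1) * EE x L S g S ≤ Real.exp (3 * Real.log S) * EE x L S g S :=
        mul_le_mul_of_nonneg_right h1 (Real.exp_pos _).le
    _ ≤ _ := by
        unfold EE
        rw [← Real.exp_add]
        apply Real.exp_le_exp.2
        have h2 : 4 * (S : ℝ) / S = 4 := by field_simp
        rw [h2]
        have h3 : (3 * (S : ℝ) / g + 6) * Real.log S = 3 * (S : ℝ) / g * Real.log S +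
          6 * Real.log S := by ring
        rw [h3]
        linarith

end Window

end Pool.Agent.SwR.Tr
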