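import Pool.Agent.SwR.Trip

/-! Assembly of STAR from the bound for narrow triples (room R19, helper98). -/

namespace Pool.Agent.SwR.Tr

variable [Pool.Agent.SwP.Dim]

open Finset Pool.Agent.SwP
open scoped Classical

/-- **Hypothesis**: the bound for the narrow triples, summed over all locations. -/
def TripBound (μ : ℝ) : Prop :=
  ∀ (A : ℕ) (ε : ℝ), 0 < ε → ∃ C : ℝ, 0 < C ∧ ∀ S L g : ℕ, 1 ≤ S → L ≤ S ^ A → 1 ≤ g → g ≤ S →
    ∑ i ∈ range S, XX μ⁻¹ L g (S + i + 1) ≤ C * (S : ℝ) ^ ε * (g : ℝ) ^ 3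

theorem one_le_Hs {x : ℝ} (hx : 0 ≤ x) (L S : ℕ) : 1 ≤ Hs x L S := by
  have h := Hs_mono hx (L := L) (Nat.zero_le S)
  rw [Hs_zero] at h
  exact h

/-- a logarithm against a small power -/
theorem log_le_pow {ε : ℝ} (hε : 0 < ε) {s : ℝ} (hs : 1 ≤ s) : Real.log s ≤ (1 / ε) * s ^ ε := by
  have h1 := Real.log_le_rpow_div (by linarith : (0 : ℝ) ≤ s) hε
  rw [div_eq_inv_mul, ← one_div] at h1
  exact h1

theorem dbl {μ : ℝ} (hμ : 1 ≤ μ) (hb : ∀ n, ((brs n).card : ℝ) ≤ μ ^ n) (htb : TripBound μ)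
    (A : ℕ) {a : ℝ} (ha : 3 / 4 < a) :
    ∃ C : ℝ, 0 < C ∧ ∀ S L : ℕ, 1 ≤ S → L ≤ S ^ A →
      Hs μ⁻¹ L (S + S) ≤ Hs μ⁻¹ L S * Real.exp (C * (S : ℝ) ^ a) := by
  set ε : ℝ := a - 3 / 4 with hε
  have hε0 : 0 < ε := by rw [hε]; linarith
  obtain ⟨C, hC, htb⟩ := htb A ε hε0
  have hx : (0 : ℝ) ≤ μ⁻¹ := by positivity
  have hB : ∀ L s, Bs μ⁻¹ L s ≤ 1 := fun L s => Bs_le_one hμ hb L s
  refine ⟨C * 8 + 9 / ε + 8, by positivity, fun S L hS hL => ?_⟩
  have hS1 : (1 : ℝ) ≤ S := by exact_mod_cast hS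
  have hSa : (1 : ℝ) ≤ (S : ℝ) ^ a := Real.one_le_rpow hS1 (by linarith)
  have hH := Hs_nonneg hx L S
  by_cases hS4 : 4 ≤ S
  · -- the main case
    set g : ℕ := ⌈(S : ℝ) ^ (1 / 4 : ℝ)⌉₊ with hg
    have hq1 : (1 : ℝ) ≤ (S : ℝ) ^ (1 / 4 : ℝ) := Real.one_le_rpow hS1 (by norm_num)
    have hg1 : 1 ≤ g := Nat.one_le_ceil_iff.2 (by linarith)
    have hgle : (S : ℝ) ^ (1 / 4 : ℝ) ≤ g := Nat.le_ceil _
    have hg2 : (g : ℝ) ≤ 2 * (S : ℝ) ^ (1 / 4 : ℝ) := by
      have := Nat.ceil_lt_add_one (show 0 ≤ (S : ℝ) ^ (1 / 4 : ℝ) by linarith)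
      rw [← hg] at this
      linarith
    have hgS : g ≤ S := by
      rw [hg, Nat.ceil_le]
      calc (S : ℝ) ^ (1 / 4 : ℝ) ≤ (S : ℝ) ^ (1 : ℝ) :=
            Real.rpow_le_rpow_of_exponent_le hS1 (by norm_num)
        _ = S := Real.rpow_one _
    have hg0 : (0 : ℝ) < g := by linarith
    have h1 := htb S L g hS hL hg1 hgS
    refine (Hs_double hx (hB L) S g hS4 hg1).trans ?_
    apply mul_le_mul_of_nonneg_left _ hH
    apply Real.exp_le_exp.2
    have h34 : (0 : ℝ) < (S : ℝ) ^ (3 / 4 : ℝ) := Real.rpow_pos_of_pos (by linarith) _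
    have hsplit : (S : ℝ) ^ (3 / 4 : ℝ) * (S : ℝ) ^ ε = (S : ℝ) ^ a := by
      rw [← Real.rpow_add (by linarith)]
      congr 1
      rw [hε]; ring
    have h2 : (g : ℝ) ^ 3 ≤ 8 * (S : ℝ) ^ (3 / 4 : ℝ) := by
      calc (g : ℝ) ^ 3 ≤ (2 * (S : ℝ) ^ (1 / 4 : ℝ)) ^ 3 := pow_le_pow_left₀ hg0.le hg2 3
        _ = 8 * ((S : ℝ) ^ (1 / 4 : ℝ)) ^ 3 := by ring
        _ = 8 * (S : ℝ) ^ (3 / 4 : ℝ) := by
            rw [← Real.rpow_natCast, ← Real.rpow_mul (by linarith)]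
            norm_num
    have h3 : (S : ℝ) / g ≤ (S : ℝ) ^ (3 / 4 : ℝ) := by
      rw [div_le_iff₀ hg0]
      calc (S : ℝ) = (S : ℝ) ^ (3 / 4 : ℝ) * (S : ℝ) ^ (1 / 4 : ℝ) := by
            rw [← Real.rpow_add (by linarith)]
            norm_num
        _ ≤ _ := mul_le_mul_of_nonneg_left hgle h34.le
    have h4 := log_le_pow hε0 hS1
    have h5 : (1 : ℝ) ≤ (S : ℝ) ^ (3 / 4 : ℝ) := Real.one_le_rpow hS1 (by norm_num)
    have hlog : 0 ≤ Real.log S := Real.log_nonneg hS1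
    have h6 : (3 * (S : ℝ) / g + 6) * Real.log S ≤ 9 / ε * (S : ℝ) ^ a := by
      have h7 : 3 * (S : ℝ) / g + 6 ≤ 9 * (S : ℝ) ^ (3 / 4 : ℝ) := by
        have : 3 * (S : ℝ) / g = 3 * (S / g) := by ring
        rw [this]
        linarith
      calc (3 * (S : ℝ) / g + 6) * Real.log S
          ≤ (9 * (S : ℝ) ^ (3 / 4 : ℝ)) * ((1 / ε) * (S : ℝ) ^ ε) :=
            mul_le_mul h7 h4 hlog (by positivity)
        _ = 9 / ε * ((S : ℝ) ^ (3 / 4 : ℝ) * (S : ℝ) ^ ε) := by ring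
        _ = 9 / ε * (S : ℝ) ^ a := by rw [hsplit]
    have h8 : ∑ i ∈ range S, XX μ⁻¹ L g (S + i + 1) ≤ C * 8 * (S : ℝ) ^ a := by
      refine h1.trans ?_
      calc C * (S : ℝ) ^ ε * (g : ℝ) ^ 3 ≤ C * (S : ℝ) ^ ε * (8 * (S : ℝ) ^ (3 / 4 : ℝ)) :=
            mul_le_mul_of_nonneg_left h2 (by positivity)
        _ = C * 8 * ((S : ℝ) ^ (3 / 4 : ℝ) * (S : ℝ) ^ ε) := by ring
        _ = _ := by rw [hsplit]
    have h9 : 0 ≤ 8 * (S : ℝ) ^ a := by positivity
    nlinarith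
  · -- small S
    have h1 := Hs_le_exp hx L (S + S)
    have h2 : ∑ s ∈ range (S + S), Bs μ⁻¹ L (s + 1) ≤ 8 := by
      calc ∑ s ∈ range (S + S), Bs μ⁻¹ L (s + 1) ≤ ∑ s ∈ range (S + S), (1 : ℝ) :=
            sum_le_sum fun s _ => hB L (s + 1)
        _ = ((S + S : ℕ) : ℝ) := by simp
        _ ≤ 8 := by
            have : S + S ≤ 8 := by omega
            exact_mod_cast this
    have h3 := one_le_Hs hx L S
    have h4 : Real.exp 8 ≤ Real.exp ((C * 8 + 9 / ε + 8) * (S : ℝ) ^ a) := by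
      apply Real.exp_le_exp.2
      have h5 : 0 ≤ C * 8 + 9 / ε := by positivity
      nlinarith
    calc Hs μ⁻¹ L (S + S) ≤ Real.exp 8 := h1.trans (Real.exp_le_exp.2 h2)
      _ ≤ Real.exp ((C * 8 + 9 / ε + 8) * (S : ℝ) ^ a) := h4
      _ = 1 * Real.exp ((C * 8 + 9 / ε + 8) * (S : ℝ) ^ a) := (one_mul _).symm
      _ ≤ _ := mul_le_mul_of_nonneg_right h3 (Real.exp_pos _).le

/-- STAR for half-space walks -/
theorem hstar {μ : ℝ} (hμ : 1 ≤ μ) (hb : ∀ n, ((brs n).card : ℝ) ≤ μ ^ n) (htb : TripBound μ)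
    (A : ℕ) {a : ℝ} (ha : 3 / 4 < a) :
    ∃ C : ℝ, 0 < C ∧ ∀ R L : ℕ, 1 ≤ R → L ≤ R ^ A →
      Hs μ⁻¹ L R ≤ Real.exp (C * (R : ℝ) ^ a) := by
  obtain ⟨C, hC, hd⟩ := dbl hμ hb htb (2 * A) ha
  have hx : (0 : ℝ) ≤ μ⁻¹ := by positivity
  have hB : ∀ L s, Bs μ⁻¹ L s ≤ 1 := fun L s => Bs_le_one hμ hb L s
  set q : ℝ := (2 : ℝ) ^ a with hq
  have hq32 : 3 / 2 ≤ q := by
    have h1 : (2 : ℝ) ^ (3 / 4 : ℝ) ≤ q :=
      Real.rpow_le_rpow_of_exponent_le (by norm_num) ha.le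
    have h2 : (3 / 2 : ℝ) ≤ (2 : ℝ) ^ (3 / 4 : ℝ) := by
      have h3 : ((3 / 2 : ℝ)) ^ (4 : ℝ) ≤ ((2 : ℝ) ^ (3 / 4 : ℝ)) ^ (4 : ℝ) := by
        rw [← Real.rpow_mul (by norm_num)]
        norm_num
      exact (Real.rpow_le_rpow_iff (by norm_num) (by positivity) (by norm_num)).1 h3
    linarith
  refine ⟨2 + C * (2 * q), by positivity, fun R L hR hL => ?_⟩
  have hR1 : (1 : ℝ) ≤ R := by exact_mod_cast hR
  set K := Nat.clog 2 R with hK
  have hRK : R ≤ 2 ^ K := Nat.le_pow_clog (by norm_num) R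
  have hKR : 2 ^ K ≤ 2 * R := by
    rcases Nat.eq_zero_or_pos K with h0 | h0
    · rw [h0]; omega
    · have h1 : 2 ^ (K - 1) < R := by
        by_contra h
        push Not at h
        have := Nat.clog_le_of_le_pow h
        omega
      have h2 : 2 ^ K = 2 * 2 ^ (K - 1) := by
        rw [← pow_succ']; congr 1; omega
      omega
  set i0 := (K + 1) / 2 with hi0
  have hi0K : i0 ≤ K ∨ K = 0 := by omega
  have hbase : Hs μ⁻¹ L (2 ^ i0) ≤ Real.exp (2 * (R : ℝ) ^ a) := by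
    refine (Hs_le_exp hx L (2 ^ i0)).trans (Real.exp_le_exp.2 ?_)
    have h1 : ∑ s ∈ range (2 ^ i0), Bs μ⁻¹ L (s + 1) ≤ ((2 ^ i0 : ℕ) : ℝ) := by
      calc ∑ s ∈ range (2 ^ i0), Bs μ⁻¹ L (s + 1) ≤ ∑ s ∈ range (2 ^ i0), (1 : ℝ) :=
            sum_le_sum fun s _ => hB L (s + 1)
        _ = _ := by simp
    refine h1.trans ?_
    have h2 : (2 ^ i0) ^ 2 ≤ 4 * R := by
      have h3 : (2 ^ i0) ^ 2 ≤ 2 ^ (K + 1) := by
        rw [← pow_mul]
        exact Nat.pow_le_pow_right (by norm_num) (by omega)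
      calc (2 ^ i0) ^ 2 ≤ 2 ^ (K + 1) := h3
        _ = 2 * 2 ^ K := by ring
        _ ≤ 4 * R := by omega
    have h4 : ((2 ^ i0 : ℕ) : ℝ) ^ 2 ≤ (2 * (R : ℝ) ^ a) ^ 2 := by
      have h5 : ((2 ^ i0 : ℕ) : ℝ) ^ 2 ≤ 4 * R := by exact_mod_cast h2
      refine h5.trans ?_
      rw [mul_pow]
      have h6 : (R : ℝ) ≤ ((R : ℝ) ^ a) ^ 2 := by
        rw [← Real.rpow_natCast, ← Real.rpow_mul (by linarith)]
        calc (R : ℝ) = (R : ℝ) ^ (1 : ℝ) := (Real.rpow_one _).symm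
          _ ≤ (R : ℝ) ^ (a * (2 : ℕ)) :=
            Real.rpow_le_rpow_of_exponent_le hR1 (by push_cast; linarith)
      nlinarith
    exact le_of_pow_le_pow_left₀ (by norm_num) (by positivity) h4
  -- the dyadic induction
  have hind : ∀ j : ℕ, i0 + j ≤ K → Hs μ⁻¹ L (2 ^ (i0 + j)) ≤
      Real.exp (2 * (R : ℝ) ^ a) * Real.exp (C * (2 * q ^ (i0 + j))) := by
    intro j
    induction j with
    | zero =>
      intro _
      rw [Nat.add_zero]
      refine hbase.trans (le_mul_of_one_le_right (Real.exp_pos _).le ?_)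
      rw [Real.one_le_exp_iff]
      positivity
    | succ j ih =>
      intro hj
      have ih1 := ih (by omega)
      have hS : 1 ≤ 2 ^ (i0 + j) := Nat.one_le_two_pow
      have hLS : L ≤ (2 ^ (i0 + j)) ^ (2 * A) := by
        refine hL.trans ?_
        rw [pow_mul]
        apply Nat.pow_le_pow_left
        refine hRK.trans ?_
        rw [← pow_mul]
        exact Nat.pow_le_pow_right (by norm_num) (by omega)
      have h1 := hd (2 ^ (i0 + j)) L hS hLS
      have h2 : 2 ^ (i0 + j) + 2 ^ (i0 + j) = 2 ^ (i0 + (j + 1)) := by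
        rw [← add_assoc, pow_succ]; ring
      rw [h2] at h1
      have h3 : (((2 ^ (i0 + j) : ℕ) : ℝ)) ^ a = q ^ (i0 + j) := by
        push_cast
        rw [hq, ← Real.rpow_natCast, ← Real.rpow_mul (by norm_num), ← Real.rpow_natCast,
          ← Real.rpow_mul (by norm_num), mul_comm]
      rw [h3] at h1
      refine h1.trans ?_
      calc Hs μ⁻¹ L (2 ^ (i0 + j)) * Real.exp (C * q ^ (i0 + j))
          ≤ (Real.exp (2 * (R : ℝ) ^ a) * Real.exp (C * (2 * q ^ (i0 + j)))) *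
              Real.exp (C * q ^ (i0 + j)) :=
            mul_le_mul_of_nonneg_right ih1 (Real.exp_pos _).le
        _ = Real.exp (2 * (R : ℝ) ^ a) * Real.exp (C * (2 * q ^ (i0 + j)) + C * q ^ (i0 + j)) := by
            rw [Real.exp_add]; ring
        _ ≤ Real.exp (2 * (R : ℝ) ^ a) * Real.exp (C * (2 * q ^ (i0 + (j + 1)))) := by
            apply mul_le_mul_of_nonneg_left _ (Real.exp_pos _).le
            apply Real.exp_le_exp.2
            rw [← mul_add]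
            apply mul_le_mul_of_nonneg_left _ hC.le
            rw [← add_assoc, pow_succ]
            have : 0 < q ^ (i0 + j) := by positivity
            nlinarith
  have hfin : Hs μ⁻¹ L (2 ^ K) ≤ Real.exp (2 * (R : ℝ) ^ a) * Real.exp (C * (2 * q ^ K)) := by
    rcases hi0K with h | h
    · have h1 := hind (K - i0) (by omega)
      have h2 : i0 + (K - i0) = K := by omega
      rw [h2] at h1
      exact h1
    · have h1 := hind 0 (by omega)
      have h2 : i0 + 0 = K := by omega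
      rw [h2] at h1
      exact h1
  have hmono := Hs_mono hx (L := L) hRK
  refine hmono.trans (hfin.trans ?_)
  rw [← Real.exp_add]
  apply Real.exp_le_exp.2
  have h1 : q ^ K ≤ q * (R : ℝ) ^ a := by
    have h2 : q ^ K = ((2 ^ K : ℕ) : ℝ) ^ a := by
      push_cast
      rw [hq, ← Real.rpow_natCast, ← Real.rpow_mul (by norm_num), ← Real.rpow_natCast,
        ← Real.rpow_mul (by norm_num), mul_comm]
    rw [h2, hq, ← Real.mul_rpow (by norm_num) (by linarith)]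
    apply Real.rpow_le_rpow (by positivity) _ (by linarith)
    exact_mod_cast hKR
  have h3 : C * (2 * q ^ K) ≤ C * (2 * (q * (R : ℝ) ^ a)) := by
    apply mul_le_mul_of_nonneg_left _ hC.le
    linarith
  calc 2 * (R : ℝ) ^ a + C * (2 * q ^ K) ≤ 2 * (R : ℝ) ^ a + C * (2 * (q * (R : ℝ) ^ a)) := by
        linarith
    _ = (2 + C * (2 * q)) * (R : ℝ) ^ a := by ring

/-- the class of SAR: self-avoiding words whose extent in the first coordinate is at most `R` -/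
noncomputable def slab (L R : ℕ) : Finset Word :=
  (wle L).filter (fun w => saw w ∧ ∀ p ∈ pts w, ∀ q ∈ pts w, p 0 - q 0 ≤ (R : ℤ))

theorem slab_len {μ : ℝ} (hμ : 1 ≤ μ) (R L n : ℕ) (hn : n ≤ L) :
    ∑ w ∈ (slab L R).filter (fun w => w.length = n), μ⁻¹ ^ n ≤
      μ * (Hs μ⁻¹ (L + 1) (R + 1) * Hs μ⁻¹ (L + 1) (R + 1)) := by
  have hx : (0 : ℝ) < μ⁻¹ := by positivity
  choose A B hAB hA hB using exists_last_max (- ev 0)
  have hmem : ∀ w ∈ (slab L R).filter (fun w => w.length = n), w ∈ walks n ∧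
      ∀ p ∈ pts w, ∀ q ∈ pts w, p 0 - q 0 ≤ (R : ℤ) := by
    intro w hw
    rw [mem_filter] at hw
    unfold slab at hw
    rw [mem_filter] at hw
    rw [mem_walks]
    exact ⟨⟨hw.2, hw.1.2.1⟩, hw.1.2.2⟩
  have h := HW_core hx n ((slab L R).filter (fun w => w.length = n)) (hs (L + 1) (R + 1))
    (hs (L + 1) (R + 1)) A B hAB (fun w hw => (mem_filter.1 hw).2) ?_ ?_
  · rw [inv_inv] at h
    exact h
  · intro w hw
    obtain ⟨h1, h2⟩ := hmem w hw
    have h3 := (halves h1 (hAB w) (hA w) (hB w)).1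
    rw [mem_hs] at h3 ⊢
    refine ⟨by omega, h3.2.1, h3.2.2.1, ?_⟩
    intro c e hce
    rcases List.append_eq_cons_iff.1 hce.symm with ⟨h4, _⟩ | ⟨c', h4, h5⟩
    · rw [h4]; simp; positivity
    · rw [h4, D_cons, Pi.add_apply]
      have h6 : A w = SwP.rv e ++ SwP.rv c' := by
        have := congrArg SwP.rv h5
        rwa [rv_rv, rv_append] at this
      have h7 : D (A w) 0 = D (SwP.rv e) 0 + D (SwP.rv c') 0 := by
        rw [h6, D_append, Pi.add_apply]
      have h8 := h2 (D (SwP.rv e)) (mem_pts.2 ⟨SwP.rv e,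
        SwP.rv c' ++ B w, by rw [← List.append_assoc, ← h6]; exact hAB w, rfl⟩)
        (D (A w)) (mem_pts.2 ⟨A w, B w, hAB w, rfl⟩)
      have h9 : D (SwP.rv c') 0 = - D c' 0 := by rw [D_rv]; rfl
      simp only [vec, Pi.single_eq_same, if_true]
      push_cast
      linarith
  · intro w hw
    obtain ⟨h1, h2⟩ := hmem w hw
    have h3 := (halves h1 (hAB w) (hA w) (hB w)).2
    rw [mem_hs] at h3 ⊢
    refine ⟨by omega, h3.2.1, h3.2.2.1, ?_⟩
    intro c e hce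
    have h8 := h2 (D (A w ++ c)) (mem_pts.2 ⟨A w ++ c, e, by
      rw [List.append_assoc, ← hce]; exact hAB w, rfl⟩)
      (D (A w)) (mem_pts.2 ⟨A w, B w, hAB w, rfl⟩)
    rw [D_append, Pi.add_apply] at h8
    push_cast
    linarith

/-- **STAR from the bound for narrow triples.** -/
theorem star_of_trip {μ : ℝ} (hμ : 1 ≤ μ) (hb : ∀ n, ((brs n).card : ℝ) ≤ μ ^ n)
    (htb : TripBound μ) (A : ℕ) {a : ℝ} (ha : 3 / 4 < a) :
    ∃ C : ℝ, 0 < C ∧ ∀ R L : ℕ, 1 ≤ R → L ≤ R ^ A →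
      ∑ w ∈ (wle L).filter (fun w => saw w ∧ ∀ p ∈ pts w, ∀ q ∈ pts w, p 0 - q 0 ≤ (R : ℤ)),
        μ⁻¹ ^ w.length ≤ Real.exp (C * (R : ℝ) ^ a) := by
  obtain ⟨C, hC, hh⟩ := hstar hμ hb htb (A + 1) ha
  have hx : (0 : ℝ) ≤ μ⁻¹ := by positivity
  have ha0 : 0 < a := by linarith
  refine ⟨2 * (C * 2 ^ a) + (μ + (1 + A / a)), by positivity, fun R L hR hL => ?_⟩
  have hR1 : (1 : ℝ) ≤ R := by exact_mod_cast hR
  have hRa : (1 : ℝ) ≤ (R : ℝ) ^ a := Real.one_le_rpow hR1 ha0.le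
  have hsum : ∑ w ∈ slab L R, μ⁻¹ ^ w.length =
      ∑ n ∈ range (L + 1), ∑ w ∈ (slab L R).filter (fun w => w.length = n), μ⁻¹ ^ n := by
    rw [← sum_fiberwise_of_maps_to (s := slab L R) (t := range (L + 1)) (g := fun w => w.length)]
    · refine sum_congr rfl fun n _ => sum_congr rfl fun w hw => ?_
      rw [(mem_filter.1 hw).2]
    · intro w hw
      unfold slab at hw
      rw [mem_filter, mem_wle] at hw
      rw [mem_range]; omega
  change ∑ w ∈ slab L R, μ⁻¹ ^ w.length ≤ _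
  rw [hsum]
  set H := Hs μ⁻¹ (L + 1) (R + 1) with hH
  have hH0 : 0 ≤ H := Hs_nonneg hx _ _
  have hHle : H ≤ Real.exp (C * 2 ^ a * (R : ℝ) ^ a) := by
    have h1 := hh (R + 1) (L + 1) (by omega) ?_
    · refine h1.trans (Real.exp_le_exp.2 ?_)
      rw [mul_assoc, ← Real.mul_rpow (by norm_num) (by linarith)]
      apply mul_le_mul_of_nonneg_left _ hC.le
      apply Real.rpow_le_rpow (by positivity) _ ha0.le
      push_cast
      linarith
    · calc L + 1 ≤ R ^ A + 1 := by omega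
        _ ≤ (R + 1) ^ A + (R + 1) ^ A := by
            have h2 : R ^ A ≤ (R + 1) ^ A := Nat.pow_le_pow_left (by omega) A
            have h3 : 1 ≤ (R + 1) ^ A := Nat.one_le_pow _ _ (by omega)
            omega
        _ = (R + 1) ^ A * 2 := by ring
        _ ≤ (R + 1) ^ A * (R + 1) := Nat.mul_le_mul_left _ (by omega)
        _ = (R + 1) ^ (A + 1) := by ring
  calc ∑ n ∈ range (L + 1), ∑ w ∈ (slab L R).filter (fun w => w.length = n), μ⁻¹ ^ n
      ≤ ∑ n ∈ range (L + 1), μ * (H * H) := by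
        refine sum_le_sum fun n hn => ?_
        rw [mem_range] at hn
        exact slab_len hμ R L n (by omega)
    _ = ((L + 1 : ℕ) : ℝ) * (μ * (H * H)) := by
        rw [sum_const, card_range, nsmul_eq_mul]
    _ ≤ Real.exp ((1 + A / a) * (R : ℝ) ^ a) * (Real.exp (μ * (R : ℝ) ^ a) *
          (Real.exp (C * 2 ^ a * (R : ℝ) ^ a) * Real.exp (C * 2 ^ a * (R : ℝ) ^ a))) := by
        apply mul_le_mul _ _ (by positivity) (Real.exp_pos _).le
        · -- L + 1 ≤ 2 R^A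
          have h1 : ((L + 1 : ℕ) : ℝ) ≤ 2 * (R : ℝ) ^ A := by
            have h2 : L + 1 ≤ 2 * R ^ A := by
              have h3 : 1 ≤ R ^ A := Nat.one_le_pow _ _ hR
              omega
            exact_mod_cast h2
          refine h1.trans ?_
          have h4 : (2 : ℝ) ≤ Real.exp ((R : ℝ) ^ a) := by
            have := Real.add_one_le_exp ((R : ℝ) ^ a)
            linarith
          have h5 : (R : ℝ) ^ A ≤ Real.exp (A / a * (R : ℝ) ^ a) := by
            have h6 := log_le_pow ha0 hR1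
            have h7 : (R : ℝ) ^ A = Real.exp (A * Real.log R) := by
              rw [mul_comm, Real.exp_mul, Real.exp_log (by linarith), Real.rpow_natCast]
            rw [h7]
            apply Real.exp_le_exp.2
            calc (A : ℝ) * Real.log R ≤ A * (1 / a * (R : ℝ) ^ a) :=
                  mul_le_mul_of_nonneg_left h6 (Nat.cast_nonneg _)
              _ = _ := by ring
          calc 2 * (R : ℝ) ^ A ≤ Real.exp ((R : ℝ) ^ a) * Real.exp (A / a * (R : ℝ) ^ a) :=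
                mul_le_mul h4 h5 (by positivity) (Real.exp_pos _).le
            _ = _ := by rw [← Real.exp_add]; congr 1; ring
        · apply mul_le_mul _ _ (mul_nonneg hH0 hH0) (Real.exp_pos _).le
          · have h1 := Real.add_one_le_exp (μ * (R : ℝ) ^ a)
            nlinarith
          · exact mul_le_mul hHle hHle hH0 (Real.exp_pos _).le
    _ = Real.exp ((2 * (C * 2 ^ a) + (μ + (1 + A / a))) * (R : ℝ) ^ a) := by
        rw [← Real.exp_add, ← Real.exp_add, ← Real.exp_add]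
        congr 1
        ring

end Pool.Agent.SwR.Tr
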