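import Pool.Agent.SwP.Good

/-!
# The cut: the last stay of a walk in the set of its dense points is confined
-/

namespace Pool.Agent.SwR

variable [Pool.Agent.SwP.Dim]
set_option maxHeartbeats 400000

open Finset
open scoped Classical
open Pool.Agent.SwP

/-- the number of points of `A` at sup distance less than `R` from `x` -/
noncomputable def nn (A : Word) (x : Pt) (R : ℕ) : ℕ :=
  ((pts A).filter fun p => ∀ k, |p k - x k| < (R : ℤ)).card

/-- the end of `a` is good: few points of `a` are near it, at all scales in `Rs` -/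
def Ge (K : ℕ) (Rs : Finset ℕ) (a : Word) : Prop := ∀ R ∈ Rs, nn a (D a) R < K * R

/-- the word stays in the box of radius `r` -/
def Bx (r : ℕ) (s : Word) : Prop := ∀ p ∈ pts s, ∀ k, |p k| ≤ (r : ℤ)

/-- the sup norm -/
def nrm (x : Pt) : ℕ := univ.sup fun k => (x k).natAbs

theorem nrm_le {x : Pt} {r : ℕ} : nrm x ≤ r ↔ ∀ k, |x k| ≤ (r : ℤ) := by
  unfold nrm
  rw [Finset.sup_le_iff]
  constructor
  · intro h k
    have := h k (mem_univ _)
    rw [Int.abs_eq_natAbs]
    exact_mod_cast this
  · intro h k _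
    have := h k
    rw [Int.abs_eq_natAbs] at this
    exact_mod_cast this

theorem nrm_add_le (x y : Pt) : nrm (x + y) ≤ nrm x + nrm y := by
  rw [nrm_le]
  intro k
  have h1 := (nrm_le (x := x)).1 le_rfl k
  have h2 := (nrm_le (x := y)).1 le_rfl k
  rw [Pi.add_apply]
  push_cast
  exact (abs_add_le _ _).trans (add_le_add h1 h2)

theorem nrm_neg (x : Pt) : nrm (-x) = nrm x := by
  unfold nrm
  congr 1
  funext k
  rw [Pi.neg_apply, Int.natAbs_neg]

theorem nrm_vec_le (s : Step) : nrm (vec s) ≤ 1 := by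
  rw [nrm_le]
  intro k
  exact_mod_cast abs_vec_le s k

/-- double counting: at most `2 |Rs| (N + 1) / K` distances from `e` are taken by dense points -/
theorem stay_card {A : Word} {N K : ℕ} {Rs : Finset ℕ} (hA : A.length ≤ N)
    (hRs : ∀ R ∈ Rs, 1 ≤ R) {e : Pt} {Δ : ℕ} (x : ℕ → Pt) (hx : ∀ j ≤ Δ, nrm (x j - e) = j)
    (hbad : ∀ j ≤ Δ, ∃ R ∈ Rs, K * R ≤ nn A (x j) R) :
    (Δ + 1) * K ≤ 2 * Rs.card * (N + 1) := by
  have h1 : ∀ R ∈ Rs, ((range (Δ + 1)).filter fun j => K * R ≤ nn A (x j) R).card * K ≤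
      2 * (N + 1) := by
    intro R hR
    have hR1 := hRs R hR
    set J := (range (Δ + 1)).filter fun j => K * R ≤ nn A (x j) R with hJ
    have h2 : J.card * (K * R) ≤ ∑ j ∈ J, nn A (x j) R := by
      rw [← smul_eq_mul]
      exact card_nsmul_le_sum _ _ _ fun j hj => (mem_filter.1 hj).2
    have h3 : ∑ j ∈ J, nn A (x j) R ≤ ∑ p ∈ pts A, (2 * R) := by
      unfold nn
      simp_rw [card_filter]
      rw [sum_comm]
      refine sum_le_sum fun p _ => ?_
      rw [← card_filter]
      have h4 : (J.filter fun j => ∀ k, |p k - x j k| < (R : ℤ)) ⊆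
          Ico (nrm (p - e) + 1 - R) (nrm (p - e) + R) := by
        intro j hj
        rw [mem_filter, hJ, mem_filter, mem_range] at hj
        have h5 : nrm (p - x j) ≤ R - 1 := by
          rw [nrm_le]
          intro k
          have := hj.2 k
          rw [Pi.sub_apply]
          omega
        have h6 := hx j (by omega)
        have h7 := nrm_add_le (p - x j) (x j - e)
        have h8 := nrm_add_le (x j - p) (p - e)
        rw [sub_add_sub_cancel] at h7 h8
        have h9 : nrm (x j - p) = nrm (p - x j) := by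
          rw [← nrm_neg, neg_sub]
        rw [mem_Ico]
        omega
      refine (card_le_card h4).trans ?_
      rw [Nat.card_Ico]
      omega
    have h5 : ∑ p ∈ pts A, (2 * R) ≤ (N + 1) * (2 * R) := by
      rw [sum_const, smul_eq_mul]
      exact Nat.mul_le_mul_right _ ((card_pts_le A).trans (by omega))
    have h6 : J.card * K * R ≤ 2 * (N + 1) * R := by
      calc J.card * K * R = J.card * (K * R) := by ring
        _ ≤ (N + 1) * (2 * R) := h2.trans (h3.trans h5)
        _ = 2 * (N + 1) * R := by ring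
    exact Nat.le_of_mul_le_mul_right h6 hR1
  have h2 : range (Δ + 1) ⊆
      Rs.biUnion fun R => (range (Δ + 1)).filter fun j => K * R ≤ nn A (x j) R := by
    intro j hj
    obtain ⟨R, hR, hR2⟩ := hbad j (by rw [mem_range] at hj; omega)
    exact mem_biUnion.2 ⟨R, hR, mem_filter.2 ⟨hj, hR2⟩⟩
  have h3 : Δ + 1 ≤ ∑ R ∈ Rs, ((range (Δ + 1)).filter fun j => K * R ≤ nn A (x j) R).card := by
    have := (card_le_card h2).trans card_biUnion_le
    rwa [card_range] at this
  calc (Δ + 1) * K ≤
      (∑ R ∈ Rs, ((range (Δ + 1)).filter fun j => K * R ≤ nn A (x j) R).card) * K :=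
        Nat.mul_le_mul_right _ h3
    _ = ∑ R ∈ Rs, ((range (Δ + 1)).filter fun j => K * R ≤ nn A (x j) R).card * K := by
        rw [sum_mul]
    _ ≤ ∑ R ∈ Rs, 2 * (N + 1) := sum_le_sum h1
    _ = 2 * Rs.card * (N + 1) := by rw [sum_const, smul_eq_mul]; ring

/-- a path to `e` takes all distances -/
theorem exists_dist {A : Word} {i : ℕ} (hi : i ≤ A.length) :
    ∀ j ≤ nrm (D (A.take i) - D A), ∃ i', i ≤ i' ∧ i' ≤ A.length ∧
      nrm (D (A.take i') - D A) = j := by
  intro j hj
  obtain ⟨n, hn⟩ : ∃ n, A.length = i + n := ⟨A.length - i, by omega⟩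
  induction n generalizing i with
  | zero =>
    refine ⟨i, le_rfl, hi, ?_⟩
    have : A.take i = A := List.take_of_length_le (by omega)
    rw [this, sub_self] at hj ⊢
    have h0 : nrm 0 = 0 := by
      rw [← Nat.le_zero, nrm_le]
      intro k
      simp
    omega
  | succ n ih =>
    rcases hj.lt_or_eq with hlt | heq
    · have hlt' : i < A.length := by omega
      have h1 : A.take (i + 1) = A.take i ++ [A[i]] := by
        rw [List.take_succ_eq_append_getElem hlt']
      have h2 : D (A.take i) - D A = (D (A.take (i + 1)) - D A) + - vec A[i] := by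
        rw [h1, D_append, D_singleton]
        abel
      have h3 := nrm_add_le (D (A.take (i + 1)) - D A) (- vec A[i])
      rw [← h2, nrm_neg] at h3
      have h4 := nrm_vec_le A[i]
      obtain ⟨i', h5, h6, h7⟩ := ih (i := i + 1) hlt' (by omega) (by omega)
      exact ⟨i', by omega, h6, h7⟩
    · exact ⟨i, le_rfl, hi, heq.symm⟩

/-- the final stay in the dense set is confined -/
theorem stay_dist {A : Word} {N K : ℕ} {Rs : Finset ℕ} (hA : A.length ≤ N)
    (hRs : ∀ R ∈ Rs, 1 ≤ R) {i : ℕ} (hi : i ≤ A.length)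
    (hbad : ∀ i', i ≤ i' → i' ≤ A.length → ∃ R ∈ Rs, K * R ≤ nn A (D (A.take i')) R) :
    (nrm (D (A.take i) - D A) + 1) * K ≤ 2 * Rs.card * (N + 1) := by
  choose! f hf1 hf2 hf3 using exists_dist hi
  exact stay_card hA hRs (fun j => D (A.take (f j))) hf3
    fun j hj => hbad _ (hf1 j hj) (hf2 j hj)

theorem nn_mono {A : Word} {a b : Word} (h : A = a ++ b) (x : Pt) (R : ℕ) :
    nn a x R ≤ nn A x R := by
  unfold nn
  refine card_le_card (filter_subset_filter _ ?_)
  rw [h, pts_append]
  exact subset_union_left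

/-- the decomposition of a walk into a walk with good end and a confined walk -/
theorem exists_cut {A : Word} {N K r : ℕ} {Rs : Finset ℕ} (hA : A.length ≤ N) (hK : 2 ≤ K)
    (hRs : ∀ R ∈ Rs, 1 ≤ R) (hr : 4 * Rs.card * (N + 1) ≤ K * r) :
    ∃ a s : Word, A = a ++ s ∧ Ge K Rs a ∧ Bx (r + 1) s := by
  set G : Finset ℕ := (range (A.length + 1)).filter
    fun i => ∀ R ∈ Rs, nn A (D (A.take i)) R < K * R with hG
  -- the last good time, or `0`
  obtain ⟨i0, hi0, hge, hlast⟩ : ∃ i0 ≤ A.length, Ge K Rs (A.take i0) ∧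
      ∀ i', i0 < i' → i' ≤ A.length → ∃ R ∈ Rs, K * R ≤ nn A (D (A.take i')) R := by
    by_cases hne : G.Nonempty
    · refine ⟨G.max' hne, ?_, ?_, ?_⟩
      · have := (mem_filter.1 (G.max'_mem hne)).1
        rw [mem_range] at this
        omega
      · intro R hR
        refine lt_of_le_of_lt ?_ ((mem_filter.1 (G.max'_mem hne)).2 R hR)
        exact nn_mono (List.take_append_drop _ A).symm _ _
      · intro i' h1 h2
        by_contra hcon
        push Not at hcon
        have : i' ∈ G := mem_filter.2 ⟨by rw [mem_range]; omega, hcon⟩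
        have := G.le_max' _ this
        omega
    · refine ⟨0, Nat.zero_le _, ?_, ?_⟩
      · intro R hR
        have h1 : nn (A.take 0) (D (A.take 0)) R ≤ 1 := by
          unfold nn
          refine (card_filter_le _ _).trans ?_
          have := card_pts_le (A.take 0)
          simpa using this
        have := hRs R hR
        nlinarith
      · intro i' _ h2
        by_contra hcon
        push Not at hcon
        exact hne ⟨i', mem_filter.2 ⟨by rw [mem_range]; omega, hcon⟩⟩
  have hK0 : 0 < K := by omega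
  have key : ∀ i', i0 < i' → i' ≤ A.length → 2 * (nrm (D (A.take i') - D A) + 1) ≤ r := by
    intro i' h1 h2
    have h3 := stay_dist (K := K) hA hRs h2 fun i'' h4 h5 => hlast i'' (by omega) h5
    have h4 : K * (2 * (nrm (D (A.take i') - D A) + 1)) ≤ K * r := by
      refine le_trans ?_ hr
      nlinarith
    exact Nat.le_of_mul_le_mul_left h4 hK0
  refine ⟨A.take i0, A.drop i0, (List.take_append_drop _ _).symm, hge, ?_⟩
  intro p hp
  obtain ⟨u, v, huv, rfl⟩ := mem_pts.1 hp
  rw [← nrm_le]
  rcases eq_or_ne u [] with rfl | hu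
  · rw [D_nil]
    have : nrm 0 = 0 := by
      rw [← Nat.le_zero, nrm_le]
      intro k
      simp
    omega
  have hlen : (A.drop i0).length = A.length - i0 := List.length_drop
  have hlu : 0 < u.length := List.length_pos_of_ne_nil hu
  have hle : u.length ≤ A.length - i0 := by
    rw [← hlen, huv, List.length_append]; omega
  have htake : A.take (i0 + u.length) = A.take i0 ++ u := by
    rw [List.take_add, huv]
    simp
  have h1 := key (i0 + u.length) (by omega) (by omega)
  -- the first step
  have h2 := key (i0 + 1) (by omega) (by omega)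
  have hlt : i0 < A.length := by omega
  have h3 : A.take (i0 + 1) = A.take i0 ++ [A[i0]] := by
    rw [List.take_succ_eq_append_getElem hlt]
  have h4 : D u = (D (A.take (i0 + u.length)) - D A) +
      (- (D (A.take (i0 + 1)) - D A) + vec A[i0]) := by
    rw [htake, h3, D_append, D_append, D_singleton]
    abel
  have h5 := nrm_add_le (D (A.take (i0 + u.length)) - D A)
    (- (D (A.take (i0 + 1)) - D A) + vec A[i0])
  have h6 := nrm_add_le (- (D (A.take (i0 + 1)) - D A)) (vec A[i0])
  have h7 := nrm_vec_le A[i0]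
  rw [nrm_neg] at h6
  rw [← h4] at h5
  omega

/-- THE CUT -/
theorem cut {x : ℝ} (hx : 0 ≤ x) {N K r : ℕ} {Rs : Finset ℕ} (hK : 2 ≤ K)
    (hRs : ∀ R ∈ Rs, 1 ≤ R) (hr : 4 * Rs.card * (N + 1) ≤ K * r) :
    ∑ w ∈ (wle N).filter saw, x ^ w.length ≤
      (∑ a ∈ (wle N).filter (fun a => saw a ∧ Ge K Rs a), x ^ a.length) *
        ∑ s ∈ (wle N).filter (fun s => saw s ∧ Bx (r + 1) s), x ^ s.length := by
  rw [sum_mul_sum, ← sum_product']
  have hex : ∀ w ∈ (wle N).filter saw, ∃ p : Word × Word, w = p.1 ++ p.2 ∧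
      p ∈ (wle N).filter (fun a => saw a ∧ Ge K Rs a) ×ˢ
        (wle N).filter (fun s => saw s ∧ Bx (r + 1) s) := by
    intro w hw
    rw [mem_filter, mem_wle] at hw
    obtain ⟨a, s, h1, h2, h3⟩ := exists_cut hw.1 hK hRs hr
    refine ⟨(a, s), h1, ?_⟩
    have h4 : w.length = a.length + s.length := by rw [h1, List.length_append]
    have h5 := hw.2
    rw [h1] at h5
    rw [mem_product, mem_filter, mem_filter, mem_wle, mem_wle]
    exact ⟨⟨by simp only; omega, h5.left, h2⟩, by simp only; omega, h5.right, h3⟩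
  choose! i hi1 hi2 using hex
  refine sum_le_of_inj i hi2 ?_ ?_ ?_
  · intro w hw w' hw' h
    rw [hi1 w hw, hi1 w' hw', h]
  · intro w hw
    rw [← pow_add, ← List.length_append, ← hi1 w hw]
  · intro p _
    exact mul_nonneg (pow_nonneg hx _) (pow_nonneg hx _)

end Pool.Agent.SwR
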