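import Pool.Agent.SwR.FrAsm

/-! Free blocks of cost `C m` in the bad case, at every scale `m ^ i`, `i + 1 ≤ g`. -/

namespace Pool.Agent.SwR

variable [Pool.Agent.SwP.Dim]

open Finset Filter
open scoped Classical
open Pool.Agent.SwP Pool.Agent.SwX

private theorem bk9_log {m : ℝ} (hm : 1 ≤ m) (d : ℕ) :
    Real.log (3 * m ^ d + 3) ^ 2 ≤ (2 + 2 * (d : ℝ)) ^ 2 * m := by
  have hm0 : 0 < m := by linarith
  have hmd : 1 ≤ m ^ d := one_le_pow₀ hm
  have hs : 1 ≤ Real.sqrt m := by rwa [Real.one_le_sqrt]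
  have h0 : 0 ≤ Real.log (3 * m ^ d + 3) := Real.log_nonneg (by linarith)
  have h6 : Real.log 6 ≤ 2 := by
    have h1 : (6 : ℝ) ≤ Real.exp 2 := by
      have h2 := Real.exp_one_gt_d9
      have h3 : Real.exp 2 = Real.exp 1 * Real.exp 1 := by
        rw [← Real.exp_add]; norm_num
      rw [h3]
      nlinarith
    calc Real.log 6 ≤ Real.log (Real.exp 2) := Real.log_le_log (by norm_num) h1
      _ = 2 := Real.log_exp 2
  have h1 : Real.log (3 * m ^ d + 3) ≤ Real.log 6 + d * Real.log m := by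
    rw [← Real.log_pow, ← Real.log_mul (by norm_num) (by positivity)]
    exact Real.log_le_log (by positivity) (by linarith)
  have h2 : Real.log m ≤ 2 * Real.sqrt m := by
    have h3 : Real.log m = 2 * Real.log (Real.sqrt m) := by
      rw [Real.log_sqrt hm0.le]; ring
    have h4 := Real.log_le_sub_one_of_pos (Real.sqrt_pos.2 hm0)
    rw [h3]
    linarith
  have h5 : Real.log (3 * m ^ d + 3) ≤ (2 + 2 * (d : ℝ)) * Real.sqrt m := by
    have hd : (0 : ℝ) ≤ d := Nat.cast_nonneg d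
    calc Real.log (3 * m ^ d + 3) ≤ Real.log 6 + d * Real.log m := h1
      _ ≤ 2 * Real.sqrt m + d * (2 * Real.sqrt m) := by
          refine add_le_add ?_ (mul_le_mul_of_nonneg_left h2 hd)
          linarith
      _ = _ := by ring
  calc Real.log (3 * m ^ d + 3) ^ 2 ≤ ((2 + 2 * (d : ℝ)) * Real.sqrt m) ^ 2 :=
        pow_le_pow_left₀ h0 h5 2
    _ = (2 + 2 * (d : ℝ)) ^ 2 * m := by rw [mul_pow, Real.sq_sqrt hm0.le]

/-- **blocks of cost `C m`** of every scale `m ^ i`, `i + 1 ≤ g`, in the bad case -/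
theorem blk9 {μ : ℝ} (hμ : 1 ≤ μ) (hb : ∀ n, ((brs n).card : ℝ) ≤ μ ^ n) {d g : ℕ}
    (_hg : 1 ≤ g) (hgd : 2 * g ≤ d) : ∃ C : ℝ, 0 < C ∧ ∀ᶠ m : ℕ in atTop, Bad μ d g m →
      ∀ i, i + 1 ≤ g → ∃ h l J B, Blk μ⁻¹ (m ^ d) (m ^ i) h l J B ∧
        J ≤ C * (m : ℝ) ∧ l ≤ 4 * m ^ (i + (d - 2 * g + 2)) := by
  have hlogμ : 0 ≤ Real.log μ := Real.log_nonneg hμ
  refine ⟨((Dim.k : ℝ) + 2) * (40 + 4 * Real.log μ) * (2 + 2 * (d : ℝ)) ^ 2, by positivity, ?_⟩
  filter_upwards [eventually_ge_atTop 3] with m hm hbad i hi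
  obtain ⟨h, B, hB⟩ := blk_free hμ hb hgd hm hbad hi
  refine ⟨h, _, _, B, hB, ?_, ?_⟩
  · have hm1 : (1 : ℝ) ≤ m := by
      have : 1 ≤ m := by omega
      exact_mod_cast this
    rw [mul_assoc (((Dim.k : ℝ) + 2) * (40 + 4 * Real.log μ))]
    exact mul_le_mul_of_nonneg_left (bk9_log hm1 d) (by positivity)
  · exact Nat.mul_le_mul_right _ (by norm_num)

end Pool.Agent.SwR
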