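import Pool.Agent.SwP.Good

/-!
# R19: self-avoiding walks of small height: definitions

Words, displacements, bridges as in `Pool.Agent.SwP`. Height = coordinate `0`.
-/

set_option autoImplicit false

namespace Pool.Agent.SwR

variable [Pool.Agent.SwP.Dim]

open Finset Filter
open scoped Classical
open Pool.Agent.SwP

/-- reflection in the height -/
def fl (w : Word) : Word := w.map (refl 0).g

/-- pieces: irreducible bridges -/
def Ir (w : Word) : Prop :=
  Br w ∧ w ≠ [] ∧ ∀ a b : Word, w = a ++ b → Br a → Br b → a = [] ∨ b = []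

/-- the pieces of length at most `L` -/
noncomputable def irs (L : ℕ) : Finset Word := (wle L).filter Ir

/-- mass of the pieces of length at most `L` -/
noncomputable def Ph (x : ℝ) (L : ℕ) : ℝ := ∑ w ∈ irs L, x ^ w.length

/-! ### strands -/

/-- concatenation of the first `j` words of a sequence -/
def pre (E : ℕ → Word) (j : ℕ) : Word := ((List.range j).map E).flatten

/-- the sequence from place `j` on -/
def shf (j : ℕ) (E : ℕ → Word) : ℕ → Word := fun i => E (j + i)

/-- the first `j` words of a sequence -/
def ini (j : ℕ) (E : ℕ → Word) : ℕ → Word := fun i => if i < j then E i else []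

/-- strands: sequences of `K` pieces of length at most `L` -/
noncomputable def Sd (L K : ℕ) : Finset (ℕ → Word) :=
  (Fintype.piFinset fun _ : Fin K => irs L).image fun v i => if h : i < K then v ⟨i, h⟩ else []

/-- weight of a strand of `K` pieces -/
noncomputable def wt (x : ℝ) (K : ℕ) (E : ℕ → Word) : ℝ := ∏ i ∈ range K, x ^ (E i).length

/-! ### triples of legs -/

/-- triples of legs `a` (up), `b` (down, `fl b`), `c` (up) of decreasing heights, the first one
of height `s` -/
noncomputable def TA (L s : ℕ) : Finset (Word × Word × Word) :=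
  (wle L ×ˢ (wle L ×ˢ wle L)).filter fun t =>
    Br t.1 ∧ Br t.2.1 ∧ Br t.2.2 ∧ D t.1 0 = (s : ℤ) ∧ D t.2.1 0 < (s : ℤ) ∧
      D t.2.2 0 < D t.2.1 0 ∧ 0 < D t.2.2 0 ∧ saw (t.1 ++ (fl t.2.1 ++ t.2.2))

/-- narrow triples: heights within `g` -/
noncomputable def TN (L s g : ℕ) : Finset (Word × Word × Word) :=
  (TA L s).filter fun t => (s : ℤ) - g ≤ D t.2.2 0

/-- weight of a triple -/
noncomputable def w3 (x : ℝ) (t : Word × Word × Word) : ℝ :=
  x ^ (t.1.length + (t.2.1.length + t.2.2.length))

/-- mass of the narrow triples -/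
noncomputable def XX (x : ℝ) (L s g : ℕ) : ℝ := ∑ t ∈ TN L s g, w3 x t

/-- the points on the way up from the bottom corner: leg `b` -/
noncomputable def Pb (b : Word) : Finset Pt := pts (rv (fl b))

/-- the points of leg `a`, seen from the bottom corner -/
noncomputable def Pa (a b : Word) : Finset Pt := tr (D (rv (fl b))) (pts (rv a))

/-- mass of the extensions `E` by `k` pieces with property `P` of the word `pre E k` -/
noncomputable def em (x : ℝ) (L k : ℕ) (P : Word → Prop) : ℝ :=
  ∑ E ∈ (Sd L k).filter (fun E => P (pre E k)), wt x k E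

end Pool.Agent.SwR
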