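import Pool.Agent.SwX.Fin
import Pool.Agent.SwR.Cut

/-!
# The end of the proof: from the exits of the walks with a good end, the slab theorem and the cut
to `c_n ≤ μ ^ n exp (C n ^ f)`
-/

namespace Pool.Agent.SwR

variable [Pool.Agent.SwP.Dim]
set_option maxHeartbeats 1000000

open Finset Filter
open scoped Classical
open Pool.Agent.SwP Pool.Agent.SwX

/-- the scales -/
noncomputable def Rs9 (d m : ℕ) : Finset ℕ := (range (d + 1)).image fun i => m ^ i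

/-- exits of the walks with a good end; the target of the exit rows -/
def EX (μ : ℝ) (d g e m : ℕ) (C : ℝ) : Prop := ∀ A : Word, A.length ≤ m ^ d → saw A →
  Ge (m ^ ((Dim.k + 1) * g)) (Rs9 d m) A →
  ∃ G ⊆ Om (KK d g) (fun j => m ^ (g + j / dd)),
    (Om (KK d g) (fun j => m ^ (g + j / dd))).card ≤ 4 * G.card ∧
    ∀ ω ∈ G, ∃ Z : Law, (∀ i, Gw (bk A) ω (KK d g) (Z.f i)) ∧
      (∀ i, (Z.f i).length ≤ m ^ d / 4) ∧
      (∀ i, ((pts (Z.f i) ∩ bk A).card : ℝ) ≤ C * (m : ℝ) ^ (g + e)) ∧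
      Dom μ⁻¹ (m ^ d) Z (Real.exp (C * (m : ℝ) ^ (g + e + 1)))

/-- the slab theorem with exponent `θ` -/
def Slab (μ θ : ℝ) : Prop := ∀ (A : ℕ) (a : ℝ), θ < a → ∃ C : ℝ, 0 < C ∧ ∀ R L : ℕ, 1 ≤ R →
  L ≤ R ^ A → ∑ w ∈ (wle L).filter (fun w => saw w ∧ ∀ p ∈ pts w, ∀ q ∈ pts w,
    p 0 - q 0 ≤ (R : ℤ)), μ⁻¹ ^ w.length ≤ Real.exp (C * (R : ℝ) ^ a)

/-- arithmetic of the parameters -/
structure Par9 (a : ℝ) (e d g : ℕ) : Prop where
  h1 : 2 * d + 20 * dd ≤ (2 * dd + 1) * g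
  h2 : 2 * g + 10 ≤ d
  h2' : (Dim.k + 1) * g + 10 ≤ d
  h3 : a * ((d : ℝ) - (Dim.k + 1) * g + 2) ≤ g
  h4 : 2 * (g + e + 1) ≤ d

theorem Par9.arith {a : ℝ} {e d g : ℕ} (hp : Par9 a e d g) : 2 * d ≤ g + dd * X0 d g ∧
    g ≤ X0 d g := by
  have q1 := hp.h1
  have q2 := hp.h2
  have q3 := hp.h2'
  unfold X0
  constructor
  · have h1 := Nat.div_add_mod (2 * d - g + (Dim.k + 1)) dd
    have h2 := Nat.mod_lt (2 * d - g + (Dim.k + 1)) (show dd > 0 by simp only [dd]; omega)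
    simp only [dd] at h1 h2 ⊢
    omega
  · rw [Nat.le_div_iff_mul_le (show 0 < dd by simp only [dd]; omega)]
    have e : g * dd = (Dim.k + 1) * g + g := by simp only [dd]; ring
    omega

/-- the mass of the walks of length `k` with a good end -/
theorem good_pairs {μ : ℝ} (hμ : 1 ≤ μ) (hb : ∀ n, ((brs n).card : ℝ) ≤ μ ^ n) {a : ℝ}
    {e d g : ℕ} (hp : Par9 a e d g) {C1 : ℝ} (hC1 : 0 < C1) :
    ∃ C : ℝ, 0 ≤ C ∧ ∀ᶠ m : ℕ in atTop, EX μ d g e m C1 → ∀ k ≤ m ^ d,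
      (((walks k).filter (Ge (m ^ ((Dim.k + 1) * g)) (Rs9 d m))).card : ℝ) * μ⁻¹ ^ k ≤
        Real.exp ((FF μ (3 * m ^ d) + C * (m : ℝ) ^ (g + e + 1)) / 2) := by
  have hμ0 : 0 < μ := by linarith
  have hlμ : 0 ≤ Real.log μ := Real.log_nonneg hμ
  obtain ⟨p1, p2⟩ := hp.arith
  have q1 := hp.h1
  have q2 := hp.h2
  set C6 := 2 * C1 + 48 with hC6
  have hC6' : 0 < C6 := by positivity
  set C7 := 8 + 4 * d + 2 * Real.log μ with hC7
  have hC7' : 0 < C7 := by positivity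
  set C8 := 2 + 2 * C1 + (d + 1) with hC8
  have hC8' : 0 < C8 := by positivity
  refine ⟨C8 + 2 * C6 * C7 + 2 * (d + 1), by positivity, ?_⟩
  filter_upwards [eventually_ge_atTop 6] with m hm6 hEX k hk
  have hm1 : (1 : ℝ) ≤ m := by
    have : 1 ≤ m := by omega
    exact_mod_cast this
  have hm6' : (6 : ℝ) ≤ m := by exact_mod_cast hm6
  have hm0 : (0 : ℝ) < m := by linarith
  have hls := log_succ_le (m := m) (d := d) (by omega)
  have hgm1 : (m : ℝ) ≤ (m : ℝ) ^ (g + e + 1) := by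
    calc (m : ℝ) = (m : ℝ) ^ 1 := (pow_one _).symm
      _ ≤ (m : ℝ) ^ (g + e + 1) := pow_le_pow_right₀ hm1 (by omega)
  -- choice of the number of repetitions
  set hh' := ⌊2 * (C6 * (m : ℝ) ^ (g + e))⌋₊ with hhh
  have hfl : (hh' : ℝ) ≤ 2 * (C6 * (m : ℝ) ^ (g + e)) := Nat.floor_le (by positivity)
  have hfl2 : 2 * (C6 * (m : ℝ) ^ (g + e)) ≤ hh' + 1 := (Nat.lt_floor_add_one _).le
  have hlogQ : Real.log (1 + (((3 * m ^ d : ℕ) : ℝ) + 1) ^ 4 * μ ^ 2) ≤ C7 * m := by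
    have h1 : (1 : ℝ) ≤ (m : ℝ) ^ d := one_le_pow₀ hm1
    have h2 : ((3 * m ^ d : ℕ) : ℝ) + 1 ≤ 4 * (m : ℝ) ^ d := by push_cast; linarith
    have h3 : (((3 * m ^ d : ℕ) : ℝ) + 1) ^ 4 ≤ (4 * (m : ℝ) ^ d) ^ 4 :=
      pow_le_pow_left₀ (by positivity) h2 4
    have h4 : 1 ≤ (4 * (m : ℝ) ^ d) ^ 4 * μ ^ 2 := by
      have h5 : 1 ≤ (4 * (m : ℝ) ^ d) ^ 4 := one_le_pow₀ (by linarith)
      have h6 : 1 ≤ μ ^ 2 := one_le_pow₀ hμ
      nlinarith
    have h5 : 1 + (((3 * m ^ d : ℕ) : ℝ) + 1) ^ 4 * μ ^ 2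
        ≤ 2 * ((4 * (m : ℝ) ^ d) ^ 4 * μ ^ 2) := by
      have := mul_le_mul_of_nonneg_right h3 (by positivity : (0 : ℝ) ≤ μ ^ 2)
      linarith
    refine (Real.log_le_log (by positivity) h5).trans ?_
    rw [Real.log_mul (by norm_num) (by positivity), Real.log_mul (by positivity) (by positivity),
      Real.log_pow, Real.log_pow, Real.log_mul (by norm_num) (by positivity), Real.log_pow]
    have hl2 := Real.log_two_lt_d9
    have hl4 : Real.log 4 = 2 * Real.log 2 := by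
      rw [show (4 : ℝ) = 2 ^ 2 by norm_num, Real.log_pow]; norm_num
    have hlm := log_cast_le (m := m) (by omega)
    have h6 : (d : ℝ) * Real.log m ≤ d * m := mul_le_mul_of_nonneg_left hlm (Nat.cast_nonneg _)
    have h7 : Real.log μ ≤ Real.log μ * m := le_mul_of_one_le_right hlμ hm1
    push_cast
    have e3 : C7 * (m : ℝ) = 8 * m + 4 * (d * m) + 2 * (Real.log μ * m) := by rw [hC7]; ring
    rw [hl4, e3]
    linarith
  have hlogL : Real.log (((3 * m ^ d : ℕ) : ℝ) + 1) ≤ 2 * (d + 1) * (m : ℝ) ^ (g + e + 1) := by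
    have h1 : (1 : ℝ) ≤ (m : ℝ) ^ d := one_le_pow₀ hm1
    have h2 : ((3 * m ^ d : ℕ) : ℝ) + 1 ≤ (((m ^ d : ℕ) : ℝ) + 1) ^ 2 := by
      push_cast
      nlinarith
    have h3 := Real.log_le_log (by positivity) h2
    rw [Real.log_pow] at h3
    push_cast at h3 hls ⊢
    have h5 : (d + 1 : ℝ) * m ≤ (d + 1) * (m : ℝ) ^ (g + e + 1) :=
      mul_le_mul_of_nonneg_left hgm1 (by positivity)
    linarith
  -- the parameters of the joint
  set K := KK d g with hK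
  set R : ℕ → ℕ := fun j => m ^ (g + j / dd) with hR
  have hK3 : dd ≤ K := by
    rw [hK]
    unfold KK
    exact Nat.le_mul_of_pos_right _ (by omega)
  have hRpos : ∀ j, 1 ≤ R j := fun j => Nat.one_le_pow _ _ (by omega)
  have hRprod : ∏ i ∈ Ico (K - dd) K, ((R i : ℕ) : ℝ) = (m : ℝ) ^ (dd * X0 d g) := by
    have h1 : ∀ i ∈ Ico (K - dd) K, ((R i : ℕ) : ℝ) = (m : ℝ) ^ X0 d g := by
      intro i hi
      rw [mem_Ico] at hi
      have h2 : i / dd = X0 d g - g := by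
        rw [Nat.div_eq_iff (show 0 < dd by simp only [dd]; omega)]
        have e1 : K = dd * (X0 d g - g) + dd := by rw [hK]; unfold KK; ring
        have e2 : (X0 d g - g) * dd = dd * (X0 d g - g) := mul_comm _ _
        have e3 : 0 < dd := by simp only [dd]; omega
        omega
      simp only [hR]
      rw [h2]
      push_cast
      congr 1
      omega
    rw [prod_congr rfl h1, prod_const, Nat.card_Ico, ← pow_mul]
    congr 1
    have : K - (K - dd) = dd := by omega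
    rw [this, mul_comm]
  set M : ℝ := Real.exp (C1 * (m : ℝ) ^ (g + e + 1)) with hM
  have hM0 : 0 < M := Real.exp_pos _
  set MW : ℝ := M * M * (((m ^ d : ℕ) : ℝ) + 1) with hMW
  have hMW0 : 0 < MW := by positivity
  have hlogMW : Real.log (2 * MW) ≤ C8 * (m : ℝ) ^ (g + e + 1) := by
    rw [hMW, Real.log_mul (by norm_num) (by positivity),
      Real.log_mul (by positivity) (by positivity), Real.log_mul hM0.ne' hM0.ne', hM, Real.log_exp]
    have hl2 := Real.log_two_lt_d9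
    have h1 : (1 : ℝ) ≤ (m : ℝ) ^ (g + e + 1) := one_le_pow₀ hm1
    have h2 : (d + 1 : ℝ) * m ≤ (d + 1) * (m : ℝ) ^ (g + e + 1) :=
      mul_le_mul_of_nonneg_left hgm1 (by positivity)
    have e3 : C8 * (m : ℝ) ^ (g + e + 1) = 2 * (m : ℝ) ^ (g + e + 1) +
        2 * (C1 * (m : ℝ) ^ (g + e + 1)) + (d + 1) * (m : ℝ) ^ (g + e + 1) := by rw [hC8]; ring
    rw [e3]
    linarith
  set η := ⌊C1 * (m : ℝ) ^ (g + e)⌋₊ with hη
  have hη1 : (η : ℝ) ≤ C1 * (m : ℝ) ^ (g + e) := Nat.floor_le (by positivity)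
  set Rs : Finset ℕ := Rs9 d m with hRs
  have hexits : ∀ A : Word, A.length ≤ m ^ d → saw A → Ge (m ^ ((Dim.k + 1) * g)) Rs A →
      ∃ G ⊆ Om K R, (Om K R).card ≤ 4 * G.card ∧
        ∀ ω ∈ G, ∃ Z : Law, (∀ i, Gw (bk A) ω K (Z.f i)) ∧
          (∀ i, (Z.f i).length ≤ m ^ d / 4) ∧
          (∀ i, (pts (Z.f i) ∩ bk A).card ≤ η) ∧ Dom μ⁻¹ (m ^ d) Z M := by
    intro A hA hsA hG
    obtain ⟨G, g1, g2, g3⟩ := hEX A hA hsA hG
    refine ⟨G, g1, g2, fun ω hω => ?_⟩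
    obtain ⟨Z, z1, z2, z3, z4⟩ := g3 ω hω
    refine ⟨Z, z1, z2, fun i => ?_, z4⟩
    exact Nat.le_floor (z3 i)
  have hnum : 2 * (η : ℝ) + 12 * (((m ^ d : ℕ) : ℝ) + 1) ^ 2 /
      (∏ i ∈ Ico (K - dd) K, ((R i : ℕ) : ℝ)) ≤ C6 * (m : ℝ) ^ (g + e) := by
    rw [hRprod]
    have h1 : ((m ^ d : ℕ) : ℝ) + 1 ≤ 2 * (m : ℝ) ^ d := by
      push_cast
      have : 1 ≤ (m : ℝ) ^ d := one_le_pow₀ hm1
      linarith
    have h2 : (((m ^ d : ℕ) : ℝ) + 1) ^ 2 ≤ 4 * (m : ℝ) ^ (2 * d) := by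
      calc (((m ^ d : ℕ) : ℝ) + 1) ^ 2 ≤ (2 * (m : ℝ) ^ d) ^ 2 :=
            pow_le_pow_left₀ (by positivity) h1 2
        _ = _ := by rw [mul_pow, ← pow_mul, mul_comm d 2]; norm_num
    have h3 : 12 * (((m ^ d : ℕ) : ℝ) + 1) ^ 2 / (m : ℝ) ^ (dd * X0 d g) ≤
        48 * (m : ℝ) ^ (g + e) := by
      rw [div_le_iff₀ (by positivity), mul_assoc, ← pow_add]
      have h4 : (m : ℝ) ^ (2 * d) ≤ (m : ℝ) ^ (g + e + dd * X0 d g) :=
        pow_le_pow_right₀ hm1 (by omega)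
      linarith
    have e3 : C6 * (m : ℝ) ^ (g + e) = 2 * (C1 * (m : ℝ) ^ (g + e)) + 48 * (m : ℝ) ^ (g + e) := by
      rw [hC6]; ring
    rw [e3]
    linarith
  -- conclusion
  set GG := (walks k).filter (Ge (m ^ ((Dim.k + 1) * g)) Rs) with hGG
  set HH := (walks k).filter (fun B => Ge (m ^ ((Dim.k + 1) * g)) Rs B.reverse) with hHH
  have hcardH : HH.card = GG.card := fi1_card_reverse k (Ge (m ^ ((Dim.k + 1) * g)) Rs)
  have h2 : ((GG.card : ℝ) * μ⁻¹ ^ k) * ((HH.card : ℝ) * μ⁻¹ ^ k)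
      ≤ 2 * MW * TT μ⁻¹ hh' (2 * k + m ^ d) := by
    refine join_pairs (by positivity : 0 < μ⁻¹) (filter_subset _ _) (filter_subset _ _)
      hMW0.le ?_
    intro A hA B hB
    rw [mem_filter] at hA
    rw [mem_filter] at hB
    have lA : A.length ≤ m ^ d := by rw [(mem_walks.1 hA.1).1]; exact hk
    have lB : B.reverse.length ≤ m ^ d := by
      rw [List.length_reverse, (mem_walks.1 hB.1).1]; exact hk
    obtain ⟨G₁, a1, a2, a3⟩ := hexits A lA (mem_walks.1 hA.1).2 hA.2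
    obtain ⟨G₂, b1, b2, b3⟩ := hexits B.reverse lB (fi1_saw_reverse (mem_walks.1 hB.1).2) hB.2
    obtain ⟨W, w1, w2, w3⟩ := joint (by positivity : 0 < μ⁻¹) hRpos hK3 hA.1 hB.1 a1 b1 a2 b2
      hM0.le a3 b3 hk (Nat.div_le_self _ _)
    refine ⟨W, fun i => (w1 i).trans (by omega), w2, w3.trans ?_⟩
    have h3 : 2 * (η : ℝ) + 12 * (((m ^ d : ℕ) : ℝ) + 1) ^ 2 /
      (∏ i ∈ Ico (K - dd) K, ((R i : ℕ) : ℝ)) ≤ ((hh' : ℝ) + 1) / 2 := by
      refine hnum.trans ?_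
      rw [le_div_iff₀ (by norm_num)]
      linarith
    exact h3
  have h3 := TT_le hμ hb hh' (2 * k + m ^ d)
  have h4 := TT_zero_le hμ (2 * k + m ^ d)
  have hle : 2 * k + m ^ d ≤ 3 * m ^ d := by omega
  have h5 : TT μ⁻¹ hh' (2 * k + m ^ d) ≤ (1 + (((3 * m ^ d : ℕ) : ℝ) + 1) ^ 4 * μ ^ 2) ^ hh'
      * ((((3 * m ^ d : ℕ) : ℝ) + 1) * Real.exp (FF μ (3 * m ^ d))) := by
    have hle' : ((2 * k + m ^ d : ℕ) : ℝ) ≤ ((3 * m ^ d : ℕ) : ℝ) := by exact_mod_cast hle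
    refine h3.trans (mul_le_mul ?_ (h4.trans ?_) (TT_nonneg (by positivity) _ _) (by positivity))
    · refine pow_le_pow_left₀ (by positivity) ?_ _
      have h6 : (((2 * k + m ^ d : ℕ) : ℝ) + 1) ^ 4 ≤ (((3 * m ^ d : ℕ) : ℝ) + 1) ^ 4 :=
        pow_le_pow_left₀ (by positivity) (by linarith) 4
      have := mul_le_mul_of_nonneg_right h6 (by positivity : (0 : ℝ) ≤ μ ^ 2)
      linarith
    · exact mul_le_mul (by linarith) (Real.exp_le_exp.2 (FF_mono μ hle)) (Real.exp_pos _).le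
        (by positivity)
  rw [hcardH] at h2
  have h6 : ((GG.card : ℝ) * μ⁻¹ ^ k) ^ 2 ≤ 2 * MW *
      ((1 + (((3 * m ^ d : ℕ) : ℝ) + 1) ^ 4 * μ ^ 2) ^ hh'
      * ((((3 * m ^ d : ℕ) : ℝ) + 1) * Real.exp (FF μ (3 * m ^ d)))) := by
    rw [sq]
    exact h2.trans (mul_le_mul_of_nonneg_left h5 (by positivity : 0 ≤ 2 * MW))
  have hA : (0 : ℝ) < 1 + (((3 * m ^ d : ℕ) : ℝ) + 1) ^ 4 * μ ^ 2 := by positivity
  have hB : (0 : ℝ) < ((3 * m ^ d : ℕ) : ℝ) + 1 := by positivity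
  have h8 : (hh' : ℝ) * Real.log (1 + (((3 * m ^ d : ℕ) : ℝ) + 1) ^ 4 * μ ^ 2)
      ≤ 2 * C6 * C7 * (m : ℝ) ^ (g + e + 1) := by
    calc (hh' : ℝ) * Real.log (1 + (((3 * m ^ d : ℕ) : ℝ) + 1) ^ 4 * μ ^ 2)
        ≤ hh' * (C7 * m) := mul_le_mul_of_nonneg_left hlogQ (Nat.cast_nonneg _)
      _ ≤ (2 * (C6 * (m : ℝ) ^ (g + e))) * (C7 * m) :=
          mul_le_mul_of_nonneg_right hfl (by positivity)
      _ = _ := by rw [pow_succ]; ring
  have h9 : 2 * MW * ((1 + (((3 * m ^ d : ℕ) : ℝ) + 1) ^ 4 * μ ^ 2) ^ hh'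
      * ((((3 * m ^ d : ℕ) : ℝ) + 1) * Real.exp (FF μ (3 * m ^ d)))) ≤
      Real.exp (FF μ (3 * m ^ d) + (C8 + 2 * C6 * C7 + 2 * (d + 1)) * (m : ℝ) ^ (g + e + 1)) := by
    rw [← Real.log_le_iff_le_exp (by positivity), fi1_log_prod (by positivity) hA hB]
    have e2 : (C8 + 2 * C6 * C7 + 2 * (d + 1)) * (m : ℝ) ^ (g + e + 1) =
        C8 * (m : ℝ) ^ (g + e + 1) + 2 * C6 * C7 * (m : ℝ) ^ (g + e + 1) +
        2 * (d + 1) * (m : ℝ) ^ (g + e + 1) := by ring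
    rw [e2]
    linarith
  refine abs_le_of_sq_le_sq' ?_ (Real.exp_pos _).le |>.2
  refine (h6.trans h9).trans (le_of_eq ?_)
  rw [← Real.exp_nat_mul]
  congr 1
  push_cast
  ring

/-- the mass of the confined walks -/
theorem box_le {μ : ℝ} (hμ : 1 ≤ μ) {θ a : ℝ} (hS : Slab μ θ) (ha : θ < a)
    {e d g : ℕ} (hp : Par9 a e d g) : ∃ C : ℝ, 0 < C ∧ ∀ᶠ m : ℕ in atTop,
      ∑ s ∈ (wle (m ^ d)).filter (fun s => saw s ∧ Bx (m ^ (d - (Dim.k + 1) * g + 1) + 1) s),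
        μ⁻¹ ^ s.length ≤ Real.exp (C * (m : ℝ) ^ g) := by
  have hμ0 : 0 < μ := by linarith
  have q2 := hp.h2
  have q2' := hp.h2'
  obtain ⟨C, hC, h⟩ := hS d a ha
  refine ⟨C, hC, ?_⟩
  filter_upwards [eventually_ge_atTop 4] with m hm
  have hm1 : (1 : ℝ) ≤ m := by
    have : 1 ≤ m := by omega
    exact_mod_cast this
  have h1 : 1 ≤ m ^ (d - (Dim.k + 1) * g + 2) := Nat.one_le_pow _ _ (by omega)
  have h2 : m ^ d ≤ (m ^ (d - (Dim.k + 1) * g + 2)) ^ d := by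
    refine Nat.pow_le_pow_left ?_ d
    exact Nat.le_self_pow (by omega) m
  refine le_trans ?_ ((h (m ^ (d - (Dim.k + 1) * g + 2)) (m ^ d) h1 h2).trans ?_)
  · refine sum_le_sum_of_subset_of_nonneg ?_ fun _ _ _ => by positivity
    intro w hw
    rw [mem_filter] at hw ⊢
    refine ⟨hw.1, hw.2.1, fun p hp' q hq => ?_⟩
    have h3 := abs_le.1 (hw.2.2 p hp' 0)
    have h4 := abs_le.1 (hw.2.2 q hq 0)
    have h5 : 2 * (m ^ (d - (Dim.k + 1) * g + 1) + 1) ≤ m ^ (d - (Dim.k + 1) * g + 2) := by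
      have h6 : 1 ≤ m ^ (d - (Dim.k + 1) * g + 1) := Nat.one_le_pow _ _ (by omega)
      have h7 : m ^ (d - (Dim.k + 1) * g + 2) = m ^ (d - (Dim.k + 1) * g + 1) * m := pow_succ _ _
      rw [h7]
      nlinarith
    have h6 : (2 : ℤ) * ((m ^ (d - (Dim.k + 1) * g + 1) + 1 : ℕ) : ℤ) ≤ ((m ^ (d - (Dim.k + 1) * g + 2) : ℕ) : ℤ) := by
      exact_mod_cast h5
    linarith [h3.1, h3.2, h4.1, h4.2]
  · apply Real.exp_le_exp.2
    refine mul_le_mul_of_nonneg_left ?_ hC.le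
    push_cast
    rw [← Real.rpow_natCast (m : ℝ) (d - (Dim.k + 1) * g + 2), ← Real.rpow_mul (by linarith),
      ← Real.rpow_natCast (m : ℝ) g]
    refine Real.rpow_le_rpow_of_exponent_le hm1 ?_
    have h3 : ((d - (Dim.k + 1) * g + 2 : ℕ) : ℝ) = (d : ℝ) - (Dim.k + 1) * g + 2 := by
      rw [Nat.cast_add, Nat.cast_sub (by omega)]
      push_cast
      ring
    rw [h3, mul_comm]
    exact hp.h3

/-- the recursion -/
theorem rec9 {μ : ℝ} (hμ : 1 ≤ μ) (hb : ∀ n, ((brs n).card : ℝ) ≤ μ ^ n) {θ a : ℝ}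
    (hS : Slab μ θ) (ha : θ < a) {e d g : ℕ} (hp : Par9 a e d g) {C1 : ℝ}
    (hC1 : 0 < C1) (hE : ∀ᶠ m : ℕ in atTop, Bad μ d g m → EX μ d g e m C1) :
    ∃ C : ℝ, 0 ≤ C ∧ ∀ᶠ m : ℕ in atTop,
      FF μ (m ^ d) ≤ 1 / 2 * FF μ (3 * m ^ d) + C * (m : ℝ) ^ (g + e + 1) := by
  have hμ0 : 0 < μ := by linarith
  have hgd := hp.h2
  have hgd' := hp.h2'
  obtain ⟨C₁, hC₁, h1⟩ := good_pairs hμ hb hp hC1
  obtain ⟨C₂, hC₂, h2⟩ := good_case hμ hb (d := d) (g := g) (by omega)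
  obtain ⟨C₃, hC₃, h3⟩ := box_le hμ hS ha hp
  refine ⟨C₁ + C₂ + C₃ + (d + 1), by positivity, ?_⟩
  filter_upwards [h1, h2, h3, hE, eventually_ge_atTop (8 * (d + 1))] with m h1 h2 h3 hE hm8
  have hm1 : (1 : ℝ) ≤ m := by
    have : 1 ≤ m := by omega
    exact_mod_cast this
  have hpow : (1 : ℝ) ≤ (m : ℝ) ^ (g + e + 1) := one_le_pow₀ hm1
  have hg1 : (m : ℝ) ^ (g + 1) ≤ (m : ℝ) ^ (g + e + 1) := pow_le_pow_right₀ hm1 (by omega)
  have hg2 : (m : ℝ) ^ g ≤ (m : ℝ) ^ (g + e + 1) := pow_le_pow_right₀ hm1 (by omega)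
  have e1 : 0 ≤ C₁ * (m : ℝ) ^ (g + e + 1) := by positivity
  have e2 : C₂ * (m : ℝ) ^ (g + 1) ≤ C₂ * (m : ℝ) ^ (g + e + 1) :=
    mul_le_mul_of_nonneg_left hg1 hC₂
  have e3 : C₃ * (m : ℝ) ^ g ≤ C₃ * (m : ℝ) ^ (g + e + 1) :=
    mul_le_mul_of_nonneg_left hg2 hC₃.le
  have e3' : 0 ≤ C₃ * (m : ℝ) ^ g := by positivity
  have e4 : (0 : ℝ) ≤ (d + 1) * (m : ℝ) ^ (g + e + 1) := by positivity
  have e5 : 0 ≤ C₂ * (m : ℝ) ^ (g + 1) := by positivity
  have h7 := FF_nonneg (μ := μ) (3 * m ^ d)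
  have etot : (C₁ + C₂ + C₃ + (d + 1)) * (m : ℝ) ^ (g + e + 1) = C₁ * (m : ℝ) ^ (g + e + 1) +
      C₂ * (m : ℝ) ^ (g + e + 1) + C₃ * (m : ℝ) ^ (g + e + 1) +
      (d + 1) * (m : ℝ) ^ (g + e + 1) := by ring
  rw [etot]
  by_cases hbad : Bad μ d g m
  · have hG := h1 (hE hbad)
    set N := m ^ d with hN
    have hK : 2 ≤ m ^ ((Dim.k + 1) * g) := by
      have h8 : 1 ≤ g := by
        by_contra hcon
        have h9 : g = 0 := by omega
        have h10 := hp.h1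
        rw [h9, mul_zero] at h10
        simp only [dd] at h10
        omega
      calc 2 ≤ m := by omega
        _ ≤ m ^ ((Dim.k + 1) * g) := Nat.le_self_pow (Nat.mul_ne_zero (by omega) (by omega)) m
    have hRs1 : ∀ R ∈ Rs9 d m, 1 ≤ R := by
      intro R hR
      unfold Rs9 at hR
      rw [mem_image] at hR
      obtain ⟨i, _, rfl⟩ := hR
      exact Nat.one_le_pow _ _ (by omega)
    have hRc : (Rs9 d m).card ≤ d + 1 := by
      unfold Rs9
      exact card_image_le.trans (card_range _).le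
    have hr : 4 * (Rs9 d m).card * (N + 1) ≤ m ^ ((Dim.k + 1) * g) * m ^ (d - (Dim.k + 1) * g + 1) := by
      rw [← pow_add]
      have h8 : (Dim.k + 1) * g + (d - (Dim.k + 1) * g + 1) = d + 1 := by omega
      rw [h8, pow_succ, ← hN]
      have h9 : 1 ≤ N := by rw [hN]; exact Nat.one_le_pow _ _ (by omega)
      calc 4 * (Rs9 d m).card * (N + 1) ≤ 4 * (d + 1) * (2 * N) := by
            refine Nat.mul_le_mul ?_ ?_
            · exact Nat.mul_le_mul_left _ hRc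
            · omega
        _ = N * (8 * (d + 1)) := by ring
        _ ≤ N * m := Nat.mul_le_mul_left _ hm8
    have hcut := cut (x := μ⁻¹) (by positivity) (N := N) hK hRs1 hr
    -- the walks with a good end
    have hgood : ∑ a ∈ (wle N).filter (fun a => saw a ∧ Ge (m ^ ((Dim.k + 1) * g)) (Rs9 d m) a),
        μ⁻¹ ^ a.length ≤ (N + 1) *
          Real.exp ((FF μ (3 * N) + C₁ * (m : ℝ) ^ (g + e + 1)) / 2) := by
      rw [sum_filter, sum_wle]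
      have h8 : ∀ n ∈ range (N + 1), ∑ w ∈ wd n,
          (if saw w ∧ Ge (m ^ ((Dim.k + 1) * g)) (Rs9 d m) w then μ⁻¹ ^ w.length else 0) ≤
          Real.exp ((FF μ (3 * N) + C₁ * (m : ℝ) ^ (g + e + 1)) / 2) := by
        intro n hn
        rw [mem_range] at hn
        refine le_trans (le_of_eq ?_) (hG n (by omega))
        rw [← sum_filter]
        have h9 : (wd n).filter (fun w => saw w ∧ Ge (m ^ ((Dim.k + 1) * g)) (Rs9 d m) w) =
            (walks n).filter (Ge (m ^ ((Dim.k + 1) * g)) (Rs9 d m)) := by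
          unfold walks
          rw [filter_filter]
        rw [h9, sum_congr rfl (g := fun _ => μ⁻¹ ^ n) fun w hw => by
          rw [(mem_walks.1 (mem_filter.1 hw).1).1], sum_const, nsmul_eq_mul]
      refine (sum_le_sum h8).trans (le_of_eq ?_)
      rw [sum_const, card_range, nsmul_eq_mul]
      push_cast
      ring
    have hN1 : (0 : ℝ) < (N : ℝ) + 1 := by positivity
    refine FF_le fun k hk => ?_
    have h8 : ((walks k).card : ℝ) * μ⁻¹ ^ k ≤ ∑ w ∈ (wle N).filter saw, μ⁻¹ ^ w.length := by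
      have h9 : ((walks k).card : ℝ) * μ⁻¹ ^ k = ∑ w ∈ walks k, μ⁻¹ ^ w.length := by
        rw [sum_congr rfl (g := fun _ => μ⁻¹ ^ k) fun w hw => by rw [(mem_walks.1 hw).1],
          sum_const, nsmul_eq_mul]
      rw [h9]
      refine sum_le_sum_of_subset_of_nonneg ?_ fun _ _ _ => by positivity
      intro w hw
      rw [mem_walks] at hw
      rw [mem_filter, mem_wle]
      exact ⟨by omega, hw.2⟩
    have h9 : ((walks k).card : ℝ) * μ⁻¹ ^ k ≤ ((N + 1) *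
        Real.exp ((FF μ (3 * N) + C₁ * (m : ℝ) ^ (g + e + 1)) / 2)) *
        Real.exp (C₃ * (m : ℝ) ^ g) := by
      refine (h8.trans hcut).trans (mul_le_mul hgood h3 ?_ (by positivity))
      exact sum_nonneg fun _ _ => by positivity
    have h10 := Real.log_le_log (term_pos hμ k) h9
    have h10' : Real.log (((N + 1) *
        Real.exp ((FF μ (3 * N) + C₁ * (m : ℝ) ^ (g + e + 1)) / 2)) *
        Real.exp (C₃ * (m : ℝ) ^ g)) = Real.log ((N : ℝ) + 1) +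
        (FF μ (3 * N) + C₁ * (m : ℝ) ^ (g + e + 1)) / 2 + C₃ * (m : ℝ) ^ g := by
      rw [Real.log_mul (by positivity) (by positivity),
        Real.log_mul (by positivity) (by positivity), Real.log_exp, Real.log_exp]
    rw [h10'] at h10
    have h11 := log_succ_le (m := m) (d := d) (by omega)
    rw [← hN] at h11
    have h12 : (d + 1 : ℝ) * m ≤ (d + 1) * (m : ℝ) ^ (g + e + 1) := by
      refine mul_le_mul_of_nonneg_left ?_ (by positivity)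
      calc (m : ℝ) = (m : ℝ) ^ 1 := (pow_one _).symm
        _ ≤ (m : ℝ) ^ (g + e + 1) := pow_le_pow_right₀ hm1 (by omega)
    have h13 : 0 ≤ C₂ * (m : ℝ) ^ (g + e + 1) := e5.trans e2
    linarith
  · have := h2 hbad
    have h13 : 0 ≤ C₃ * (m : ℝ) ^ (g + e + 1) := e3'.trans e3
    linarith

/-- existence of the parameters -/
theorem exists_par9 {θ f : ℝ} (hθ : 0 ≤ θ) (e : ℕ) (h1 : 2 < (2 * (dd : ℝ) + 1) * f)
    (h2 : f < 1 / 2) (h2' : ((Dim.k : ℝ) + 1) * f < 1)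
    (h3 : θ * (1 - ((Dim.k : ℝ) + 1) * f) < f) :
    ∃ a : ℝ, θ < a ∧ ∃ d g : ℕ, 1 ≤ d ∧ Par9 a e d g ∧ ((g + e : ℕ) + 1 : ℝ) / d ≤ f := by
  have hk0 : (0 : ℝ) ≤ (Dim.k : ℝ) := Nat.cast_nonneg _
  have hdd : (dd : ℝ) = (Dim.k : ℝ) + 2 := by simp only [dd]; push_cast; ring
  have hf0 : 0 < f := by
    by_contra hcon
    push Not at hcon
    have : (2 * (dd : ℝ) + 1) * f ≤ 0 := mul_nonpos_of_nonneg_of_nonpos (by positivity) hcon
    linarith
  have h12 : 0 < 1 - 2 * f := by linarith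
  set q : ℝ := (Dim.k : ℝ) + 1 with hq
  have hq1 : 1 ≤ q := by linarith
  have h12' : 0 < 1 - q * f := by linarith
  -- the exponent `a`
  obtain ⟨a, ha1, ha2⟩ : ∃ a, θ < a ∧ a * (1 - q * f) < f := by
    have h4 : θ < f / (1 - q * f) := by rw [lt_div_iff₀ h12']; exact h3
    obtain ⟨a, h5, h6⟩ := exists_between h4
    refine ⟨a, h5, ?_⟩
    rwa [lt_div_iff₀ h12'] at h6
  have ha0 : 0 ≤ a := by linarith
  have hε : 0 < f - a * (1 - q * f) := by linarith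
  have hε7 : 0 < (2 * (dd : ℝ) + 1) * f - 2 := by linarith
  obtain ⟨d, hd⟩ := exists_nat_ge (max ((a * (q * (e + 2) + 2) + e + 2) / (f - a * (1 - q * f)))
    (max ((20 * (dd : ℝ) + (2 * dd + 1) * ((e : ℝ) + 2)) / ((2 * (dd : ℝ) + 1) * f - 2))
      (max (20 / (1 - 2 * f)) (max (20 / (1 - q * f)) (max ((e + 2) / f) 1)))))
  have hd1 := (le_max_left _ _).trans hd
  have hd' := (le_max_right _ _).trans hd
  have hd2 := (le_max_left _ _).trans hd'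
  have hd'' := (le_max_right _ _).trans hd'
  have hd3 := (le_max_left _ _).trans hd''
  have hd3' := (le_max_right _ _).trans hd''
  have hd6 := (le_max_left _ _).trans hd3'
  have hd4' := (le_max_right _ _).trans hd3'
  have hd4 := (le_max_left _ _).trans hd4'
  have hd5 := (le_max_right _ _).trans hd4'
  rw [div_le_iff₀ hε] at hd1
  rw [div_le_iff₀ hε7] at hd2
  rw [div_le_iff₀ h12] at hd3
  rw [div_le_iff₀ h12'] at hd6
  rw [div_le_iff₀ hf0] at hd4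
  have hd0 : (0 : ℝ) < d := by linarith
  set n := ⌊f * (d : ℝ)⌋₊ with hn
  have e1 : f * d < n + 1 := Nat.lt_floor_add_one _
  have e2 : (n : ℝ) ≤ f * d := Nat.floor_le (by positivity)
  have e3 : e + 1 ≤ n := by
    rw [hn, Nat.le_floor_iff (by positivity)]
    push_cast
    linarith
  have e4 : ((n - (e + 1) : ℕ) : ℝ) = n - (e + 1) := by
    rw [Nat.cast_sub e3]
    push_cast
    ring
  have he0 : (0 : ℝ) ≤ e := Nat.cast_nonneg _
  refine ⟨a, ha1, d, n - (e + 1), by exact_mod_cast hd5, ⟨?_, ?_, ?_, ?_, ?_⟩, ?_⟩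
  · have h4 : ((2 * d + 20 * dd : ℕ) : ℝ) ≤ (((2 * dd + 1) * (n - (e + 1)) : ℕ) : ℝ) := by
      rw [Nat.cast_mul (2 * dd + 1), e4, Nat.cast_add (2 * d), Nat.cast_mul 2 d,
        Nat.cast_mul 20 dd, Nat.cast_add (2 * dd), Nat.cast_mul 2 dd]
      push_cast
      have h5 : (2 * (dd : ℝ) + 1) * (f * d - (e + 2)) ≤
          (2 * (dd : ℝ) + 1) * ((n : ℝ) - (e + 1)) :=
        mul_le_mul_of_nonneg_left (by linarith) (by positivity)
      simp only [dd] at h5 hd2 ⊢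
      push_cast at h5 hd2 ⊢
      linarith
    exact_mod_cast h4
  · have h4 : ((2 * (n - (e + 1)) + 10 : ℕ) : ℝ) ≤ (d : ℝ) := by
      push_cast
      rw [e4]
      linarith
    exact_mod_cast h4
  · have h4 : (((Dim.k + 1) * (n - (e + 1)) + 10 : ℕ) : ℝ) ≤ (d : ℝ) := by
      rw [Nat.cast_add ((Dim.k + 1) * (n - (e + 1))), Nat.cast_mul, e4]
      push_cast
      rw [← hq]
      have h5 : q * ((n : ℝ) - (e + 1)) ≤ q * (f * d) :=
        mul_le_mul_of_nonneg_left (by linarith) (by linarith)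
      linarith
    exact_mod_cast h4
  · rw [e4, ← hq]
    have h6 : q * (f * d - (e + 2)) ≤ q * ((n : ℝ) - (e + 1)) :=
      mul_le_mul_of_nonneg_left (by linarith) (by linarith)
    have h4 : (d : ℝ) - q * (n - (e + 1)) + 2 ≤ (1 - q * f) * d + (q * (e + 2) + 2) := by
      linarith
    have h5 := mul_le_mul_of_nonneg_left h4 ha0
    linarith
  · have h4 : ((2 * (n - (e + 1) + e + 1) : ℕ) : ℝ) ≤ (d : ℝ) := by
      push_cast
      rw [e4]
      linarith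
    exact_mod_cast h4
  · rw [div_le_iff₀ hd0]
    push_cast
    rw [e4]
    linarith

/-- **Main bound** for the maximal excess -/
theorem FF_bound9 {μ : ℝ} (hμ : 1 ≤ μ) (hb : ∀ n, ((brs n).card : ℝ) ≤ μ ^ n) {θ : ℝ}
    (hθ : 0 ≤ θ) (hS : Slab μ θ) (e : ℕ)
    (hE : ∀ (a : ℝ) (d g : ℕ), Par9 a e d g → ∃ C : ℝ, 0 < C ∧ ∀ᶠ m : ℕ in atTop,
      Bad μ d g m → EX μ d g e m C) {f : ℝ} (h1 : 2 < (2 * (dd : ℝ) + 1) * f)
    (h2 : f < 1 / 2) (h2' : ((Dim.k : ℝ) + 1) * f < 1)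
    (h3 : θ * (1 - ((Dim.k : ℝ) + 1) * f) < f) :
    ∃ C : ℝ, 0 ≤ C ∧ ∀ k : ℕ, 1 ≤ k → FF μ k ≤ C * (k : ℝ) ^ f := by
  have hlμ : 0 ≤ Real.log μ := Real.log_nonneg hμ
  obtain ⟨a, ha, d, g, hd, hp, hf⟩ := exists_par9 hθ e h1 h2 h2' h3
  obtain ⟨C₁, hC₁, h4⟩ := hE a d g hp
  obtain ⟨C₂, hC₂, h5⟩ := rec9 hμ hb hS ha hp hC₁ h4
  obtain ⟨C, hC, h6⟩ := fi2_rec_N (g := g + e) hd hC₂ h5
  obtain ⟨A, hA⟩ := iterate (F := FF μ) (θ := (((g + e : ℕ) : ℝ) + 1) / d) hC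
    (by positivity : 0 ≤ 4 + Real.log μ) (by positivity) (by linarith) h6
    (fun N hN => apriori hμ hb hN)
  refine ⟨max A 0, le_max_right _ _, fun n hn => ?_⟩
  have hn' : (1 : ℝ) ≤ n := by exact_mod_cast hn
  refine (hA n hn).trans ?_
  exact mul_le_mul (le_max_left _ _) (Real.rpow_le_rpow_of_exponent_le hn' hf)
    (Real.rpow_nonneg (by linarith) _) (le_max_right _ _)

/-- **Main bound**, for words: every exponent `f > 3 / (3 dd + 1)` -/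
theorem main_words9 {μ : ℝ} (hμ : 1 ≤ μ) (hb : ∀ n, ((brs n).card : ℝ) ≤ μ ^ n)
    (hS : Slab μ (3 / 4)) (e : ℕ)
    (hE : ∀ (a : ℝ) (d g : ℕ), Par9 a e d g → ∃ C : ℝ, 0 < C ∧ ∀ᶠ m : ℕ in atTop,
      Bad μ d g m → EX μ d g e m C) {f : ℝ} (hf : 3 / (3 * (dd : ℝ) + 1) < f) :
    ∃ C : ℝ, ∀ n : ℕ, 1 ≤ n → ((walks n).card : ℝ) ≤ μ ^ n * Real.exp (C * (n : ℝ) ^ f) := by
  have hμ0 : 0 < μ := by linarith
  have hk0 : (0 : ℝ) ≤ (Dim.k : ℝ) := Nat.cast_nonneg _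
  have hdd : (dd : ℝ) = (Dim.k : ℝ) + 2 := by simp only [dd]; push_cast; ring
  rw [hdd] at hf
  -- the exponent used: `min f f0`, `3 / (3 dd + 1) < f0`
  obtain ⟨f0, hf0⟩ : ∃ f0 : ℝ, f0 = 3 / (3 * (Dim.k : ℝ) + 13 / 2) := ⟨_, rfl⟩
  have hpos : (0 : ℝ) < 3 * (Dim.k : ℝ) + 13 / 2 := by linarith
  have g1 : f0 * (3 * (Dim.k : ℝ) + 13 / 2) = 3 := by rw [hf0]; field_simp
  have g0 : 0 < f0 := by rw [hf0]; positivity
  have g2 : 3 / (3 * ((Dim.k : ℝ) + 2) + 1) < f0 := by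
    rw [hf0]
    exact div_lt_div_of_pos_left (by norm_num) hpos (by linarith)
  have g3 : 3 / (3 * ((Dim.k : ℝ) + 2) + 1) < min f f0 := lt_min hf g2
  have g4 : min f f0 ≤ f0 := min_le_right _ _
  rw [div_lt_iff₀ (by positivity)] at g3
  have g5 : 0 < min f f0 := by
    by_contra hcon
    push Not at hcon
    have : min f f0 * (3 * ((Dim.k : ℝ) + 2) + 1) ≤ 0 :=
      mul_nonpos_of_nonpos_of_nonneg hcon (by positivity)
    linarith
  have g6 : ((Dim.k : ℝ) + 1) * min f f0 ≤ ((Dim.k : ℝ) + 1) * f0 :=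
    mul_le_mul_of_nonneg_left g4 (by positivity)
  have g7 : 0 ≤ (Dim.k : ℝ) * f0 := by positivity
  obtain ⟨C, hC, h1⟩ := FF_bound9 hμ hb (by norm_num) hS e hE (f := min f f0)
    (by
      rw [hdd]
      have : 0 < (Dim.k : ℝ) * min f f0 ∨ (Dim.k : ℝ) * min f f0 = 0 := by
        rcases hk0.eq_or_lt with h | h
        · right; rw [← h, zero_mul]
        · left; positivity
      rcases this with h | h <;> linarith)
    (by linarith)
    (by linarith)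
    (by linarith)
  refine ⟨C, fun n hn => ?_⟩
  have hn' : (1 : ℝ) ≤ n := by exact_mod_cast hn
  have h5 := term_le_exp hμ (le_refl n)
  have h6 : ((walks n).card : ℝ) * μ⁻¹ ^ n ≤ Real.exp (C * (n : ℝ) ^ f) := by
    refine h5.trans (Real.exp_le_exp.2 ((h1 n hn).trans ?_))
    exact mul_le_mul_of_nonneg_left (Real.rpow_le_rpow_of_exponent_le hn' (min_le_left _ _)) hC
  rw [inv_pow, ← div_eq_mul_inv, div_le_iff₀ (by positivity)] at h6
  linarith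

end Pool.Agent.SwR
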