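import Pool.Agent.SwR.Exit9
import Pool.Agent.SwR.Blk9

/-! R19: the exit, from the free blocks of `Blk9` and `exit_of_blocks`: the hypothesis `hE` of
`main_words9` with `e = 5`. -/

namespace Pool.Agent.SwR

variable [Pool.Agent.SwP.Dim]

open Finset Filter
open scoped Classical
open Pool.Agent.SwP Pool.Agent.SwX

theorem exit9 {μ : ℝ} (hμ : 1 ≤ μ) (hb : ∀ n, ((brs n).card : ℝ) ≤ μ ^ n) (a : ℝ) (d g : ℕ)
    (hp : Par9 a 5 d g) :
    ∃ C : ℝ, 0 < C ∧ ∀ᶠ m : ℕ in atTop, Bad μ d g m → EX μ d g 5 m C := by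
  have h1 := hp.h1
  have h2 := hp.h2
  have h2' := hp.h2'
  have hg : 1 ≤ g := by
    by_contra hcon
    have h9 : g = 0 := by omega
    rw [h9, mul_zero] at h1
    simp only [dd] at h1
    omega
  obtain ⟨C₁, hC₁, hev⟩ := blk9 hμ hb (d := d) (g := g) hg (by omega)
  exact exit_of_blocks hμ h1 h2 h2' hC₁.le (hev.mono fun m hm hbad i _ hi => hm hbad i hi)

/-- `c_n ≤ μ ^ n exp (C n ^ f)` for every `f > 3 / (3 dd + 1)`, from the slab theorem with `3 / 4` -/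
theorem main_of_slab {μ : ℝ} (hμ : 1 ≤ μ) (hb : ∀ n, ((brs n).card : ℝ) ≤ μ ^ n)
    (hS : Slab μ (3 / 4)) {f : ℝ} (hf : 3 / (3 * (dd : ℝ) + 1) < f) :
    ∃ C : ℝ, ∀ n : ℕ, 1 ≤ n → ((walks n).card : ℝ) ≤ μ ^ n * Real.exp (C * (n : ℝ) ^ f) :=
  main_words9 hμ hb hS 5 (exit9 hμ hb) hf

end Pool.Agent.SwR
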