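import Pool.Agent.SwR.Fr1
import Pool.Agent.SwR.Fr2
import Pool.Agent.SwR.Fr34
import Pool.Agent.SwR.Blk

/-! Free blocks: assembly. -/

namespace Pool.Agent.SwR

variable [Pool.Agent.SwP.Dim]
set_option maxHeartbeats 400000

open Finset Filter
open scoped Classical
open Pool.Agent.SwP Pool.Agent.SwX

/-! ### Ranges -/

theorem RG.sub {K : Finset (Ix)} {ρ : ℕ} {a b c : Word} (h : RG K ρ (a ++ (b ++ c))) :
    RG K ρ b := by
  intro a' u b' hb i hi
  exact h (a ++ a') u (b' ++ c) (by rw [hb]; simp) i hi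

theorem RG.mono {K K' : Finset (Ix)} {ρ : ℕ} {w : Word} (h : RG K ρ w) (hK : K' ⊆ K) :
    RG K' ρ w := fun a u b hw i hi => h a u b hw i (hK hi)

theorem RG.refl {K : Finset (Ix)} {ρ : ℕ} {w : Word} (h : RG K ρ w) (k : Ix) :
    RG K ρ (w.map (SwP.refl k).g) := by
  intro a u b hw i hi
  obtain ⟨a', r', h1, h2, h3⟩ := List.map_eq_append_iff.1 hw
  obtain ⟨u', b', h4, h5, h6⟩ := List.map_eq_append_iff.1 h3
  have h7 := h a' u' b' (by rw [h1, h4]) i hi
  rw [← h5, D_refl]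
  split_ifs
  · rwa [abs_neg]
  · exact h7

theorem br_hts {w a b : Word} (hw : Br w) (h : w = a ++ b) : 0 ≤ D a 0 ∧ D a 0 ≤ D w 0 := by
  constructor
  · by_cases h0 : a = []
    · rw [h0]; simp
    · exact (hw.hi a b h h0).le
  · have h1 := hw.lo a b h
    rw [h, D_append, Pi.add_apply]
    linarith

theorem br_RG0 {w : Word} (hw : Br w) {ρ : ℕ} (h : D w 0 ≤ (ρ : ℤ)) : RG {0} ρ w := by
  intro a u b hab i hi
  rw [mem_singleton] at hi
  subst hi
  have h1 := br_hts hw hab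
  have h2 := br_hts hw (a := a ++ u) (b := b) (by rw [hab]; simp)
  rw [D_append, Pi.add_apply] at h2
  rw [abs_le]
  constructor <;> linarith [h1.1, h1.2, h2.1, h2.2]

/-! ### Masses -/

/-- weight of a finite set of words -/
noncomputable def ms (x : ℝ) (S : Finset Word) : ℝ := ∑ w ∈ S, x ^ w.length

theorem ms_nonneg {x : ℝ} (hx : 0 ≤ x) (S : Finset Word) : 0 ≤ ms x S :=
  sum_nonneg fun _ _ => pow_nonneg hx _

theorem ms_mono {x : ℝ} (hx : 0 ≤ x) {S T : Finset Word} (h : S ⊆ T) : ms x S ≤ ms x T :=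
  sum_le_sum_of_subset_of_nonneg h fun _ _ _ => pow_nonneg hx _

theorem ms_union {x : ℝ} (hx : 0 ≤ x) {S A B : Finset Word} (h : S ⊆ A ∪ B) :
    ms x S ≤ ms x A + ms x B := by
  refine (ms_mono hx h).trans ?_
  unfold ms
  rw [← sum_union_inter]
  have : 0 ≤ ∑ w ∈ A ∩ B, x ^ w.length := sum_nonneg fun _ _ => pow_nonneg hx _
  linarith

theorem ms_map {x : ℝ} (hx : 0 ≤ x) {S T : Finset Word} (Y : Sy)
    (h : ∀ w ∈ S, w.map Y.g ∈ T) : ms x S ≤ ms x T := by
  refine sum_le_of_inj (fun w => w.map Y.g) h ?_ ?_ ?_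
  · intro w _ w' _ heq
    exact List.map_injective_iff.2 Y.ginj heq
  · intro w _
    rw [List.length_map]
  · intro w _
    exact pow_nonneg hx _

theorem ms_tri {x : ℝ} (hx : 0 ≤ x) {S A B C : Finset Word}
    (h : ∀ w ∈ S, ∃ a ∈ A, ∃ b ∈ B, ∃ c ∈ C, w = a ++ (b ++ c)) :
    ms x S ≤ ms x A * (ms x B * ms x C) := by
  have hex : ∀ w : Word, ∃ q : Word × (Word × Word), w ∈ S → q.1 ∈ A ∧ q.2.1 ∈ B ∧ q.2.2 ∈ C ∧
      w = q.1 ++ (q.2.1 ++ q.2.2) := by
    intro w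
    by_cases hw : w ∈ S
    · obtain ⟨a, ha, b, hb, c, hc, he⟩ := h w hw
      exact ⟨(a, (b, c)), fun _ => ⟨ha, hb, hc, he⟩⟩
    · exact ⟨([], ([], [])), fun h => absurd h hw⟩
  choose i hi using hex
  unfold ms
  rw [sum_mul_sum, ← sum_product', sum_mul_sum, ← sum_product']
  refine sum_le_of_inj i ?_ ?_ ?_ ?_
  · intro w hw
    obtain ⟨h1, h2, h3, _⟩ := hi w hw
    exact mem_product.2 ⟨h1, mem_product.2 ⟨h2, h3⟩⟩
  · intro w hw w' hw' heq
    rw [(hi w hw).2.2.2, (hi w' hw').2.2.2, heq]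
  · intro w hw
    have e : w.length = (i w).1.length + ((i w).2.1.length + (i w).2.2.length) := by
      rw [← List.length_append, ← List.length_append, ← (hi w hw).2.2.2]
    rw [e, pow_add, pow_add]
  · rintro ⟨a, b, c⟩ _
    exact mul_nonneg (pow_nonneg hx _) (mul_nonneg (pow_nonneg hx _) (pow_nonneg hx _))

/-- bridges of height in `[r, 2 r]`, the ranges of the coordinates in `K` are at most `2 r` -/
noncomputable def CB (K : Finset (Ix)) (r l : ℕ) : Finset Word :=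
  (wle l).filter (fun w => Br w ∧ RG K (2 * r) w ∧ (r : ℤ) ≤ D w 0 ∧ D w 0 ≤ 2 * r)

theorem HiF_comp {f : Pt →+ ℤ} (Y : Sy) {w : Word} (h : HiF (f.comp Y.A) w) :
    HiF f (w.map Y.g) := by
  intro u b hw hu
  obtain ⟨u', b', h1, h2, h3⟩ := List.map_eq_append_iff.1 hw
  have hu' : u' ≠ [] := by
    rintro rfl
    exact hu h2.symm
  have := h u' b' h1 hu'
  rw [← h2, Y.D_map]
  exact this

theorem LoF_comp {f : Pt →+ ℤ} (Y : Sy) {w : Word} (h : LoF (f.comp Y.A) w) :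
    LoF f (w.map Y.g) := by
  intro a u hw
  obtain ⟨a', u', h1, h2, h3⟩ := List.map_eq_append_iff.1 hw
  have := h a' u' h1
  rw [← h3, Y.D_map]
  exact this

theorem br_of {w : Word} (h1 : saw w) (h2 : HiF (ev 0) w) (h3 : LoF (ev 0) w) : Br w :=
  ⟨h1, fun a u h => h3 a u h, fun u b h hu => h2 u b h hu⟩

/-- the symmetry which turns `g = ± ev k` to `ev 0` -/
theorem exists_turn {k : Ix} {g : Pt →+ ℤ} (hg : g = ev k ∨ g = -ev k) : ∃ Y : Sy,
    (ev 0).comp Y.A = g ∧ ∀ (v : Pt) (i : Ix), |Y.A v i| = |v (Equiv.swap 0 k i)| := by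
  rcases hg with rfl | rfl
  · refine ⟨perm (Equiv.swap 0 k), ?_, ?_⟩
    · ext v
      simp
    · intro v i
      rw [perm_A, Equiv.symm_swap]
  · refine ⟨(perm (Equiv.swap 0 k)).comp (SwP.refl k), ?_, ?_⟩
    · ext v
      change (perm (Equiv.swap 0 k)).A ((SwP.refl k).A _) 0 = _
      rw [perm_A, Equiv.symm_swap, Equiv.swap_apply_left, refl_A, if_pos rfl]
      simp
    · intro v i
      change |(perm (Equiv.swap 0 k)).A ((SwP.refl k).A v) i| = _
      rw [perm_A, Equiv.symm_swap, refl_A]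
      split_ifs
      · rw [abs_neg]
      · rfl

/-- one change of direction -/
theorem CB_step {μ : ℝ} (hμ : 1 ≤ μ) (hb : ∀ n, ((brs n).card : ℝ) ≤ μ ^ n) {K K₂ : Finset (Ix)}
    {k : Ix} (hk : k ≠ 0) (h1 : ∀ i ∈ K₂, i ∈ K ∨ i = k)
    (h2 : ∀ i ∈ K₂, i = 0 ∨ Equiv.swap 0 k i ∈ K) {r l : ℕ} (hr : 1 ≤ r) :
    ms μ⁻¹ (CB K r l) ≤ ms μ⁻¹ (CB K₂ r l) + 2 * ((2 * μ * ((l : ℝ) + 2) ^ 3) ^ 2 *
      ((4 * ((l : ℝ) + 1) ^ 2) ^ (Nat.log 3 l + 1) * ms μ⁻¹ (CB K₂ r l))) := by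
  have hx : (0 : ℝ) ≤ μ⁻¹ := by positivity
  set c : ℝ := (4 * ((l : ℝ) + 1) ^ 2) ^ (Nat.log 3 l + 1) with hc
  set M : ℝ := 2 * μ * ((l : ℝ) + 2) ^ 3 with hM
  have hM0 : 0 ≤ M := by positivity
  set P : Word → Prop := RG (K₂.erase 0) (2 * r) with hPdef
  -- the classes of middle pieces
  set T : (Pt →+ ℤ) → Finset Word := fun g => (wle l).filter
    (fun w => saw w ∧ HiF g w ∧ LoF g w ∧ RG K (2 * r) w ∧ ((2 * r : ℕ) : ℤ) < g (D w)) with hT
  set U : (Pt →+ ℤ) → Finset Word := fun g => (wle l).filter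
    (fun w => saw w ∧ HiF (ev 0) w ∧ LoF (-g) w) with hU
  set V' : (Pt →+ ℤ) → Finset Word := fun g => (wle l).filter
    (fun w => saw w ∧ HiF (-g) w ∧ LoF (ev 0) w) with hV
  set S : (Pt →+ ℤ) → Finset Word := fun g => (CB K r l).filter (fun w =>
    ∃ a ∈ U g, ∃ b ∈ T g, ∃ c ∈ V' g, w = a ++ (b ++ c)) with hS
  have hTm : ∀ g : Pt →+ ℤ, (g = ev k ∨ g = -ev k) → ms μ⁻¹ (T g) ≤ c * ms μ⁻¹ (CB K₂ r l) := by
    intro g hg
    obtain ⟨Y, hY1, hY2⟩ := exists_turn hg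
    have e1 : ms μ⁻¹ (T g) ≤ ms μ⁻¹ ((wle l).filter (fun w => Br w ∧ P w ∧ (r : ℤ) < D w 0)) := by
      refine ms_map hx Y fun w hw => ?_
      rw [hT] at hw
      simp only [mem_filter, mem_wle] at hw
      obtain ⟨q1, q2, q3, q4, q5, q6⟩ := hw
      rw [mem_filter, mem_wle, List.length_map]
      refine ⟨q1, br_of (q2.map Y) (HiF_comp Y (by rw [hY1]; exact q3))
        (LoF_comp Y (by rw [hY1]; exact q4)), ?_, ?_⟩
      · intro a u b hab i hi
        obtain ⟨a', r', g1, g2, g3⟩ := List.map_eq_append_iff.1 hab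
        obtain ⟨u', b', g4, g5, g6⟩ := List.map_eq_append_iff.1 g3
        rw [mem_erase] at hi
        have hi2 := (h2 i hi.2).resolve_left hi.1
        have := q5 a' u' b' (by rw [g1, g4]) _ hi2
        rw [← g5, Y.D_map, hY2]
        exact this
      · rw [Y.D_map]
        have e2 : Y.A (D w) 0 = g (D w) := by rw [← hY1]; rfl
        rw [e2]
        push_cast at q6
        have : (0 : ℤ) ≤ r := Int.natCast_nonneg r
        linarith
    refine e1.trans ((split_sum hμ hb P (fun a b c h => RG.sub h) (fun w h => RG.refl h 0)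
      (r := r) (l := l) hr).trans ?_)
    refine mul_le_mul_of_nonneg_left ?_ (by positivity)
    refine ms_mono hx ?_
    intro w hw
    rw [mem_filter, mem_wle] at hw
    obtain ⟨q1, q2, q3, q4, q5⟩ := hw
    unfold CB
    rw [mem_filter, mem_wle]
    refine ⟨q1, q2, ?_, q4, q5⟩
    intro a u b hab i hi
    by_cases h0 : i = 0
    · subst h0
      exact br_RG0 q2 (ρ := 2 * r) (by push_cast; exact q5) a u b hab 0 (mem_singleton_self 0)
    · exact q3 a u b hab i (mem_erase.2 ⟨h0, hi⟩)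
  have hcover : CB K r l ⊆ CB K₂ r l ∪ (S (ev k) ∪ S (-ev k)) := by
    intro w hw
    have hw' := hw
    unfold CB at hw'
    rw [mem_filter, mem_wle] at hw'
    obtain ⟨q1, q2, q3, q4, q5⟩ := hw'
    by_cases hRG : RG {k} (2 * r) w
    · refine mem_union_left _ ?_
      unfold CB
      rw [mem_filter, mem_wle]
      refine ⟨q1, q2, ?_, q4, q5⟩
      intro a u b hab i hi
      rcases h1 i hi with h | h
      · exact q3 a u b hab i h
      · subst h
        exact hRG a u b hab i (mem_singleton_self i)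
    · refine mem_union_right _ ?_
      obtain ⟨a, b, c', g, hw1, hg, f1, f2, f3, f4, f5, f6, f7⟩ := ex_word q2 hk hRG
      have hlen := congrArg List.length hw1
      rw [List.length_append, List.length_append] at hlen
      have hs := q2.saw
      rw [hw1] at hs
      have hmem : w ∈ S g := by
        rw [hS]
        simp only [mem_filter]
        refine ⟨hw, a, ?_, b, ?_, c', ?_, hw1⟩
        · rw [hU]
          simp only [mem_filter, mem_wle]
          exact ⟨by omega, hs.left, f1, f2⟩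
        · rw [hT]
          simp only [mem_filter, mem_wle]
          exact ⟨by omega, hs.right.left, f3, f4, RG.sub (by rw [← hw1]; exact q3), f5⟩
        · rw [hV]
          simp only [mem_filter, mem_wle]
          exact ⟨by omega, hs.right.right, f6, f7⟩
      rcases hg with rfl | rfl
      · exact mem_union_left _ hmem
      · exact mem_union_right _ hmem
  have hSm : ∀ g : Pt →+ ℤ, (g = ev k ∨ g = -ev k) →
      ms μ⁻¹ (S g) ≤ M * (c * ms μ⁻¹ (CB K₂ r l) * M) := by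
    intro g hg
    have e1 := ms_tri hx (S := S g) (A := U g) (B := T g) (C := V' g) (by
      intro w hw
      rw [hS] at hw
      simp only [mem_filter] at hw
      exact hw.2)
    have hng : -g = ev k ∨ -g = -ev k := by
      rcases hg with rfl | rfl
      · right; rfl
      · left; rw [neg_neg]
    have e2 : ms μ⁻¹ (U g) ≤ M := dx hμ hb (j := 0) (k := k) (Ne.symm hk) l (Or.inl rfl) hng
    have e3 : ms μ⁻¹ (V' g) ≤ M := dx hμ hb (j := k) (k := 0) hk l hng (Or.inl rfl)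
    refine e1.trans ?_
    have n1 := ms_nonneg hx (T g)
    have n2 := ms_nonneg hx (V' g)
    have n3 := ms_nonneg hx (CB K₂ r l)
    have n4 : 0 ≤ c := by positivity
    refine mul_le_mul e2 (mul_le_mul (hTm g hg) e3 n2 (by positivity)) (by positivity) hM0
  have t1 := ms_union hx hcover
  have t2 := ms_union hx (S := S (ev k) ∪ S (-ev k)) (A := S (ev k)) (B := S (-ev k)) (by rfl)
  have t3 := hSm (ev k) (Or.inl rfl)
  have t4 := hSm (-ev k) (Or.inr rfl)
  calc ms μ⁻¹ (CB K r l) ≤ ms μ⁻¹ (CB K₂ r l) + (M * (c * ms μ⁻¹ (CB K₂ r l) * M) +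
        M * (c * ms μ⁻¹ (CB K₂ r l) * M)) := by linarith
    _ = _ := by ring


/-! ### Free blocks -/


/-- the first `j + 1` coordinates -/
def KF (j : ℕ) : Finset (Ix) := univ.filter fun i => (i : ℕ) ≤ j

theorem mem_KF {j : ℕ} {i : Ix} : i ∈ KF j ↔ (i : ℕ) ≤ j := by
  unfold KF
  rw [mem_filter]
  exact ⟨fun h => h.2, fun h => ⟨mem_univ i, h⟩⟩

/-- `j` changes of direction -/
theorem CB_chain {μ : ℝ} (hμ : 1 ≤ μ) (hb : ∀ n, ((brs n).card : ℝ) ≤ μ ^ n) {r l : ℕ}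
    (hr : 1 ≤ r) {M c : ℝ} (hM : M = 2 * μ * ((l : ℝ) + 2) ^ 3)
    (hc : c = (4 * ((l : ℝ) + 1) ^ 2) ^ (Nat.log 3 l + 1)) (j : ℕ) (hj : j ≤ Dim.k + 1) :
    ms μ⁻¹ (CB (KF 0) r l) ≤ (1 + 2 * M ^ 2 * c) ^ j * ms μ⁻¹ (CB (KF j) r l) := by
  have hM0 : 0 ≤ M := by rw [hM]; positivity
  have hc0 : 0 ≤ c := by rw [hc]; positivity
  induction j with
  | zero => simp
  | succ j ih =>
    have h1 := ih (by omega)
    have hk : (⟨j + 1, by omega⟩ : Ix) ≠ 0 := by
      intro h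
      have := congrArg Fin.val h
      simp at this
    have h2 := CB_step hμ hb (K := KF j) (K₂ := KF (j + 1)) (k := ⟨j + 1, by omega⟩) hk
      (by
        intro i hi
        rw [mem_KF] at hi
        rcases Nat.lt_or_ge (i : ℕ) (j + 1) with h | h
        · exact Or.inl (mem_KF.2 (by omega))
        · exact Or.inr (Fin.ext (by show (i : ℕ) = j + 1; omega)))
      (by
        intro i hi
        rw [mem_KF] at hi
        rcases eq_or_ne i 0 with h | h
        · exact Or.inl h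
        · refine Or.inr ?_
          rcases eq_or_ne i ⟨j + 1, by omega⟩ with h' | h'
          · rw [h', Equiv.swap_apply_right]
            exact mem_KF.2 (by simp)
          · rw [Equiv.swap_apply_of_ne_of_ne h h']
            rw [mem_KF]
            have : (i : ℕ) ≠ j + 1 := fun h'' => h' (Fin.ext h'')
            omega)
      (r := r) (l := l) hr
    rw [← hM, ← hc] at h2
    calc ms μ⁻¹ (CB (KF 0) r l) ≤ (1 + 2 * M ^ 2 * c) ^ j * ms μ⁻¹ (CB (KF j) r l) := h1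
      _ ≤ (1 + 2 * M ^ 2 * c) ^ j * ((1 + 2 * M ^ 2 * c) * ms μ⁻¹ (CB (KF (j + 1)) r l)) := by
          refine mul_le_mul_of_nonneg_left (h2.trans (le_of_eq ?_)) (by positivity)
          ring
      _ = _ := by ring

/-- all changes: from all bridges of height more than `r` to confined ones -/
theorem CB_univ {μ : ℝ} (hμ : 1 ≤ μ) (hb : ∀ n, ((brs n).card : ℝ) ≤ μ ^ n) {r l : ℕ}
    (hr : 1 ≤ r) {M c : ℝ} (hM : M = 2 * μ * ((l : ℝ) + 2) ^ 3)
    (hc : c = (4 * ((l : ℝ) + 1) ^ 2) ^ (Nat.log 3 l + 1)) :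
    ∑ w ∈ (wle l).filter (fun w => Br w ∧ (r : ℤ) < D w 0), μ⁻¹ ^ w.length ≤
      c * ((1 + 2 * M ^ 2 * c) ^ (Dim.k + 1) * ms μ⁻¹ (CB univ r l)) := by
  have hx : (0 : ℝ) ≤ μ⁻¹ := by positivity
  have hc0 : 0 ≤ c := by rw [hc]; positivity
  obtain ⟨P, hPt⟩ : ∃ P : Word → Prop, ∀ w, P w := ⟨fun _ => True, fun _ => trivial⟩
  have s1 := split_sum hμ hb P (fun _ b _ _ => hPt b) (fun w _ => hPt _)
    (r := r) (l := l) hr
  have s2 : ∑ w ∈ (wle l).filter (fun w => Br w ∧ (r : ℤ) < D w 0), μ⁻¹ ^ w.length ≤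
      c * ms μ⁻¹ (CB (KF 0) r l) := by
    have e1 : ∑ w ∈ (wle l).filter (fun w => Br w ∧ (r : ℤ) < D w 0), μ⁻¹ ^ w.length =
        ∑ w ∈ (wle l).filter (fun w => Br w ∧ P w ∧ (r : ℤ) < D w 0), μ⁻¹ ^ w.length := by
      refine sum_congr ?_ fun _ _ => rfl
      refine filter_congr fun w _ => ?_
      have := hPt w
      tauto
    have e2 : ∑ w ∈ (wle l).filter (fun w => Br w ∧ P w ∧ (r : ℤ) ≤ D w 0 ∧ D w 0 ≤ 2 * r),
        μ⁻¹ ^ w.length ≤ ms μ⁻¹ (CB (KF 0) r l) := by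
      refine ms_mono hx ?_
      intro w hw
      rw [mem_filter, mem_wle] at hw
      obtain ⟨q1, q2, _, q4, q5⟩ := hw
      unfold CB
      rw [mem_filter, mem_wle]
      refine ⟨q1, q2, RG.mono (br_RG0 q2 (ρ := 2 * r) (by push_cast; exact q5)) ?_, q4, q5⟩
      intro i hi
      rw [mem_KF] at hi
      rw [mem_singleton]
      exact Fin.ext (by simpa using hi)
    rw [e1, hc]
    exact s1.trans (mul_le_mul_of_nonneg_left e2 (by positivity))
  have s3 := CB_chain hμ hb (l := l) hr hM hc (Dim.k + 1) le_rfl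
  have s4 : KF (Dim.k + 1) = univ := by
    ext i
    rw [mem_KF]
    have := i.isLt
    exact ⟨fun _ => mem_univ i, fun _ => by omega⟩
  rw [s4] at s3
  exact s2.trans (mul_le_mul_of_nonneg_left s3 hc0)

/-- the numbers -/
theorem fb_num {μ : ℝ} (hμ : 1 ≤ μ) {N l : ℕ} (hl : l ≤ N) {M c T : ℝ} (q : ℕ)
    (hM : M = 2 * μ * ((l : ℝ) + 2) ^ 3)
    (hc : c = (4 * ((l : ℝ) + 1) ^ 2) ^ (Nat.log 3 l + 1)) (hT : T = Real.log (3 * (N : ℝ) + 3)) :
    1 ≤ T ∧ Real.log (c * (1 + 2 * M ^ 2 * c) ^ q) ≤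
      (2 + q * (11 + 2 * Real.log μ)) * T ^ 2 := by
  have hlr : (l : ℝ) ≤ N := by exact_mod_cast hl
  have hl0 : (0 : ℝ) ≤ l := Nat.cast_nonneg l
  have hL3 : 1 ≤ Real.log 3 := by
    rw [← Real.log_exp 1]
    refine Real.log_le_log (Real.exp_pos 1) ?_
    have := Real.exp_one_lt_d9
    linarith
  have hLμ : 0 ≤ Real.log μ := Real.log_nonneg hμ
  have hT1 : 1 ≤ T := by
    rw [hT]
    refine hL3.trans (Real.log_le_log (by norm_num) ?_)
    linarith
  have hlogl : Real.log ((l : ℝ) + 2) ≤ T := by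
    rw [hT]
    refine Real.log_le_log (by positivity) ?_
    linarith
  have h3T : Real.log 3 ≤ T := by
    rw [hT]
    refine Real.log_le_log (by norm_num) ?_
    linarith
  have h2T : Real.log 2 ≤ T := by
    refine le_trans (Real.log_le_log (by norm_num) (by norm_num)) h3T
  -- `M`
  have hMpos : 0 < M := by rw [hM]; positivity
  have hM1 : 1 ≤ M := by
    rw [hM]
    have h1 : (1 : ℝ) ≤ ((l : ℝ) + 2) ^ 3 := one_le_pow₀ (by linarith)
    nlinarith
  have hlM : Real.log M ≤ 4 * T + Real.log μ := by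
    rw [hM, Real.log_mul (by positivity) (by positivity), Real.log_mul (by norm_num) (by positivity),
      Real.log_pow]
    push_cast
    linarith
  have hlM0 : 0 ≤ Real.log M := Real.log_nonneg hM1
  -- `c`
  have hbase : (1 : ℝ) ≤ 4 * ((l : ℝ) + 1) ^ 2 := by nlinarith
  have hc1 : 1 ≤ c := by rw [hc]; exact one_le_pow₀ hbase
  have hk : ((Nat.log 3 l + 1 : ℕ) : ℝ) ≤ T := by
    have h1 : (Nat.log 3 l : ℝ) * Real.log 3 ≤ Real.log ((l : ℝ) + 1) := by
      rw [← Real.log_pow]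
      refine Real.log_le_log (by positivity) ?_
      have h2 : 3 ^ Nat.log 3 l ≤ l + 1 := by
        rcases Nat.eq_zero_or_pos l with h | h
        · subst h; simp
        · exact (Nat.pow_log_le_self 3 h.ne').trans (Nat.le_succ l)
      exact_mod_cast h2
    have h3 : (Nat.log 3 l : ℝ) ≤ (Nat.log 3 l : ℝ) * Real.log 3 :=
      le_mul_of_one_le_right (Nat.cast_nonneg _) hL3
    have h4 : Real.log ((l : ℝ) + 1) + Real.log 3 ≤ T := by
      rw [← Real.log_mul (by positivity) (by norm_num), hT]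
      refine Real.log_le_log (by positivity) ?_
      linarith
    push_cast
    linarith
  have hlb : Real.log (4 * ((l : ℝ) + 1) ^ 2) ≤ 2 * T := by
    have e : 4 * ((l : ℝ) + 1) ^ 2 = (2 * (l : ℝ) + 2) ^ 2 := by ring
    rw [e, Real.log_pow]
    have : Real.log (2 * (l : ℝ) + 2) ≤ T := by
      rw [hT]
      refine Real.log_le_log (by positivity) ?_
      linarith
    push_cast
    linarith
  have hlb0 : 0 ≤ Real.log (4 * ((l : ℝ) + 1) ^ 2) := Real.log_nonneg hbase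
  have hlc : Real.log c ≤ 2 * T ^ 2 := by
    rw [hc, Real.log_pow]
    calc ((Nat.log 3 l + 1 : ℕ) : ℝ) * Real.log (4 * ((l : ℝ) + 1) ^ 2) ≤ T * (2 * T) :=
          mul_le_mul hk hlb hlb0 (by linarith)
      _ = 2 * T ^ 2 := by ring
  have hlc0 : 0 ≤ Real.log c := Real.log_nonneg hc1
  refine ⟨hT1, ?_⟩
  have hq : 1 + 2 * M ^ 2 * c ≤ 3 * M ^ 2 * c := by
    have : 1 ≤ M ^ 2 * c := by
      calc (1 : ℝ) = 1 * 1 := by ring
        _ ≤ M ^ 2 * c := mul_le_mul (one_le_pow₀ hM1) hc1 (by norm_num) (by positivity)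
    linarith
  have hqpos : 0 < 1 + 2 * M ^ 2 * c := by positivity
  have hTT : T ≤ T ^ 2 := by nlinarith
  have h1T : 1 ≤ T ^ 2 := by nlinarith
  have hμT : Real.log μ ≤ Real.log μ * T ^ 2 := le_mul_of_one_le_right hLμ h1T
  have hlq : Real.log (1 + 2 * M ^ 2 * c) ≤ (11 + 2 * Real.log μ) * T ^ 2 := by
    refine (Real.log_le_log hqpos hq).trans ?_
    rw [Real.log_mul (by positivity) (by positivity), Real.log_mul (by norm_num) (by positivity),
      Real.log_pow]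
    push_cast
    nlinarith
  have hcpos : 0 < c := by linarith
  rw [Real.log_mul hcpos.ne' (by positivity), Real.log_pow]
  have hq0 : (0 : ℝ) ≤ q := Nat.cast_nonneg q
  calc Real.log c + (q : ℝ) * Real.log (1 + 2 * M ^ 2 * c) ≤
        2 * T ^ 2 + (q : ℝ) * ((11 + 2 * Real.log μ) * T ^ 2) :=
        add_le_add hlc (mul_le_mul_of_nonneg_left hlq hq0)
    _ = _ := by ring

/-- **FREE BLOCKS**: a positive mass of bridges of length at most `l` and height more than `r`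
gives a block of scale `r` and length `2 l` of cost `C log² N`. -/
theorem free_block {μ : ℝ} (hμ : 1 ≤ μ) (hb : ∀ n, ((brs n).card : ℝ) ≤ μ ^ n) {N r l : ℕ}
    (hr : 1 ≤ r) (hl : l ≤ N)
    (hW : 1 ≤ ∑ w ∈ (wle l).filter (fun w => Br w ∧ (r : ℤ) < D w 0), μ⁻¹ ^ w.length) :
    ∃ h B, Blk μ⁻¹ N r h (2 * l)
      (((Dim.k : ℝ) + 2) * (40 + 4 * Real.log μ) * Real.log (3 * (N : ℝ) + 3) ^ 2) B := by
  have hμ0 : (0 : ℝ) < μ := by linarith
  have hx : (0 : ℝ) < μ⁻¹ := by positivity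
  set c : ℝ := (4 * ((l : ℝ) + 1) ^ 2) ^ (Nat.log 3 l + 1) with hc
  set M : ℝ := 2 * μ * ((l : ℝ) + 2) ^ 3 with hM
  set T : ℝ := Real.log (3 * (N : ℝ) + 3) with hT
  obtain ⟨hT1, hnum⟩ := fb_num hμ hl (Dim.k + 1) hM hc hT
  have h1 := CB_univ hμ hb (l := l) hr hM hc
  set Q : ℝ := c * (1 + 2 * M ^ 2 * c) ^ (Dim.k + 1) with hQ
  have hQ0 : 0 < Q := by positivity
  have h2 : 1 ≤ Q * ms μ⁻¹ (CB univ r l) := by
    refine hW.trans (h1.trans (le_of_eq ?_))
    rw [hQ]; ring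
  have h3 : Real.exp (-Real.log Q) ≤ ∑ w ∈ (wle l).filter (fun w => Br w ∧ (r : ℤ) ≤ D w 0 ∧
      D w 0 ≤ 2 * r ∧ ∀ p ∈ pts w, ∀ k, |p k| ≤ 2 * (r : ℤ)), μ⁻¹ ^ w.length := by
    rw [Real.exp_neg, Real.exp_log hQ0]
    have h4 : Q⁻¹ ≤ ms μ⁻¹ (CB univ r l) := by
      rw [inv_le_iff_one_le_mul₀' hQ0]
      exact h2
    refine h4.trans (ms_mono hx.le ?_)
    intro w hw
    unfold CB at hw
    rw [mem_filter, mem_wle] at hw
    obtain ⟨q1, q2, q3, q4, q5⟩ := hw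
    rw [mem_filter, mem_wle]
    refine ⟨q1, q2, q4, q5, ?_⟩
    intro p hp k
    obtain ⟨a, b, hab, rfl⟩ := mem_pts.1 hp
    have := q3 [] a b (by rw [hab]; simp) k (mem_univ k)
    push_cast at this
    exact this
  obtain ⟨h, B, hB⟩ := blk_of hx N h3
  refine ⟨h, B, hB.br, hB.disp, hB.len, hB.box, ?_, hB.lo, hB.hi⟩
  refine Dom.mono hx.le hB.dom (Real.exp_le_exp.2 ?_)
  have hlr : (l : ℝ) ≤ N := by exact_mod_cast hl
  have hl0 : (0 : ℝ) ≤ l := Nat.cast_nonneg l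
  have g1 : Real.log (2 * (l : ℝ) + 1) ≤ T := by
    rw [hT]
    refine Real.log_le_log (by positivity) ?_
    linarith
  have g2 : Real.log ((N : ℝ) + 1) ≤ T := by
    rw [hT]
    refine Real.log_le_log (by positivity) ?_
    linarith [hl0.trans hlr]
  have hTT : T ≤ T ^ 2 := by nlinarith
  have hLμ : 0 ≤ Real.log μ := Real.log_nonneg hμ
  have h1T : 0 ≤ T ^ 2 := by positivity
  have h5 : 0 ≤ Real.log μ * T ^ 2 := mul_nonneg hLμ h1T
  have hk0 : (0 : ℝ) ≤ (Dim.k : ℝ) := Nat.cast_nonneg _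
  have hkT : (Dim.k : ℝ) * T ≤ (Dim.k : ℝ) * T ^ 2 := mul_le_mul_of_nonneg_left hTT hk0
  have hk2 : 0 ≤ (Dim.k : ℝ) * T ^ 2 := mul_nonneg hk0 h1T
  have g3 : ((Dim.k : ℝ) + 2) * Real.log (2 * (l : ℝ) + 1) ≤ ((Dim.k : ℝ) + 2) * T :=
    mul_le_mul_of_nonneg_left g1 (by linarith)
  have hnum' : Real.log Q ≤ (2 + ((Dim.k : ℝ) + 1) * (11 + 2 * Real.log μ)) * T ^ 2 := by
    refine hnum.trans (le_of_eq ?_)
    push_cast
    ring
  have key : 2 * (Real.log Q + ((Dim.k : ℝ) + 2) * Real.log (2 * (l : ℝ) + 1)) +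
      Real.log ((N : ℝ) + 1) ≤ ((Dim.k : ℝ) + 2) * (40 + 4 * Real.log μ) * T ^ 2 := by
    calc 2 * (Real.log Q + ((Dim.k : ℝ) + 2) * Real.log (2 * (l : ℝ) + 1)) + Real.log ((N : ℝ) + 1)
        ≤ 2 * ((2 + ((Dim.k : ℝ) + 1) * (11 + 2 * Real.log μ)) * T ^ 2 +
          ((Dim.k : ℝ) + 2) * T) + T := by linarith
      _ ≤ _ := by linarith
  refine le_trans (le_of_eq ?_) key
  push_cast
  ring

/-- **FREE BLOCKS in the bad case**: at every scale `m ^ i`, `i + 1 ≤ g`. -/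
theorem blk_free {μ : ℝ} (hμ : 1 ≤ μ) (hb : ∀ n, ((brs n).card : ℝ) ≤ μ ^ n) {d g m i : ℕ}
    (hgd : 2 * g ≤ d) (hm : 3 ≤ m) (hbad : Bad μ d g m) (hi : i + 1 ≤ g) :
    ∃ h B, Blk μ⁻¹ (m ^ d) (m ^ i) h (2 * m ^ (i + (d - 2 * g + 2)))
      (((Dim.k : ℝ) + 2) * (40 + 4 * Real.log μ) * Real.log (3 * (m : ℝ) ^ d + 3) ^ 2) B := by
  have h1 := bad_scale hμ hb hgd hm hbad hi
  have h2 := free_block hμ hb (N := m ^ d) (r := m ^ i) (l := m ^ (i + (d - 2 * g + 2)))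
    (Nat.one_le_pow _ _ (by omega)) (Nat.pow_le_pow_right (by omega) (by omega)) h1
  rw [Nat.cast_pow] at h2
  exact h2

end Pool.Agent.SwR
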