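import Pool.Agent.SwX.Blocks

/-! Free blocks: definitions. -/

namespace Pool.Agent.SwR

variable [Pool.Agent.SwP.Dim]

open Finset
open scoped Classical
open Pool.Agent.SwP Pool.Agent.SwX

/-- all final pieces have nonnegative displacement in the direction `f` -/
def LoF (f : Pt →+ ℤ) (l : Word) : Prop := ∀ a u : Word, l = a ++ u → 0 ≤ f (D u)

/-- all nonempty initial pieces have positive displacement in the direction `f` -/
def HiF (f : Pt →+ ℤ) (l : Word) : Prop := ∀ u b : Word, l = u ++ b → u ≠ [] → 0 < f (D u)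

/-- the ranges of the coordinates in `K` are at most `ρ` -/
def RG (K : Finset (Ix)) (ρ : ℕ) (w : Word) : Prop :=
  ∀ a u b : Word, w = a ++ (u ++ b) → ∀ i ∈ K, |D u i| ≤ (ρ : ℤ)

end Pool.Agent.SwR
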