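import Pool.Agent.SwR.Avg9

/-! Room R19. The numbers of the exit: the mean number of positions near a walk with few points
around its end. -/

namespace Pool.Agent.SwR

variable [Pool.Agent.SwP.Dim]
set_option maxHeartbeats 400000

open Finset Filter
open scoped Classical
open Pool.Agent.SwP Pool.Agent.SwX

/-- the constant of the mean numbers -/
def CN : ℝ := 402 * 1400 ^ dd

theorem CN_pos : 0 < CN := by
  unfold CN
  positivity

/-- the mean number of positions at distance less than `200 m ^ (i + 1)` from the walk -/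
theorem cc9 {m g y i : ℕ} (hm : 1 ≤ m) (hi : i + 1 ≤ g) (hy : g + 1 ≤ y) {A : Word}
    (hM : nn A (D A) (m ^ (y + 1)) ≤ m ^ ((Dim.k + 1) * g) * m ^ (y + 1)) :
    cc m y (vv A m y (200 * m ^ (i + 1))) ≤ CN * (m : ℝ) ^ (g + i + 4) := by
  have hm1 : (1 : ℝ) ≤ m := by exact_mod_cast hm
  have hM' : (nn A (D A) (m ^ (y + 1)) : ℝ) ≤ (m : ℝ) ^ ((Dim.k + 1) * g + (y + 1)) := by
    rw [pow_add (m : ℝ) ((Dim.k + 1) * g) (y + 1)]
    exact_mod_cast hM
  have h1 : (m : ℝ) ^ (i + 1) ≤ (m : ℝ) ^ ((Dim.k + 1) * g + (y + 1)) :=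
    pow_le_pow_right₀ hm1 (by
      have : 0 ≤ (Dim.k + 1) * g := Nat.zero_le _
      omega)
  have hC : (2 : ℝ) ≤ CN := by
    unfold CN
    have : (1 : ℝ) ≤ 1400 ^ dd := one_le_pow₀ (by norm_num)
    linarith
  unfold cc
  rcases Nat.lt_or_ge (g + i + 4) y with hc | hc
  · refine (min_le_right _ _).trans ?_
    rw [div_le_iff₀ (by positivity)]
    obtain ⟨t, rfl⟩ := Nat.exists_eq_add_of_le hc.le
    unfold vv
    push_cast
    calc 2 * (m : ℝ) ^ (g + i + 4 + t) * (7 ^ dd * (200 * (m : ℝ) ^ (i + 1)) ^ (Dim.k + 1) *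
          ((nn A (D A) (m ^ (g + i + 4 + t + 1)) : ℝ) + 200 * (m : ℝ) ^ (i + 1)))
        ≤ 2 * (m : ℝ) ^ (g + i + 4 + t) * (7 ^ dd * (200 * (m : ℝ) ^ (i + 1)) ^ (Dim.k + 1) *
          (201 * (m : ℝ) ^ ((Dim.k + 1) * g + (g + i + 4 + t + 1)))) := by
          refine mul_le_mul_of_nonneg_left (mul_le_mul_of_nonneg_left ?_ ?_) ?_
          · linarith
          · positivity
          · positivity
      _ = 402 * (7 ^ dd * 200 ^ (Dim.k + 1)) * (m : ℝ) ^ ((g + i + 4 + t) +
          ((i + 1) * (Dim.k + 1) + ((Dim.k + 1) * g + (g + i + 4 + t + 1)))) := by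
          rw [pow_add (m : ℝ) (g + i + 4 + t) _, pow_add (m : ℝ) ((i + 1) * (Dim.k + 1)) _,
            pow_mul (m : ℝ) (i + 1) (Dim.k + 1), mul_pow]
          ring
      _ ≤ CN * (m : ℝ) ^ ((g + i + 4) + dd * (g + i + 4 + t - 1)) := by
          refine mul_le_mul ?_ (pow_le_pow_right₀ hm1 ?_) (by positivity) CN_pos.le
          · unfold CN
            refine mul_le_mul_of_nonneg_left ?_ (by norm_num)
            have e : (1400 : ℝ) ^ dd = 7 ^ dd * 200 ^ dd := by rw [← mul_pow]; norm_num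
            rw [e]
            refine mul_le_mul_of_nonneg_left ?_ (by positivity)
            exact pow_le_pow_right₀ (by norm_num) (by simp only [dd]; omega)
          · have e : g + i + 4 + t - 1 = g + i + 3 + t := by omega
            rw [e]
            simp only [dd]
            nlinarith [Nat.zero_le (Dim.k * t), Nat.zero_le Dim.k]
      _ = CN * (m : ℝ) ^ (g + i + 4) * (m : ℝ) ^ (dd * (g + i + 4 + t - 1)) := by
          rw [pow_add (m : ℝ) (g + i + 4) _]
          ring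
  · refine (min_le_left _ _).trans ?_
    refine mul_le_mul hC (pow_le_pow_right₀ hm1 hc) (by positivity) CN_pos.le

/-- the mean number of obstacles on a segment -/
theorem cc9_one {m g y : ℕ} (hm : 1 ≤ m) (hy : g + 1 ≤ y) {A : Word}
    (hM : nn A (D A) (m ^ (y + 1)) ≤ m ^ ((Dim.k + 1) * g) * m ^ (y + 1)) :
    cc m y (vv A m y 1) ≤ CN * (m : ℝ) ^ (g + 3) := by
  have hm1 : (1 : ℝ) ≤ m := by exact_mod_cast hm
  have hM' : (nn A (D A) (m ^ (y + 1)) : ℝ) ≤ (m : ℝ) ^ ((Dim.k + 1) * g + (y + 1)) := by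
    rw [pow_add (m : ℝ) ((Dim.k + 1) * g) (y + 1)]
    exact_mod_cast hM
  have h1 : (1 : ℝ) ≤ (m : ℝ) ^ ((Dim.k + 1) * g + (y + 1)) := one_le_pow₀ hm1
  unfold cc
  refine (min_le_right _ _).trans ?_
  rw [div_le_iff₀ (by positivity)]
  obtain ⟨t, rfl⟩ := Nat.exists_eq_add_of_le hy
  unfold vv
  push_cast
  calc 2 * (m : ℝ) ^ (g + 1 + t) * (7 ^ dd * 1 ^ (Dim.k + 1) *
        ((nn A (D A) (m ^ (g + 1 + t + 1)) : ℝ) + 1))
      ≤ 2 * (m : ℝ) ^ (g + 1 + t) * (7 ^ dd * 1 ^ (Dim.k + 1) *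
        (2 * (m : ℝ) ^ ((Dim.k + 1) * g + (g + 1 + t + 1)))) := by
        refine mul_le_mul_of_nonneg_left (mul_le_mul_of_nonneg_left ?_ ?_) ?_
        · linarith
        · positivity
        · positivity
    _ = 4 * 7 ^ dd * (m : ℝ) ^ ((g + 1 + t) + ((Dim.k + 1) * g + (g + 1 + t + 1))) := by
        rw [pow_add (m : ℝ) (g + 1 + t) _, one_pow]
        ring
    _ ≤ CN * (m : ℝ) ^ ((g + 3) + dd * (g + 1 + t - 1)) := by
        refine mul_le_mul ?_ (pow_le_pow_right₀ hm1 ?_) (by positivity) CN_pos.le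
        · unfold CN
          refine mul_le_mul (by norm_num) (pow_le_pow_left₀ (by norm_num) (by norm_num) _)
            (by positivity) (by norm_num)
        · have e : g + 1 + t - 1 = g + t := by omega
          rw [e]
          simp only [dd]
          nlinarith [Nat.zero_le (Dim.k * t), Nat.zero_le Dim.k]
    _ = CN * (m : ℝ) ^ (g + 3) * (m : ℝ) ^ (dd * (g + 1 + t - 1)) := by
        rw [pow_add (m : ℝ) (g + 3) _]
        ring

end Pool.Agent.SwR
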