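import Pool.Agent.SwR.Defs
import Pool.Agent.R19.CaseAB
import Pool.Agent.SwR.Pc

/-! The abstract cases (a) and (b) for words. -/

set_option autoImplicit false
set_option linter.unusedSectionVars false
set_option linter.style.longLine false
set_option linter.unusedVariables false

namespace Pool.Agent.SwR

variable [Pool.Agent.SwP.Dim]

open Finset
open scoped Classical
open Pool.Agent.R19
open Pool.Agent.SwP (Word Pt Step D pts tr saw Br Lo Hi wle mem_wle rv D_rv rv_append rv_rv D_append D_nil pts_append mem_pts mem_tr zero_mem_pts refl refl_refl D_refl rtr rtr_rtr rtr_A D_rtr dd Ix Br_nil sum_le_of_inj length_rv abs_D_le)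

/-- the extension `e` of `c` meets `b` above the end of `c` -/
def HBw (b c e : Word) : Prop := ∃ q, q ∈ Pb b ∧ q - D c ∈ pts e ∧ D c 0 < q 0

/-- the extension `e` of `c` meets `a` -/
def HAw (a b c e : Word) : Prop := ∃ q, q ∈ Pa a b ∧ q - D c ∈ pts e

/-- concatenation, the first word is the last one -/
def preR (A : ℕ → Word) : ℕ → Word
  | 0 => []
  | n + 1 => A n ++ preR A n

theorem sp_pre_zero (C : ℕ → Word) : pre C 0 = [] := rfl

theorem sp_pre_succ (C : ℕ → Word) (n : ℕ) : pre C (n + 1) = pre C n ++ C n := by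
  unfold pre
  rw [List.range_succ, List.map_append, List.flatten_append]
  simp

theorem sp_D_pre (C : ℕ → Word) (n : ℕ) : D (pre C n) = SS D C n := by
  induction n with
  | zero => rw [sp_pre_zero, SS_zero]; rfl
  | succ n ih => rw [sp_pre_succ, D_append, ih, SS_succ]

theorem sp_D_preR (A : ℕ → Word) (n : ℕ) : D (preR A n) = SS D A n := by
  induction n with
  | zero => rw [SS_zero]; rfl
  | succ n ih =>
    change D (A n ++ preR A n) = _
    rw [D_append, ih, SS_succ, add_comm]

theorem sp_preR_cns (p : Word) (s : ℕ → Word) (n : ℕ) :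
    preR (cns p s) (n + 1) = preR s n ++ p := by
  induction n with
  | zero => simp [preR, cns]
  | succ n ih =>
    change cns p s (n + 1) ++ preR (cns p s) (n + 1) = _
    rw [ih]
    change s n ++ (preR s n ++ p) = (s n ++ preR s n) ++ p
    rw [List.append_assoc]

theorem sp_mem_pre (C : ℕ → Word) (n : ℕ) (q : Pt) : q ∈ pts (pre C (n + 1)) ↔
    ∃ i < n + 1, q - SS D C i ∈ pts (C i) := by
  induction n with
  | zero =>
    rw [sp_pre_succ, sp_pre_zero, List.nil_append]
    constructor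
    · intro h
      exact ⟨0, by omega, by rw [SS_zero, sub_zero]; exact h⟩
    · rintro ⟨i, hi, h⟩
      have : i = 0 := by omega
      subst this
      rwa [SS_zero, sub_zero] at h
  | succ n ih =>
    rw [sp_pre_succ, pts_append, mem_union, mem_tr, ih, sp_D_pre]
    constructor
    · rintro (⟨i, hi, h⟩ | h)
      · exact ⟨i, by omega, h⟩
      · exact ⟨n + 1, by omega, h⟩
    · rintro ⟨i, hi, h⟩
      rcases Nat.lt_or_ge i (n + 1) with h1 | h1
      · exact Or.inl ⟨i, h1, h⟩
      · have : i = n + 1 := by omega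
        subst this
        exact Or.inr h

theorem sp_mem_pre' (C : ℕ → Word) {n : ℕ} (hn : 1 ≤ n) (q : Pt) : q ∈ pts (pre C n) ↔
    Up D (fun p => (pts p : Set Pt)) C n q := by
  obtain ⟨m, rfl⟩ : ∃ m, n = m + 1 := ⟨n - 1, by omega⟩
  rw [sp_mem_pre]
  rfl

theorem sp_mem_preR (A : ℕ → Word) (n : ℕ) (q : Pt) : q ∈ pts (preR A (n + 1)) ↔
    ∃ i < n + 1, q - (SS D A (n + 1) - SS D A (i + 1)) ∈ pts (A i) := by
  induction n generalizing q with
  | zero =>
    change q ∈ pts (A 0 ++ []) ↔ _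
    rw [List.append_nil]
    constructor
    · intro h
      exact ⟨0, by omega, by rw [sub_self, sub_zero]; exact h⟩
    · rintro ⟨i, hi, h⟩
      have : i = 0 := by omega
      subst this
      rwa [sub_self, sub_zero] at h
  | succ n ih =>
    change q ∈ pts (A (n + 1) ++ preR A (n + 1)) ↔ _
    rw [pts_append, mem_union, mem_tr, ih]
    constructor
    · rintro (h | ⟨i, hi, h⟩)
      · refine ⟨n + 1, by omega, ?_⟩
        rw [sub_self, sub_zero]
        exact h
      · refine ⟨i, by omega, ?_⟩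
        have e : q - (SS D A (n + 1 + 1) - SS D A (i + 1)) =
            q - D (A (n + 1)) - (SS D A (n + 1) - SS D A (i + 1)) := by
          rw [SS_succ D A (n + 1)]
          abel
        rw [e]
        exact h
    · rintro ⟨i, hi, h⟩
      rcases Nat.lt_or_ge i (n + 1) with h1 | h1
      · right
        refine ⟨i, h1, ?_⟩
        have e : q - (SS D A (n + 1 + 1) - SS D A (i + 1)) =
            q - D (A (n + 1)) - (SS D A (n + 1) - SS D A (i + 1)) := by
          rw [SS_succ D A (n + 1)]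
          abel
        rw [← e]
        exact h
      · left
        have : i = n + 1 := by omega
        subst this
        rwa [sub_self, sub_zero] at h

theorem sp_mem_rv (w : Word) (p : Pt) : p ∈ pts (rv w) ↔ p + D w ∈ pts w := by
  constructor
  · intro h
    obtain ⟨a, b, hab, rfl⟩ := mem_pts.1 h
    have h1 : w = rv b ++ rv a := by
      rw [← rv_append, ← hab, rv_rv]
    rw [mem_pts]
    refine ⟨rv b, rv a, h1, ?_⟩
    rw [h1, D_append, D_rv, D_rv]
    abel
  · intro h
    obtain ⟨a, b, hab, he⟩ := mem_pts.1 h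
    rw [mem_pts]
    refine ⟨rv b, rv a, ?_, ?_⟩
    · rw [hab, rv_append]
    · rw [D_rv]
      rw [hab, D_append] at he
      ext j
      have h2 := congrFun he j
      simp only [Pi.add_apply, Pi.neg_apply] at h2 ⊢
      linarith

theorem sp_mem_Pa (A : ℕ → Word) {n : ℕ} (hn : 1 ≤ n) (b : Word) (q : Pt) :
    q ∈ Pa (preR A n) b ↔ Dn D (fun p => (pts p : Set Pt)) (D (rv (fl b))) A n q := by
  obtain ⟨m, rfl⟩ : ∃ m, n = m + 1 := ⟨n - 1, by omega⟩
  unfold Pa
  rw [mem_tr, sp_mem_rv, sp_mem_preR, sp_D_preR]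
  unfold Dn
  refine exists_congr ?_
  intro i
  refine and_congr_right ?_
  intro _
  have e : q - D (rv (fl b)) + SS D A (m + 1) - (SS D A (m + 1) - SS D A (i + 1)) =
      q - (D (rv (fl b)) - SS D A (i + 1)) := by abel
  rw [e]
  rfl

theorem sp_fl_append (u v : Word) : fl (u ++ v) = fl u ++ fl v := by
  unfold fl
  rw [List.map_append]

theorem sp_rv_fl_preR (B : ℕ → Word) (n : ℕ) :
    rv (fl (preR B n)) = pre (fun i => rv (fl (B i))) n := by
  induction n with
  | zero => rfl
  | succ n ih =>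
    change rv (fl (B n ++ preR B n)) = _
    rw [sp_fl_append, rv_append, ih, sp_pre_succ]

theorem sp_mem_Pb (B : ℕ → Word) {n : ℕ} (hn : 1 ≤ n) (q : Pt) : q ∈ Pb (preR B n) ↔
    Up (fun p => D (rv (fl p))) (fun p => (pts (rv (fl p)) : Set Pt)) B n q := by
  unfold Pb
  rw [sp_rv_fl_preR, sp_mem_pre' _ hn]
  rfl

theorem sp_D_rvfl (B : ℕ → Word) (n : ℕ) :
    D (rv (fl (preR B n))) = SS (fun p => D (rv (fl p))) B n := by
  rw [sp_rv_fl_preR, sp_D_pre]
  rfl

/-! ### the involution of the pieces -/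

/-- all transverse reflections -/
def sg (p : Word) : Word := p.map rtr.g

theorem sp_sg_sg (p : Word) : sg (sg p) = p := rtr_rtr p

theorem sp_length_sg (p : Word) : (sg p).length = p.length := by
  unfold sg
  rw [List.length_map]

theorem sp_fl_fl (p : Word) : fl (fl p) = p := refl_refl 0 p

theorem sp_D_fl (p : Word) (j : Ix) : D (fl p) j = if j = 0 then - D p j else D p j :=
  D_refl 0 p j

theorem sp_D_sg (p : Word) : D (sg p) = D (rv (fl p)) := by
  ext j
  unfold sg
  rw [D_rv, Pi.neg_apply, sp_D_fl, D_rtr]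
  split_ifs
  · rw [neg_neg]
  · rfl

theorem sp_Ir_sg {p : Word} (h : Ir p) : Ir (sg p) := by
  have h1 : ∀ w : Word, Br w → Br (sg w) := by
    intro w hw
    exact hw.map rtr (by intro v; rw [rtr_A, if_pos rfl])
  refine ⟨h1 p h.1, ?_, ?_⟩
  · intro h0
    apply h.2.1
    have := sp_length_sg p
    rw [h0] at this
    exact List.length_eq_zero_iff.1 this.symm
  · intro a b hab ha hb
    have h2 : p = sg a ++ sg b := by
      have := congrArg sg hab
      rw [sp_sg_sg] at this
      rw [this]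
      unfold sg
      rw [List.map_append]
    have h3 := h.2.2 _ _ h2 (h1 a ha) (h1 b hb)
    rcases h3 with h3 | h3
    · left
      have := sp_length_sg a
      rw [h3] at this
      exact List.length_eq_zero_iff.1 this.symm
    · right
      have := sp_length_sg b
      rw [h3] at this
      exact List.length_eq_zero_iff.1 this.symm

theorem sp_sg_mem {M : ℕ} {p : Word} (h : p ∈ irs M) : sg p ∈ irs M := by
  rw [mem_irs] at h ⊢
  exact ⟨by rw [sp_length_sg]; exact h.1, sp_Ir_sg h.2⟩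

theorem sp_law (x : ℝ) (M : ℕ) :
    law (irs M) (fun p => x ^ p.length) (fun p => D (rv (fl p))) =
      law (irs M) (fun p => x ^ p.length) D := by
  unfold law
  refine Finset.sum_nbij' sg sg (fun p hp => sp_sg_mem hp) (fun p hp => sp_sg_mem hp)
    (fun p _ => sp_sg_sg p) (fun p _ => sp_sg_sg p) ?_
  intro p _
  simp only [sp_length_sg, sp_D_sg]

theorem sp_D_rv_fl (p : Word) : D (rv (fl p)) 0 = D p 0 := by
  rw [D_rv, Pi.neg_apply, sp_D_fl]
  simp

theorem sp_pts_range {p : Word} (h : Br p) {y : Pt} (hy : y ∈ pts (rv (fl p))) :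
    0 ≤ y 0 ∧ y 0 ≤ D p 0 := by
  rw [sp_mem_rv, mem_pts] at hy
  obtain ⟨a, b, hab, he⟩ := hy
  have h1 : p = fl a ++ fl b := by
    rw [← sp_fl_append, ← hab, sp_fl_fl]
  have h2 : D (fl a) ∈ pts p := mem_pts.2 ⟨fl a, fl b, h1, rfl⟩
  have h3 := h.pts_range h2
  have h4 := congrFun he 0
  rw [Pi.add_apply, sp_D_fl] at h4
  rw [sp_D_fl] at h3
  simp only [if_true] at h3 h4
  constructor <;> linarith [h3.1, h3.2]

/-! ### strands as lists -/

theorem sp_mem_Sd {L K : ℕ} {E : ℕ → Word} :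
    E ∈ Sd L K ↔ (∀ i < K, E i ∈ irs L) ∧ ∀ i, K ≤ i → E i = [] := by
  unfold Sd
  rw [mem_image]
  constructor
  · rintro ⟨v, hv, rfl⟩
    rw [Fintype.mem_piFinset] at hv
    refine ⟨?_, ?_⟩
    · intro i hi
      simp only [dif_pos hi]
      exact hv ⟨i, hi⟩
    · intro i hi
      simp only [dif_neg (show ¬ i < K by omega)]
  · rintro ⟨h1, h2⟩
    refine ⟨fun i => E i, Fintype.mem_piFinset.2 (fun i => h1 i i.2), ?_⟩
    funext i
    by_cases hi : i < K
    · simp only [dif_pos hi]
    · simp only [dif_neg hi]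
      rw [h2 i (by omega)]

theorem sp_wt_cns (x : ℝ) (K : ℕ) (p : Word) (s : ℕ → Word) :
    wt x (K + 1) (cns p s) = x ^ p.length * wt x K s := by
  unfold wt
  rw [Finset.prod_range_succ', mul_comm]
  rfl

theorem sp_sum_Sd (x : ℝ) (L K : ℕ) (Φ : (ℕ → Word) → ℝ) :
    ∑ E ∈ Sd L K, wt x K E * Φ E = EE (irs L) (fun p => x ^ p.length) K Φ := by
  induction K generalizing Φ with
  | zero =>
    have h : Sd L 0 = {fun _ => ([] : Word)} := by
      ext E
      rw [sp_mem_Sd, mem_singleton]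
      constructor
      · rintro ⟨_, h⟩
        funext i
        exact h i (Nat.zero_le i)
      · rintro rfl
        exact ⟨fun i hi => by omega, fun i _ => rfl⟩
    rw [h, sum_singleton]
    unfold wt
    rw [Finset.range_zero, Finset.prod_empty, one_mul]
    rfl
  | succ K ih =>
    have h : ∑ E ∈ Sd L (K + 1), wt x (K + 1) E * Φ E =
        ∑ q ∈ irs L ×ˢ Sd L K, x ^ q.1.length * (wt x K q.2 * Φ (cns q.1 q.2)) := by
      refine Finset.sum_nbij' (fun E => (E 0, fun i => E (i + 1))) (fun q => cns q.1 q.2)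
        ?_ ?_ ?_ ?_ ?_
      · intro E hE
        rw [sp_mem_Sd] at hE
        rw [mem_product, sp_mem_Sd]
        exact ⟨hE.1 0 (by omega), fun i hi => hE.1 (i + 1) (by omega),
          fun i hi => hE.2 (i + 1) (by omega)⟩
      · rintro ⟨p, s⟩ hq
        rw [mem_product, sp_mem_Sd] at hq
        rw [sp_mem_Sd]
        obtain ⟨h1, h2, h3⟩ := hq
        refine ⟨?_, ?_⟩
        · intro i hi
          cases i with
          | zero => exact h1
          | succ i => exact h2 i (by omega)
        · intro i hi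
          cases i with
          | zero => omega
          | succ i => exact h3 i (by omega)
      · intro E _
        funext i
        cases i with
        | zero => rfl
        | succ i => rfl
      · rintro ⟨p, s⟩ _
        rfl
      · intro E _
        have h1 : cns (E 0) (fun i => E (i + 1)) = E := by
          funext i
          cases i with
          | zero => rfl
          | succ i => rfl
        have h2 := sp_wt_cns x K (E 0) (fun i => E (i + 1))
        rw [h1] at h2
        simp only [h1]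
        rw [h2, mul_assoc]
    rw [h, sum_product]
    unfold EE
    refine sum_congr rfl ?_
    intro p _
    rw [← ih, mul_sum]

theorem sp_em (x : ℝ) (M k : ℕ) (P : Word → Prop) :
    em x M k P = EE (irs M) (fun p => x ^ p.length) k (fun E => if P (pre E k) then 1 else 0) := by
  unfold em
  rw [← sp_sum_Sd, sum_filter]
  refine sum_congr rfl ?_
  intro E _
  split_ifs
  · rw [mul_one]
  · rw [mul_zero]

/-! ### sums over bridges, the last piece first -/

/-- the last piece of a bridge -/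
theorem sp_exists_last {w : Word} (hw : Br w) (hne : w ≠ []) :
    ∃ a b : Word, w = a ++ b ∧ Br a ∧ Ir b := by
  have hex : ∃ n : ℕ, ∃ a b : Word, w = a ++ b ∧ Br a ∧ Br b ∧ b ≠ [] ∧ b.length = n :=
    ⟨w.length, [], w, by simp, Br_nil, hw, hne, rfl⟩
  obtain ⟨a, b, hab, ha, hb, hbne, hlen⟩ := Nat.find_spec hex
  refine ⟨a, b, hab, ha, ⟨hb, hbne, ?_⟩⟩
  intro b1 b2 h12 h1 h2
  by_contra hcon
  push Not at hcon
  obtain ⟨hn1, hn2⟩ := hcon
  have hlt : b2.length < Nat.find hex := by
    rw [← hlen, h12, List.length_append]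
    have := List.length_pos_of_ne_nil hn1
    omega
  exact Nat.find_min hex hlt ⟨a ++ b1, b2, by rw [hab, h12, List.append_assoc], ha.append h1,
    h2, hn2, rfl⟩

theorem sp_sum_br_le {x : ℝ} (hx : 0 ≤ x) (L H : ℕ) (F : Word → ℝ) (hF : ∀ w, 0 ≤ F w) :
    ∑ w ∈ (wle L).filter (fun w => Br w ∧ D w 0 ≤ (H : ℤ)), x ^ w.length * F w ≤
      ∑ n ∈ range (H + 1), EE (irs L) (fun p => x ^ p.length) n (fun s => F (preR s n)) := by
  induction H generalizing F with
  | zero =>
    have h1 : (wle L).filter (fun w => Br w ∧ D w 0 ≤ ((0 : ℕ) : ℤ)) = {[]} := by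
      ext w
      rw [mem_filter, mem_wle, mem_singleton]
      constructor
      · rintro ⟨_, h1, h2⟩
        by_contra hne
        have := h1.pos hne
        push_cast at h2
        omega
      · rintro rfl
        exact ⟨by simp, Br_nil, by simp⟩
    rw [h1]
    simp [EE, preR]
  | succ H ih =>
    rw [sum_range_succ' (fun n => EE (irs L) (fun p => x ^ p.length) n (fun s => F (preR s n)))]
    have h0 : EE (irs L) (fun p => x ^ p.length) 0 (fun s => F (preR s 0)) = F [] := by
      simp [EE, preR]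
    rw [h0]
    have hsplit : (wle L).filter (fun w => Br w ∧ D w 0 ≤ ((H + 1 : ℕ) : ℤ)) =
        insert [] ((wle L).filter (fun w => (Br w ∧ D w 0 ≤ ((H + 1 : ℕ) : ℤ)) ∧ w ≠ [])) := by
      ext w
      simp only [mem_filter, mem_insert, mem_wle]
      constructor
      · rintro ⟨h1, h2⟩
        by_cases h0 : w = []
        · left; exact h0
        · right; exact ⟨h1, h2, h0⟩
      · rintro (h | h)
        · subst h; exact ⟨by simp, Br_nil, by simp; positivity⟩
        · exact ⟨h.1, h.2.1⟩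
    rw [hsplit, sum_insert (by simp)]
    simp only [List.length_nil, pow_zero, one_mul]
    rw [add_comm]
    apply add_le_add _ (le_refl _)
    have hex : ∀ w : Word, ∃ p : Word × Word, Br w → w ≠ [] →
        w = p.2 ++ p.1 ∧ Ir p.1 ∧ Br p.2 := by
      intro w
      by_cases h : Br w ∧ w ≠ []
      · obtain ⟨a, b, h1, h2, h3⟩ := sp_exists_last h.1 h.2
        exact ⟨(b, a), fun _ _ => ⟨h1, h3, h2⟩⟩
      · exact ⟨([], []), fun h1 h2 => absurd ⟨h1, h2⟩ h⟩
    choose f hf using hex
    have h1 : ∑ w ∈ (wle L).filter (fun w => (Br w ∧ D w 0 ≤ ((H + 1 : ℕ) : ℤ)) ∧ w ≠ []),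
        x ^ w.length * F w ≤ ∑ p ∈ irs L ×ˢ ((wle L).filter (fun w => Br w ∧ D w 0 ≤ (H : ℤ))),
          x ^ p.1.length * (x ^ p.2.length * F (p.2 ++ p.1)) := by
      refine sum_le_of_inj f ?_ ?_ ?_ ?_
      · intro w hw
        rw [mem_filter, mem_wle] at hw
        obtain ⟨h1, h2, h3⟩ := hf w hw.2.1.1 hw.2.2
        have h4 := congrArg List.length h1
        rw [List.length_append] at h4
        rw [mem_product, mem_irs, mem_filter, mem_wle]
        refine ⟨⟨by omega, h2⟩, ⟨by omega, h3, ?_⟩⟩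
        have h5 := hw.2.1.2
        rw [h1, D_append, Pi.add_apply] at h5
        have h6 := h2.one_le
        push_cast at h5
        linarith
      · intro w hw w' hw' heq
        rw [mem_coe, mem_filter, mem_wle] at hw hw'
        obtain ⟨h1, _, _⟩ := hf w hw.2.1.1 hw.2.2
        obtain ⟨h1', _, _⟩ := hf w' hw'.2.1.1 hw'.2.2
        rw [h1, h1', heq]
      · intro w hw
        rw [mem_filter, mem_wle] at hw
        obtain ⟨h1, _, _⟩ := hf w hw.2.1.1 hw.2.2
        have h4 := congrArg List.length h1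
        rw [List.length_append, add_comm] at h4
        rw [← mul_assoc, ← pow_add, ← h4, ← h1]
      · intro p _
        have := hF (p.2 ++ p.1)
        positivity
    refine h1.trans ?_
    rw [sum_product]
    have h2 : ∀ a ∈ irs L, ∑ b ∈ (wle L).filter (fun w => Br w ∧ D w 0 ≤ (H : ℤ)),
        x ^ a.length * (x ^ b.length * F (b ++ a)) ≤
        x ^ a.length * ∑ n ∈ range (H + 1), EE (irs L) (fun p => x ^ p.length) n
          (fun s => F (preR s n ++ a)) := by
      intro a _
      rw [← mul_sum]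
      apply mul_le_mul_of_nonneg_left _ (pow_nonneg hx _)
      exact ih (fun b => F (b ++ a)) (fun b => hF _)
    refine (sum_le_sum h2).trans (le_of_eq ?_)
    simp only [mul_sum]
    rw [sum_comm]
    refine sum_congr rfl fun n _ => ?_
    change _ = ∑ a ∈ irs L, x ^ a.length * EE (irs L) (fun p => x ^ p.length) n
      (fun s => F (preR (cns a s) (n + 1)))
    refine sum_congr rfl fun a _ => ?_
    congr 2
    funext s
    rw [sp_preR_cns]

/-! ### geometry -/

theorem sp_saw_b {u v : Word} (h : saw (fl u ++ v)) {q : Pt} (hq : q ∈ Pb u) (hq' : q ∈ pts v) :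
    q = 0 := by
  unfold Pb at hq
  rw [sp_mem_rv, mem_pts] at hq
  obtain ⟨a, b, hab, he⟩ := hq
  obtain ⟨c, d, hcd, rfl⟩ := mem_pts.1 hq'
  by_contra hne
  have h1 : fl u ++ v = a ++ ((b ++ c) ++ d) := by
    rw [hab, hcd]
    simp
  have h2 : b ++ c ≠ [] := by
    intro h0
    have : c = [] := (List.append_eq_nil_iff.1 h0).2
    apply hne
    rw [this]
    rfl
  apply h a (b ++ c) d h1 h2
  have h3 : D (fl u) = D a + D b := by rw [hab, D_append]
  rw [D_append]
  ext j
  have h4 := congrFun he j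
  have h5 := congrFun h3 j
  simp only [Pi.add_apply, Pi.zero_apply] at h4 h5 ⊢
  linarith

theorem sp_saw_a {a u v : Word} (h : saw (a ++ (fl u ++ v))) (hu : u ≠ []) {q : Pt}
    (hq : q ∈ Pa a u) (hq' : q ∈ pts v) : False := by
  unfold Pa at hq
  rw [mem_tr, sp_mem_rv, mem_pts] at hq
  obtain ⟨c, d, hcd, he⟩ := hq
  obtain ⟨e, f, hef, rfl⟩ := mem_pts.1 hq'
  have h1 : a ++ (fl u ++ v) = c ++ ((d ++ (fl u ++ e)) ++ f) := by
    rw [hcd, hef]
    simp
  have h2 : d ++ (fl u ++ e) ≠ [] := by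
    intro h0
    have h3 := (List.append_eq_nil_iff.1 (List.append_eq_nil_iff.1 h0).2).1
    unfold fl at h3
    exact hu (List.map_eq_nil_iff.1 h3)
  apply h c _ f h1 h2
  have h3 : D a = D c + D d := by rw [hcd, D_append]
  rw [D_append, D_append]
  rw [D_rv] at he
  ext j
  have h4 := congrFun he j
  have h5 := congrFun h3 j
  simp only [Pi.add_apply, Pi.zero_apply, Pi.sub_apply, Pi.neg_apply] at h4 h5 ⊢
  linarith

/-! ### triples of legs -/

/-- the conditions on a triple of legs, without the extension -/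
def TT (S g L : ℕ) (a b c : Word) : Prop :=
  b.length ≤ L ∧ D a 0 ≤ 2 * (S : ℤ) ∧ D b 0 < D a 0 ∧ D a 0 ≤ D c 0 + g ∧ D c 0 < D b 0 ∧
    0 < D c 0 ∧ saw (a ++ (fl b ++ c))

theorem sp_main {x : ℝ} (hx : 0 ≤ x) {L M : ℕ} (hLM : L ≤ M) (S g k' : ℕ)
    (R : Word → Word → Word → Word → Prop) :
    ∑ i ∈ range S, ∑ t ∈ TN L (S + i + 1) g, w3 x t * em x M k' (R t.1 t.2.1 t.2.2) ≤
    ∑ na ∈ range (2 * S + 1), ∑ nb ∈ range (2 * S + 1), ∑ nc ∈ range (2 * S + 1),
      EE (irs M) (fun p => x ^ p.length) na (fun A => EE (irs M) (fun p => x ^ p.length) nb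
        (fun B => EE (irs M) (fun p => x ^ p.length) nc (fun C =>
          EE (irs M) (fun p => x ^ p.length) k' (fun E =>
          if TT S g L (preR A na) (preR B nb) (pre C nc) ∧
            R (preR A na) (preR B nb) (pre C nc) (pre E k') then 1 else 0)))) := by
  have hw : ∀ p ∈ irs M, (0 : ℝ) ≤ x ^ p.length := fun p _ => pow_nonneg hx _
  let Ψ : Word → Word → Word → ℝ := fun a b c => EE (irs M) (fun p => x ^ p.length) k'
    (fun E => if TT S g L a b c ∧ R a b c (pre E k') then 1 else 0)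
  have hΨ : ∀ a b c, 0 ≤ Ψ a b c := by
    intro a b c
    refine EE_nonneg hw ?_
    intro s _
    split <;> norm_num
  let BL : Finset Word := (wle M).filter (fun w => Br w ∧ D w 0 ≤ ((2 * S : ℕ) : ℤ))
  have s1 : ∑ i ∈ range S, ∑ t ∈ TN L (S + i + 1) g, w3 x t * em x M k' (R t.1 t.2.1 t.2.2) ≤
      ∑ t ∈ BL ×ˢ (BL ×ˢ BL), w3 x t * Ψ t.1 t.2.1 t.2.2 := by
    rw [Finset.sum_sigma']
    refine sum_le_of_inj (fun q => q.2) ?_ ?_ ?_ ?_
    · rintro ⟨i, a, b, c⟩ hq
      rw [mem_sigma, mem_range] at hq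
      obtain ⟨hi, ht⟩ := hq
      change i < S at hi
      unfold TN TA at ht
      simp only [mem_filter, mem_product, mem_wle] at ht
      obtain ⟨⟨⟨h1, h2, h3⟩, h4, h5, h6, h7, h8, h9, h10, h11⟩, h12⟩ := ht
      simp only [BL, mem_product, mem_filter, mem_wle]
      refine ⟨⟨by omega, h4, ?_⟩, ⟨by omega, h5, ?_⟩, ⟨by omega, h6, ?_⟩⟩
      · push_cast at h7 ⊢; omega
      · push_cast at h7 h8 ⊢; omega
      · push_cast at h7 h8 ⊢; omega
    · rintro ⟨i, a, b, c⟩ hq ⟨i', a', b', c'⟩ hq' heq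
      simp only [Prod.mk.injEq] at heq
      obtain ⟨rfl, rfl, rfl⟩ := heq
      rw [mem_coe, mem_sigma, mem_range] at hq hq'
      have ht := hq.2
      have ht' := hq'.2
      unfold TN TA at ht ht'
      simp only [mem_filter, mem_product, mem_wle] at ht ht'
      have h7 := ht.1.2.2.2.2.1
      have h7' := ht'.1.2.2.2.2.1
      have : i = i' := by
        rw [h7] at h7'
        push_cast at h7'
        omega
      subst this
      rfl
    · rintro ⟨i, a, b, c⟩ hq
      rw [mem_sigma, mem_range] at hq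
      obtain ⟨hi, ht⟩ := hq
      change i < S at hi
      unfold TN TA at ht
      simp only [mem_filter, mem_product, mem_wle] at ht
      obtain ⟨⟨⟨h1, h2, h3⟩, h4, h5, h6, h7, h8, h9, h10, h11⟩, h12⟩ := ht
      have hT : TT S g L a b c := by
        refine ⟨h2, ?_, ?_, ?_, h9, h10, h11⟩
        · rw [h7]; push_cast; omega
        · rw [h7]; exact h8
        · rw [h7]; omega
      apply mul_le_mul_of_nonneg_left _ (show (0 : ℝ) ≤ w3 x (a, b, c) from pow_nonneg hx _)
      apply le_of_eq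
      rw [sp_em]
      simp only [Ψ]
      refine EE_congr ?_
      intro s _
      by_cases hR : R a b c (pre s k')
      · rw [if_pos hR, if_pos ⟨hT, hR⟩]
      · rw [if_neg hR, if_neg (fun h => hR h.2)]
    · intro t _
      exact mul_nonneg (pow_nonneg hx _) (hΨ _ _ _)
  refine s1.trans ?_
  have s2 : ∑ t ∈ BL ×ˢ (BL ×ˢ BL), w3 x t * Ψ t.1 t.2.1 t.2.2 =
      ∑ a ∈ BL, x ^ a.length * (∑ b ∈ BL, x ^ b.length * (∑ c ∈ BL, x ^ c.length * Ψ a b c)) := by
    rw [sum_product]
    refine sum_congr rfl ?_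
    intro a _
    rw [sum_product, mul_sum]
    refine sum_congr rfl ?_
    intro b _
    rw [mul_sum, mul_sum]
    refine sum_congr rfl ?_
    intro c _
    unfold w3
    simp only
    rw [pow_add, pow_add]
    ring
  rw [s2]
  have n3 : ∀ a b, 0 ≤ ∑ c ∈ BL, x ^ c.length * Ψ a b c := fun a b =>
    sum_nonneg (fun c _ => mul_nonneg (pow_nonneg hx _) (hΨ a b c))
  have n2 : ∀ a, 0 ≤ ∑ b ∈ BL, x ^ b.length * (∑ c ∈ BL, x ^ c.length * Ψ a b c) := fun a =>
    sum_nonneg (fun b _ => mul_nonneg (pow_nonneg hx _) (n3 a b))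
  have t3 : ∀ a b, ∑ c ∈ BL, x ^ c.length * Ψ a b c ≤ ∑ nc ∈ range (2 * S + 1),
      EE (irs M) (fun p => x ^ p.length) nc (fun C => Ψ a b (pre C nc)) := fun a b =>
    sum_br_le hx M (2 * S) (fun c => Ψ a b c) (fun c => hΨ a b c)
  have t2 : ∀ a, ∑ b ∈ BL, x ^ b.length * (∑ c ∈ BL, x ^ c.length * Ψ a b c) ≤
      ∑ nb ∈ range (2 * S + 1), ∑ nc ∈ range (2 * S + 1),
        EE (irs M) (fun p => x ^ p.length) nb (fun B =>
          EE (irs M) (fun p => x ^ p.length) nc (fun C => Ψ a (preR B nb) (pre C nc))) := by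
    intro a
    refine (sp_sum_br_le hx M (2 * S) (fun b => ∑ c ∈ BL, x ^ c.length * Ψ a b c)
      (fun b => n3 a b)).trans ?_
    refine sum_le_sum ?_
    intro nb _
    rw [← EE_sum]
    exact EE_mono hw (fun B _ => t3 a (preR B nb))
  refine (sp_sum_br_le hx M (2 * S) (fun a => ∑ b ∈ BL, x ^ b.length *
    (∑ c ∈ BL, x ^ c.length * Ψ a b c)) (fun a => n2 a)).trans ?_
  refine sum_le_sum ?_
  intro na _
  have t1 : EE (irs M) (fun p => x ^ p.length) na (fun A => ∑ b ∈ BL, x ^ b.length *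
      (∑ c ∈ BL, x ^ c.length * Ψ (preR A na) b c)) ≤
      EE (irs M) (fun p => x ^ p.length) na (fun A => ∑ nb ∈ range (2 * S + 1),
        ∑ nc ∈ range (2 * S + 1), EE (irs M) (fun p => x ^ p.length) nb (fun B =>
          EE (irs M) (fun p => x ^ p.length) nc
            (fun C => Ψ (preR A na) (preR B nb) (pre C nc)))) :=
    EE_mono hw (fun A _ => t2 (preR A na))
  refine t1.trans (le_of_eq ?_)
  rw [EE_sum]
  refine sum_congr rfl ?_
  intro nb _
  rw [EE_sum]

theorem sp_one_le {n : ℕ} {w : Word} (h0 : n = 0 → w = []) (h : 0 < D w 0) : 1 ≤ n := by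
  rcases Nat.eq_zero_or_pos n with h1 | h1
  · rw [h0 h1, D_nil] at h
    simp at h
  · exact h1

theorem sp_PB {S g L k' na nb nc : ℕ} (hk : 1 ≤ k') {A B C E : ℕ → Word}
    (h : TT S g L (preR A na) (preR B nb) (pre C nc) ∧
      HBw (preR B nb) (pre C nc) (pre E k')) :
    PB (Pool.Agent.SwP.ev 0) D (fun p => D (rv (fl p))) (fun p => (pts p : Set Pt))
      (fun p => (pts (rv (fl p)) : Set Pt)) g k' na nb nc A B C E := by
  obtain ⟨⟨h1, h2, h3, h4, h5, h6, h7⟩, q, hq1, hq2, hq3⟩ := h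
  have hnc : 1 ≤ nc := sp_one_le (w := pre C nc) (fun h0 => by rw [h0]; rfl) h6
  have hnb : 1 ≤ nb := sp_one_le (w := preR B nb) (fun h0 => by rw [h0]; rfl) (h6.trans h5)
  have e1 : Pool.Agent.SwP.ev 0 (SS (fun p => D (rv (fl p))) B nb) =
      D (preR B nb) 0 := by
    rw [← sp_D_rvfl, ← sp_D_rv_fl (preR B nb)]
    rfl
  have e2 : Pool.Agent.SwP.ev 0 (SS D A na) = D (preR A na) 0 := by
    rw [sp_D_preR]; rfl
  have e3 : Pool.Agent.SwP.ev 0 (SS D C nc) = D (pre C nc) 0 := by
    rw [sp_D_pre]; rfl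
  unfold PB
  rw [e1, e2, e3]
  refine ⟨h3, h4, h5, ?_, q, ?_, ?_, hq3⟩
  · intro y hy hy'
    refine sp_saw_b (u := preR B nb) (v := pre C nc) h7.right ?_ ?_
    · rw [sp_mem_Pb B hnb]; exact hy
    · rw [sp_mem_pre' C hnc]; exact hy'
  · rw [← sp_mem_Pb B hnb]; exact hq1
  · rw [← sp_mem_pre' E hk, ← sp_D_pre]; exact hq2

theorem sp_caseB {x : ℝ} (hx : 0 ≤ x) {L M : ℕ} (hLM : L ≤ M) (S g : ℕ) {k' : ℕ} (hk : 1 ≤ k')
    (h1 : Ph x M ≤ 1) (h2 : (1 : ℝ) / 2 ≤ Ph x M ^ (2 * S)) :
    ∑ i ∈ range S, ∑ t ∈ TN L (S + i + 1) g, w3 x t * em x M k' (HBw t.2.1 t.2.2) ≤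
      8 * ((g + 1) * (2 * g + 1) ^ 2) := by
  have hw : ∀ p ∈ irs M, (0 : ℝ) ≤ x ^ p.length := fun p _ => pow_nonneg hx _
  refine (sp_main hx hLM S g k' (fun a b c e => HBw b c e)).trans ?_
  refine le_trans ?_ (case_b (F := irs M) (w := fun p => x ^ p.length) (D := D)
    (D' := fun p => D (rv (fl p))) (ht := Pool.Agent.SwP.ev 0)
    (pts := fun p => (pts p : Set Pt)) (pts' := fun p => (pts (rv (fl p)) : Set Pt))
    hw h1 ?_ ?_ ?_ ?_ g k' (K := 2 * S) h2)
  · refine sum_le_sum ?_
    intro na _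
    refine sum_le_sum ?_
    intro nb _
    refine sum_le_sum ?_
    intro nc _
    refine EE_mono hw (fun A _ => EE_mono hw (fun B _ => EE_mono hw (fun C _ =>
      EE_mono hw (fun E _ => ?_))))
    by_cases h : TT S g L (preR A na) (preR B nb) (pre C nc) ∧
        HBw (preR B nb) (pre C nc) (pre E k')
    · rw [if_pos h, if_pos (sp_PB hk h)]
    · rw [if_neg h]
      split <;> norm_num
  · intro p hp
    exact (mem_irs.1 hp).2.one_le
  · intro p hp
    have := (mem_irs.1 hp).2.one_le
    rw [← sp_D_rv_fl] at this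
    exact this
  · intro p hp y hy
    exact (mem_irs.1 hp).2.br.pts_range hy
  · intro p hp y hy
    have := sp_pts_range (mem_irs.1 hp).2.br hy
    rw [← sp_D_rv_fl] at this
    exact this

/-- the possible places of the corner between the first two legs, seen from the bottom corner -/
noncomputable def boxX (S L : ℕ) : Finset Pt :=
  (Fintype.piFinset fun _ : Ix => Finset.Icc (-(L : ℤ)) (L : ℤ)).filter
    (fun v => v 0 < 2 * (S : ℤ))

theorem sp_card_box (S L : ℕ) : ((boxX S L).card : ℝ) ≤ (2 * (L : ℝ) + 1) ^ dd := by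
  have h1 : (boxX S L).card ≤ (2 * L + 1) ^ dd := by
    refine (Finset.card_filter_le _ _).trans ?_
    rw [Fintype.card_piFinset]
    simp only [Int.card_Icc, Finset.prod_const, Finset.card_univ, Fintype.card_fin]
    apply Nat.pow_le_pow_left
    omega
  exact_mod_cast h1

theorem sp_PA {S g L k' na nb nc : ℕ} (hk : 1 ≤ k') {A B C E : ℕ → Word}
    (h : TT S g L (preR A na) (preR B nb) (pre C nc) ∧
      HAw (preR A na) (preR B nb) (pre C nc) (pre E k')) :
    PA (Pool.Agent.SwP.ev 0) D (fun p => D (rv (fl p))) (fun p => (pts p : Set Pt))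
      (boxX S L) g k' na nb nc A B C E := by
  obtain ⟨⟨h1, h2, h3, h4, h5, h6, h7⟩, q, hq1, hq2⟩ := h
  have hnc : 1 ≤ nc := sp_one_le (w := pre C nc) (fun h0 => by rw [h0]; rfl) h6
  have hnb : 1 ≤ nb := sp_one_le (w := preR B nb) (fun h0 => by rw [h0]; rfl) (h6.trans h5)
  have hna : 1 ≤ na := sp_one_le (w := preR A na) (fun h0 => by rw [h0]; rfl)
    ((h6.trans h5).trans h3)
  have e1 : Pool.Agent.SwP.ev 0 (SS (fun p => D (rv (fl p))) B nb) =
      D (preR B nb) 0 := by
    rw [← sp_D_rvfl, ← sp_D_rv_fl (preR B nb)]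
    rfl
  have e2 : Pool.Agent.SwP.ev 0 (SS D A na) = D (preR A na) 0 := by
    rw [sp_D_preR]; rfl
  have e3 : Pool.Agent.SwP.ev 0 (SS D C nc) = D (pre C nc) 0 := by
    rw [sp_D_pre]; rfl
  unfold PA
  rw [e1, e2, e3]
  refine ⟨?_, h3, h4, h5, ?_, q, ?_, ?_⟩
  · rw [← sp_D_rvfl]
    unfold boxX
    rw [mem_filter, Fintype.mem_piFinset]
    refine ⟨?_, ?_⟩
    · intro j
      rw [Finset.mem_Icc]
      have h8 := abs_D_le (rv (fl (preR B nb))) j
      rw [length_rv] at h8
      have h9 : (fl (preR B nb)).length = (preR B nb).length := by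
        unfold fl
        rw [List.length_map]
      rw [h9] at h8
      have h10 : ((preR B nb).length : ℤ) ≤ L := by exact_mod_cast h1
      exact abs_le.1 (h8.trans h10)
    · rw [sp_D_rv_fl]
      linarith
  · intro y hy hy'
    refine sp_saw_a (a := preR A na) (u := preR B nb) (v := pre C nc) h7 ?_ (q := y) ?_ ?_
    · intro h0
      rw [h0, D_nil] at h5
      simp only [Pi.zero_apply] at h5
      linarith
    · rw [sp_mem_Pa A hna, sp_D_rvfl]; exact hy
    · rw [sp_mem_pre' C hnc]; exact hy'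
  · rw [← sp_D_rvfl, ← sp_mem_Pa A hna]; exact hq1
  · rw [← sp_mem_pre' E hk, ← sp_D_pre]; exact hq2

theorem sp_caseA {x : ℝ} (hx : 0 ≤ x) {L M : ℕ} (hLM : L ≤ M) (S g : ℕ) {k' : ℕ} (hk : 1 ≤ k')
    (h1 : Ph x M ≤ 1) (h2 : (1 : ℝ) / 2 ≤ Ph x M ^ (4 * S)) {m H : ℕ} (hm : 1 ≤ m)
    (hH : 2 * m ≤ H) :
    ∑ i ∈ range S, ∑ t ∈ TN L (S + i + 1) g, w3 x t * em x M k' (HAw t.1 t.2.1 t.2.2) ≤
      4 * (g + 1) ^ 2 * (H + 2 ^ (m + 1) * H * (2 * (g + 1)) *
        (∑ n ∈ Finset.Icc 1 (4 * S), (1 : ℝ) / n) +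
        (2 * S + 1) * ((4 * (m : ℝ) / H) ^ m * Real.sqrt ((2 * (L : ℝ) + 1) ^ dd))) := by
  have hw : ∀ p ∈ irs M, (0 : ℝ) ≤ x ^ p.length := fun p _ => pow_nonneg hx _
  refine (sp_main hx hLM S g k' (fun a b c e => HAw a b c e)).trans ?_
  have key := case_a (F := irs M) (w := fun p => x ^ p.length) (D := D)
    (D' := fun p => D (rv (fl p))) (ht := Pool.Agent.SwP.ev 0)
    (pts := fun p => (pts p : Set Pt))
    hw h1 (fun p hp => (mem_irs.1 hp).2.one_le)
    (fun p hp y hy => (mem_irs.1 hp).2.br.pts_range hy) (sp_law x M) (X := boxX S L)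
    (K := 2 * S) ?_ g k' (n1 := 2 * S) ?_ ?_ hm hH
  · refine le_trans ?_ (key.trans ?_)
    · refine sum_le_sum ?_
      intro na _
      refine sum_le_sum ?_
      intro nb _
      refine sum_le_sum ?_
      intro nc _
      refine EE_mono hw (fun A _ => EE_mono hw (fun B _ => EE_mono hw (fun C _ =>
        EE_mono hw (fun E _ => ?_))))
      by_cases h : TT S g L (preR A na) (preR B nb) (pre C nc) ∧
          HAw (preR A na) (preR B nb) (pre C nc) (pre E k')
      · rw [if_pos h, if_pos (sp_PA hk h)]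
      · rw [if_neg h]
        split <;> norm_num
    · apply mul_le_mul_of_nonneg_left _ (by positivity)
      have e4 : 2 * (2 * S) = 4 * S := by ring
      rw [e4]
      apply add_le_add (le_refl _)
      push_cast
      apply mul_le_mul_of_nonneg_left _ (by positivity)
      apply mul_le_mul_of_nonneg_left _ (by positivity)
      exact Real.sqrt_le_sqrt (sp_card_box S L)
  · intro v hv
    unfold boxX at hv
    rw [mem_filter] at hv
    change v 0 < ((2 * S : ℕ) : ℤ)
    push_cast
    exact hv.2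
  · exact half_mono hw h1 (by omega) h2
  · have e4 : 2 * (2 * S) = 4 * S := by ring
    rw [e4]
    exact h2

end Pool.Agent.SwR
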